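import Mathlib

section

/-! Discretely ordered commutative semirings with a ring of differences. `zify at *` moves a
statement about such an `M` to the ordered ring `Ar.R M`, where `linarith`/`nlinarith` work
(add `nn a : 0 ≤ ι a` as hints). -/

namespace Pool.Agent.MP75f14d

class Ar (M : Type) extends CommSemiring M, LinearOrder M where
  sor : IsStrictOrderedRing M
  can : CanonicallyOrderedAdd M
  disc : ∀ a b : M, a < b → a + 1 ≤ b
  R : Type
  ring : CommRing R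
  ord : LinearOrder R
  rsor : IsStrictOrderedRing R
  io : M →+* R
  io_le : ∀ a b, io a ≤ io b ↔ a ≤ b

attribute [instance_reducible] Ar.ring Ar.ord
attribute [instance] Ar.sor Ar.can Ar.ring Ar.ord Ar.rsor

variable {M : Type} [Ar M]

/-- The embedding into the ring of differences. -/
def io (a : M) : Ar.R M := (Ar.io : M →+* Ar.R M) a

@[zify_simps] theorem z_le (a b : M) : a ≤ b ↔ io a ≤ io b := (Ar.io_le a b).symm
@[zify_simps] theorem z_eq (a b : M) : a = b ↔ io a = io b := by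
  rw [le_antisymm_iff, le_antisymm_iff, z_le, z_le]
@[push_cast] theorem io_add (a b : M) : io (a + b) = io a + io b := map_add (Ar.io : M →+* Ar.R M) _ _
@[push_cast] theorem io_mul (a b : M) : io (a * b) = io a * io b := map_mul (Ar.io : M →+* Ar.R M) _ _
@[push_cast] theorem io_zero : io (0 : M) = 0 := map_zero (Ar.io : M →+* Ar.R M)
@[push_cast] theorem io_one : io (1 : M) = 1 := map_one (Ar.io : M →+* Ar.R M)
@[push_cast] theorem io_two : io (2 : M) = 2 := map_ofNat (Ar.io : M →+* Ar.R M) 2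
@[push_cast] theorem io_three : io (3 : M) = 3 := map_ofNat (Ar.io : M →+* Ar.R M) 3
@[push_cast] theorem io_four : io (4 : M) = 4 := map_ofNat (Ar.io : M →+* Ar.R M) 4
theorem lt_iff_succ_le {a b : M} : a < b ↔ a + 1 ≤ b :=
  ⟨Ar.disc a b, fun h => lt_of_lt_of_le (lt_add_one a) h⟩
@[zify_simps] theorem z_lt (a b : M) : a < b ↔ io a + 1 ≤ io b := by
  rw [lt_iff_succ_le, z_le, io_add, io_one]
@[zify_simps] theorem z_gt (a b : M) : a > b ↔ io b + 1 ≤ io a := z_lt b a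
@[zify_simps] theorem z_ge (a b : M) : a ≥ b ↔ io b ≤ io a := z_le b a
theorem nn (a : M) : 0 ≤ io a := by
  rw [← io_zero, ← z_le]; exact zero_le

theorem lt_succ_iff {a b : M} : a < b + 1 ↔ a ≤ b := by
  rw [lt_iff_succ_le]; exact add_le_add_iff_right 1

theorem lt_succ_iff_lt_or_eq {a b : M} : a < b + 1 ↔ a < b ∨ a = b := by
  rw [lt_succ_iff, le_iff_lt_or_eq]

theorem eq_zero_or_succ (a : M) : a = 0 ∨ ∃ b, a = b + 1 := by
  rcases eq_or_lt_of_le (zero_le : 0 ≤ a) with h | h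
  · exact Or.inl h.symm
  · obtain ⟨b, hb⟩ := exists_add_of_le (Ar.disc _ _ h)
    exact Or.inr ⟨b, by rw [hb]; ring⟩

theorem not_lt_zero (a : M) : ¬ a < 0 := not_lt.2 zero_le

/-- The pairing function. -/
def pair (a b : M) : M := (a + b) * (a + b) + a

theorem pair_lt_of_add_lt {a b c d : M} (h : a + b < c + d) : pair a b < pair c d := by
  unfold pair
  zify at *
  nlinarith [nn a, nn b, nn c, nn d]

theorem pair_inj {a b c d : M} (h : pair a b = pair c d) : a = c ∧ b = d := by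
  have hs : a + b = c + d := by
    rcases lt_trichotomy (a + b) (c + d) with h1 | h1 | h1
    · exact absurd h (pair_lt_of_add_lt h1).ne
    · exact h1
    · exact absurd h (pair_lt_of_add_lt h1).ne'
  have ha : a = c := by
    unfold pair at h
    rw [hs] at h
    exact add_left_cancel h
  subst ha
  exact ⟨rfl, add_left_cancel hs⟩

@[simp] theorem pair_eq_iff {a b c d : M} : pair a b = pair c d ↔ a = c ∧ b = d :=
  ⟨pair_inj, fun ⟨h1, h2⟩ => by rw [h1, h2]⟩

theorem le_pair_left (a b : M) : a ≤ pair a b := by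
  unfold pair; exact le_add_self

theorem le_pair_right (a b : M) : b ≤ pair a b := by
  unfold pair
  rcases eq_zero_or_succ b with rfl | ⟨c, rfl⟩
  · exact zero_le
  · zify; nlinarith [nn a, nn c]

theorem pair_mono {a b c d : M} (h1 : a ≤ c) (h2 : b ≤ d) : pair a b ≤ pair c d := by
  unfold pair; gcongr

theorem pair_lt_pair {a b c d : M} (h1 : a < c) (h2 : b ≤ d) : pair a b < pair c d :=
  pair_lt_of_add_lt (add_lt_add_of_lt_of_le h1 h2)

theorem pair_lt_pair' {a b c d : M} (h1 : a ≤ c) (h2 : b < d) : pair a b < pair c d :=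
  pair_lt_of_add_lt (add_lt_add_of_le_of_lt h1 h2)

end Pool.Agent.MP75f14d

end

section

/-! Abstract classes of `r.e.` subsets of `M`, with a calculus of recursive functions (`Fn`,
automated by `fun_prop`) and of r.e. predicates (`Sig`). -/

namespace Pool.Agent.MP75f14d

open Classical

/-- A family of subsets of `M` with the closure properties of the Sigma1-definable sets. -/
structure Cls (M : Type) [Ar M] where
  sets : Set (Set M)
  inter : ∀ {W V}, W ∈ sets → V ∈ sets → W ∩ V ∈ sets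
  union : ∀ {W V}, W ∈ sets → V ∈ sets → W ∪ V ∈ sets
  ex : ∀ {W}, W ∈ sets → {x | ∃ y, pair x y ∈ W} ∈ sets
  ball : ∀ {W}, W ∈ sets → {p | ∃ x b, p = pair x b ∧ ∀ y < b, pair x y ∈ W} ∈ sets
  cyl : ∀ {W}, W ∈ sets → {p | ∃ x y, p = pair x y ∧ x ∈ W} ∈ sets
  swap : ∀ {W}, W ∈ sets → {p | ∃ x y, p = pair y x ∧ pair x y ∈ W} ∈ sets
  swap23 : ∀ {W}, W ∈ sets →
    {p | ∃ x y z, p = pair (pair x z) y ∧ pair (pair x y) z ∈ W} ∈ sets
  assoc : ∀ {W}, W ∈ sets →
    {p | ∃ x y z, p = pair (pair x y) z ∧ pair x (pair y z) ∈ W} ∈ sets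
  univ : Set.univ ∈ sets
  diag : {p | ∃ x, p = pair x x} ∈ sets
  sing : ∀ c, {c} ∈ sets
  add : {p | ∃ x y, p = pair (pair x y) (x + y)} ∈ sets
  mul : {p | ∃ x y, p = pair (pair x y) (x * y)} ∈ sets
  lt : {p | ∃ x y, p = pair x y ∧ x < y} ∈ sets

variable {M : Type} [Ar M]

/-- Types coded in `M`. -/
class Cd (M : Type) [Ar M] (α : Type) where
  enc : α → M
  inj : Function.Injective enc
  rng : ∀ C : Cls M, Set.range enc ∈ C.sets

/-- The code of `a` in `M`. -/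
def enc (M : Type) [Ar M] {α : Type} [Cd M α] (a : α) : M := Cd.enc a

theorem enc_inj {α : Type} [Cd M α] {a b : α} (h : enc M a = enc M b) : a = b := Cd.inj h

@[simp] theorem enc_eq_iff {α : Type} [Cd M α] {a b : α} : enc M a = enc M b ↔ a = b :=
  ⟨enc_inj, fun h => by rw [h]⟩

theorem Cls.congr (C : Cls M) {W V : Set M} (h : W ∈ C.sets) (e : ∀ x, x ∈ V ↔ x ∈ W) :
    V ∈ C.sets := by
  rwa [Set.ext e]

theorem rng_mem (C : Cls M) (α : Type) [Cd M α] : {x | ∃ a : α, x = enc M a} ∈ C.sets :=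
  C.congr (Cd.rng (α := α) C) fun _ => ⟨fun ⟨a, h⟩ => ⟨a, h.symm⟩, fun ⟨a, h⟩ => ⟨a, h.symm⟩⟩

instance cdM : Cd M M where
  enc := id
  inj := Function.injective_id
  rng C := by simpa using C.univ

@[simp] theorem enc_M (a : M) : enc M a = a := rfl

instance cdProd {α β : Type} [Cd M α] [Cd M β] : Cd M (α × β) where
  enc p := pair (enc M p.1) (enc M p.2)
  inj := by
    rintro ⟨a, b⟩ ⟨c, d⟩ h
    obtain ⟨h1, h2⟩ := pair_inj h
    exact Prod.ext (enc_inj h1) (enc_inj h2)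
  rng C := by
    refine C.congr (C.inter (C.cyl (rng_mem C α)) (C.swap (C.cyl (rng_mem C β)))) fun p => ?_
    constructor
    · rintro ⟨⟨a, b⟩, rfl⟩
      exact ⟨⟨_, _, rfl, a, rfl⟩, _, _, rfl, _, _, rfl, b, rfl⟩
    · rintro ⟨⟨x, y, rfl, a, rfl⟩, x', y', h, x'', y'', h', b, rfl⟩
      obtain ⟨rfl, rfl⟩ := pair_inj h
      obtain ⟨rfl, rfl⟩ := pair_inj h'
      exact ⟨(a, b), rfl⟩

@[simp] theorem enc_prod {α β : Type} [Cd M α] [Cd M β] (p : α × β) :
    enc M p = pair (enc M p.1) (enc M p.2) := rfl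

noncomputable instance cdProp : Cd M Prop where
  enc p := if p then 1 else 0
  inj := by
    intro p q h
    by_cases hp : p <;> by_cases hq : q <;> simp_all
  rng C := by
    refine C.congr (C.union (C.sing 1) (C.sing 0)) fun x => ?_
    constructor
    · rintro ⟨p, rfl⟩
      by_cases hp : p <;> simp [hp]
    · rintro (rfl | rfl)
      · exact ⟨True, by simp⟩
      · exact ⟨False, by simp⟩

/-- The predicate `P` is r.e. in the class `C`. -/
def Sig (C : Cls M) {α : Type} [Cd M α] (P : α → Prop) : Prop :=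
  {x | ∃ a, x = enc M a ∧ P a} ∈ C.sets

/-- The function `f` is recursive in the class `C` (for `β = Prop`: the predicate is decidable). -/
@[fun_prop] def Fn (C : Cls M) {α β : Type} [Cd M α] [Cd M β] (f : α → β) : Prop :=
  Sig C fun p : α × β => f p.1 = p.2

variable {C : Cls M} {α β γ : Type} [Cd M α] [Cd M β] [Cd M γ]

theorem sig_iff_mem {W : Set M} : Sig C (fun x : M => x ∈ W) ↔ W ∈ C.sets := by
  have : {x | ∃ a : M, x = enc M a ∧ a ∈ W} = W := by ext; simp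
  rw [Sig, this]

namespace Sig

theorem congr {P Q : α → Prop} (h : Sig C P) (e : ∀ a, Q a ↔ P a) : Sig C Q := by
  rwa [show Q = P from funext fun a => propext (e a)]

theorem mem_sets {P : M → Prop} (h : Sig C P) : {x | P x} ∈ C.sets := sig_iff_mem.1 h

theorem top : Sig C fun _ : α => True := C.congr (rng_mem C α) (by simp)

theorem and {P Q : α → Prop} (h1 : Sig C P) (h2 : Sig C Q) : Sig C fun a => P a ∧ Q a := by
  refine C.congr (C.inter h1 h2) fun x => ⟨?_, ?_⟩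
  · rintro ⟨a, rfl, h, h'⟩; exact ⟨⟨a, rfl, h⟩, a, rfl, h'⟩
  · rintro ⟨⟨a, rfl, h⟩, b, e, h'⟩
    obtain rfl := enc_inj e
    exact ⟨a, rfl, h, h'⟩

theorem or {P Q : α → Prop} (h1 : Sig C P) (h2 : Sig C Q) : Sig C fun a => P a ∨ Q a := by
  refine C.congr (C.union h1 h2) fun x => ⟨?_, ?_⟩
  · rintro ⟨a, rfl, h | h⟩
    · exact Or.inl ⟨a, rfl, h⟩
    · exact Or.inr ⟨a, rfl, h⟩
  · rintro (⟨a, rfl, h⟩ | ⟨a, rfl, h⟩)
    · exact ⟨a, rfl, Or.inl h⟩
    · exact ⟨a, rfl, Or.inr h⟩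

theorem ex {P : α → β → Prop} (h : Sig C fun p : α × β => P p.1 p.2) :
    Sig C fun a => ∃ b, P a b := by
  refine C.congr (C.ex h) fun x => ⟨?_, ?_⟩
  · rintro ⟨a, rfl, b, hb⟩; exact ⟨_, (a, b), rfl, hb⟩
  · rintro ⟨y, ⟨a, b⟩, e, hb⟩
    obtain ⟨rfl, rfl⟩ := pair_inj e
    exact ⟨a, rfl, b, hb⟩

theorem cyl {P : α → Prop} (h : Sig C P) : Sig C fun p : α × β => P p.1 := by
  refine C.congr (C.inter (C.cyl h) (rng_mem C (α × β))) fun x => ⟨?_, ?_⟩
  · rintro ⟨⟨a, b⟩, rfl, hb⟩; exact ⟨⟨_, _, rfl, a, rfl, hb⟩, (a, b), rfl⟩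
  · rintro ⟨⟨x, y, rfl, a, rfl, ha⟩, ⟨a', b⟩, e⟩
    obtain ⟨e1, rfl⟩ := pair_inj e
    obtain rfl := enc_inj e1
    exact ⟨(a, b), rfl, ha⟩

theorem swap {P : α × β → Prop} (h : Sig C P) : Sig C fun p : β × α => P (p.2, p.1) := by
  refine C.congr (C.swap h) fun x => ⟨?_, ?_⟩
  · rintro ⟨⟨b, a⟩, rfl, hb⟩; exact ⟨_, _, rfl, (a, b), rfl, hb⟩
  · rintro ⟨x, y, rfl, ⟨a, b⟩, e, hb⟩
    obtain ⟨rfl, rfl⟩ := pair_inj e
    exact ⟨(b, a), rfl, hb⟩

theorem swap23 {P : (α × β) × γ → Prop} (h : Sig C P) :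
    Sig C fun p : (α × γ) × β => P ((p.1.1, p.2), p.1.2) := by
  refine C.congr (C.swap23 h) fun x => ⟨?_, ?_⟩
  · rintro ⟨⟨⟨a, c⟩, b⟩, rfl, hb⟩; exact ⟨_, _, _, rfl, ((a, b), c), rfl, hb⟩
  · rintro ⟨x, y, z, rfl, ⟨⟨a, b⟩, c⟩, e, hb⟩
    obtain ⟨e1, rfl⟩ := pair_inj e
    obtain ⟨rfl, rfl⟩ := pair_inj e1
    exact ⟨((a, c), b), rfl, hb⟩

theorem assoc {P : α × β × γ → Prop} (h : Sig C P) :
    Sig C fun p : (α × β) × γ => P (p.1.1, p.1.2, p.2) := by
  refine C.congr (C.assoc h) fun x => ⟨?_, ?_⟩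
  · rintro ⟨⟨⟨a, b⟩, c⟩, rfl, hb⟩; exact ⟨_, _, _, rfl, (a, b, c), rfl, hb⟩
  · rintro ⟨x, y, z, rfl, ⟨a, b, c⟩, e, hb⟩
    obtain ⟨rfl, e1⟩ := pair_inj e
    obtain ⟨rfl, rfl⟩ := pair_inj e1
    exact ⟨((a, b), c), rfl, hb⟩

theorem assoc' {P : (α × β) × γ → Prop} (h : Sig C P) :
    Sig C fun p : α × β × γ => P ((p.1, p.2.1), p.2.2) :=
  h.swap.assoc.swap.assoc.swap

theorem eq : Sig C fun p : α × α => p.1 = p.2 := by
  refine C.congr (C.inter C.diag (C.cyl (rng_mem C α))) fun x => ⟨?_, ?_⟩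
  · rintro ⟨⟨a, b⟩, rfl, hb⟩
    obtain rfl : a = b := hb
    exact ⟨⟨_, rfl⟩, _, _, rfl, a, rfl⟩
  · rintro ⟨⟨x, rfl⟩, y, z, e, a, rfl⟩
    obtain ⟨rfl, rfl⟩ := pair_inj e
    exact ⟨(a, a), rfl, rfl⟩

theorem sing (c : α) : Sig C fun a => a = c :=
  C.congr (C.sing (enc M c)) fun x => by simp

theorem comp {P : β → Prop} {f : α → β} (hP : Sig C P) (hf : Fn C f) : Sig C fun a => P (f a) :=
  (Sig.ex (P := fun a b => f a = b ∧ P b) (Sig.and hf (hP.cyl (β := α)).swap)).congr (by simp)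

theorem ball0 {P : α → M → Prop} (h : Sig C fun p : α × M => P p.1 p.2) :
    Sig C fun p : α × M => ∀ y < p.2, P p.1 y := by
  refine C.congr (C.inter (C.ball h) (rng_mem C (α × M))) fun x => ⟨?_, ?_⟩
  · rintro ⟨⟨a, b⟩, rfl, hb⟩
    exact ⟨⟨_, _, rfl, fun y hy => ⟨(a, y), rfl, hb y hy⟩⟩, (a, b), rfl⟩
  · rintro ⟨⟨x, b, rfl, hb⟩, ⟨a, b'⟩, e⟩
    obtain ⟨rfl, rfl⟩ := pair_inj e
    refine ⟨(a, b), rfl, fun y hy => ?_⟩
    obtain ⟨⟨a', y'⟩, e', h'⟩ := hb y hy
    obtain ⟨e1, rfl⟩ := pair_inj e'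
    obtain rfl := enc_inj e1
    exact h'

theorem lt0 : Sig C fun p : M × M => p.1 < p.2 :=
  C.congr C.lt fun x => ⟨fun ⟨p, h1, h2⟩ => ⟨p.1, p.2, h1, h2⟩,
    fun ⟨a, b, h1, h2⟩ => ⟨(a, b), h1, h2⟩⟩

end Sig

namespace Fn

@[fun_prop] theorem id' : Fn C fun a : α => a := Sig.eq

@[fun_prop] theorem const (c : β) : Fn C fun _ : α => c :=
  (((Sig.sing c).cyl (β := α)).swap).congr fun _ => eq_comm

@[fun_prop] theorem comp {f : β → γ} {g : α → β} (hf : Fn C f) (hg : Fn C g) :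
    Fn C fun a => f (g a) :=
  (Sig.ex (P := fun (p : α × γ) b => g p.1 = b ∧ f b = p.2)
    (Sig.and (Sig.cyl (β := γ) hg).swap23 ((Sig.swap hf).cyl (β := α)).swap.assoc)).congr (by simp)

theorem fst0 : Fn C (Prod.fst : α × β → α) := (Sig.eq.cyl (β := β)).swap23

theorem snd0 : Fn C (Prod.snd : α × β → β) := (Sig.eq.cyl (β := α)).swap.assoc

@[fun_prop] theorem fst {f : α → β × γ} (hf : Fn C f) : Fn C fun a => (f a).1 := fst0.comp hf

@[fun_prop] theorem snd {f : α → β × γ} (hf : Fn C f) : Fn C fun a => (f a).2 := snd0.comp hf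

@[fun_prop] theorem prodMk {f : α → β} {g : α → γ} (hf : Fn C f) (hg : Fn C g) :
    Fn C fun a => (f a, g a) :=
  (Sig.and (Sig.cyl (β := γ) hf) (Sig.cyl (β := β) hg).swap23).assoc'.congr
    fun p => by simp [Prod.ext_iff]

theorem add0 : Fn C fun p : M × M => p.1 + p.2 :=
  C.congr C.add fun x => ⟨fun ⟨p, h1, h2⟩ => ⟨p.1.1, p.1.2, by
      rw [h1, show p.1.1 + p.1.2 = p.2 from h2]; rfl⟩,
    fun ⟨a, b, h1⟩ => ⟨((a, b), a + b), h1, rfl⟩⟩

theorem mul0 : Fn C fun p : M × M => p.1 * p.2 :=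
  C.congr C.mul fun x => ⟨fun ⟨p, h1, h2⟩ => ⟨p.1.1, p.1.2, by
      rw [h1, show p.1.1 * p.1.2 = p.2 from h2]; rfl⟩,
    fun ⟨a, b, h1⟩ => ⟨((a, b), a * b), h1, rfl⟩⟩

@[fun_prop] theorem add {f g : α → M} (hf : Fn C f) (hg : Fn C g) : Fn C fun a => f a + g a :=
  add0.comp (hf.prodMk hg)

@[fun_prop] theorem mul {f g : α → M} (hf : Fn C f) (hg : Fn C g) : Fn C fun a => f a * g a :=
  mul0.comp (hf.prodMk hg)

@[fun_prop] theorem pair {f g : α → M} (hf : Fn C f) (hg : Fn C g) :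
    Fn C fun a => pair (f a) (g a) := by
  unfold MP75f14d.pair; fun_prop

theorem enc0 : Fn C (enc M : α → M) :=
  C.congr (Sig.eq (α := α)) fun x =>
    ⟨fun ⟨p, h1, h2⟩ => ⟨(p.1, p.1), by rw [h1]; simp [← h2], rfl⟩,
     fun ⟨p, h1, h2⟩ => ⟨(p.1, enc M p.1), by rw [h1]; simp [← h2], rfl⟩⟩

@[fun_prop] theorem enc {f : α → β} (hf : Fn C f) : Fn C fun a => enc M (f a) := enc0.comp hf

/-- A decidable predicate is r.e. -/
theorem sig {P : α → Prop} (h : Fn C P) : Sig C P :=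
  ((Sig.sing True).comp h).congr (by simp)

/-- A decidable predicate is co-r.e. -/
theorem sig_not {P : α → Prop} (h : Fn C P) : Sig C fun a => ¬ P a :=
  ((Sig.sing False).comp h).congr (by simp)

theorem of_sig {P : α → Prop} (h1 : Sig C P) (h2 : Sig C fun a => ¬ P a) : Fn C P := by
  refine ((h1.cyl.and ((Sig.sing True).comp snd0)).or
    (h2.cyl.and ((Sig.sing False).comp snd0))).congr fun p => ?_
  by_cases h : P p.1 <;> simp [h]

theorem congr {f g : α → β} (h : Fn C f) (e : ∀ a, g a = f a) : Fn C g := by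
  rwa [show g = f from funext e]

theorem congr_iff {P Q : α → Prop} (h : Fn C P) (e : ∀ a, Q a ↔ P a) : Fn C Q :=
  h.congr fun a => propext (e a)

@[fun_prop] theorem not {P : α → Prop} (h : Fn C P) : Fn C fun a => ¬ P a :=
  of_sig h.sig_not (h.sig.congr (by simp))

@[fun_prop] theorem and {P Q : α → Prop} (h1 : Fn C P) (h2 : Fn C Q) : Fn C fun a => P a ∧ Q a :=
  of_sig (h1.sig.and h2.sig) ((h1.sig_not.or h2.sig_not).congr fun _ => not_and_or)

@[fun_prop] theorem or {P Q : α → Prop} (h1 : Fn C P) (h2 : Fn C Q) : Fn C fun a => P a ∨ Q a :=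
  of_sig (h1.sig.or h2.sig) ((h1.sig_not.and h2.sig_not).congr fun _ => not_or)

@[fun_prop] theorem iff {P Q : α → Prop} (h1 : Fn C P) (h2 : Fn C Q) : Fn C fun a => P a ↔ Q a :=
  ((h1.and h2).or (h1.not.and h2.not)).congr_iff fun a => by tauto

theorem lt0 : Fn C fun p : M × M => p.1 < p.2 :=
  of_sig Sig.lt0 ((Sig.lt0.swap.or Sig.eq).congr fun p => by
    simp only [not_lt]; rw [le_iff_lt_or_eq, eq_comm])

@[fun_prop] theorem lt {f g : α → M} (hf : Fn C f) (hg : Fn C g) : Fn C fun a => f a < g a :=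
  lt0.comp (hf.prodMk hg)

@[fun_prop] theorem le {f g : α → M} (hf : Fn C f) (hg : Fn C g) : Fn C fun a => f a ≤ g a :=
  (hg.lt hf).not.congr_iff fun _ => not_lt.symm

@[fun_prop] theorem eq {f g : α → β} (hf : Fn C f) (hg : Fn C g) : Fn C fun a => f a = g a :=
  ((hf.enc.le hg.enc).and (hg.enc.le hf.enc)).congr_iff fun a => by
    rw [← le_antisymm_iff, enc_eq_iff]

@[fun_prop] theorem ne {f g : α → β} (hf : Fn C f) (hg : Fn C g) : Fn C fun a => f a ≠ g a :=
  (hf.eq hg).not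

end Fn

/-- Implication, as a function (for `fun_prop`). -/
def Imp (p q : Prop) : Prop := p → q
/-- Bounded universal quantifier, as a function (for `fun_prop`). -/
def BAll {M : Type} [Ar M] (t : M) (P : M → Prop) : Prop := ∀ y < t, P y
/-- Bounded existential quantifier, as a function (for `fun_prop`). -/
def BEx {M : Type} [Ar M] (t : M) (P : M → Prop) : Prop := ∃ y < t, P y
/-- Definition by cases. -/
noncomputable def cnd {β : Type} (p : Prop) (a b : β) : β := if p then a else b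

theorem cnd_pos {β : Type} {p : Prop} (h : p) (a b : β) : cnd p a b = a := if_pos h
theorem cnd_neg {β : Type} {p : Prop} (h : ¬ p) (a b : β) : cnd p a b = b := if_neg h

namespace Sig

theorem ball {P : α → M → Prop} {t : α → M} (ht : Fn C t) (h : Sig C fun p : α × M => P p.1 p.2) :
    Sig C fun a => ∀ y < t a, P a y :=
  h.ball0.comp (Fn.id'.prodMk ht)

theorem bex {P : α → M → Prop} {t : α → M} (ht : Fn C t) (h : Sig C fun p : α × M => P p.1 p.2) :
    Sig C fun a => ∃ y < t a, P a y :=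
  Sig.ex (P := fun a y => y < t a ∧ P a y) ((Fn.sig (by fun_prop)).and h)

theorem imp {P Q : α → Prop} (h1 : Fn C P) (h2 : Sig C Q) : Sig C fun a => P a → Q a :=
  (h1.sig_not.or h2).congr fun _ => imp_iff_not_or

end Sig

namespace Fn

@[fun_prop] theorem imp {P Q : α → Prop} (h1 : Fn C P) (h2 : Fn C Q) :
    Fn C fun a => Imp (P a) (Q a) :=
  (h1.not.or h2).congr_iff fun _ => imp_iff_not_or

@[fun_prop] theorem ball {P : α → M → Prop} {t : α → M} (ht : Fn C t)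
    (h : Fn C fun p : α × M => P p.1 p.2) : Fn C fun a => BAll (t a) (P a) :=
  of_sig (Sig.ball ht h.sig) ((Sig.bex ht (P := fun a y => ¬ P a y) h.sig_not).congr
    fun a => by simp [BAll])

@[fun_prop] theorem bex {P : α → M → Prop} {t : α → M} (ht : Fn C t)
    (h : Fn C fun p : α × M => P p.1 p.2) : Fn C fun a => BEx (t a) (P a) :=
  of_sig (Sig.bex ht h.sig) ((Sig.ball ht (P := fun a y => ¬ P a y) h.sig_not).congr
    fun a => by simp [BEx])

@[fun_prop] theorem cnd {P : α → Prop} {f g : α → β} (hP : Fn C P) (hf : Fn C f) (hg : Fn C g) :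
    Fn C fun a => cnd (P a) (f a) (g a) := by
  have : Fn C fun p : α × β => (P p.1 ∧ f p.1 = p.2) ∨ (¬ P p.1 ∧ g p.1 = p.2) := by fun_prop
  refine this.sig.congr fun p => ?_
  by_cases h : P p.1 <;> simp [MP75f14d.cnd, h]

/-- A total function with r.e. graph-like description. -/
theorem of_graph {f : α → β} {G : α → β → Prop} (h : Sig C fun p : α × β => G p.1 p.2)
    (e : ∀ a b, f a = b ↔ G a b) : Fn C f :=
  h.congr fun p => e p.1 p.2

end Fn

end Pool.Agent.MP75f14d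

end

section

/-! Induction and collection principles for a class, bounded minimisation, unpairing. -/

namespace Pool.Agent.MP75f14d

open Classical

variable {M : Type} [Ar M]

/-- Induction for the recursive sets of the class. -/
class Ind (C : Cls M) : Prop where
  ind : ∀ W ∈ C.sets, Wᶜ ∈ C.sets → 0 ∈ W → (∀ x ∈ W, x + 1 ∈ W) → ∀ x, x ∈ W

/-- Induction for the r.e. sets of the class. -/
class SInd (C : Cls M) : Prop where
  ind : ∀ W ∈ C.sets, 0 ∈ W → (∀ x ∈ W, x + 1 ∈ W) → ∀ x, x ∈ W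

/-- Collection for the r.e. sets of the class. -/
class Coll (C : Cls M) : Prop where
  coll : ∀ W ∈ C.sets, ∀ a, (∀ x < a, ∃ y, pair x y ∈ W) → ∃ b, ∀ x < a, ∃ y < b, pair x y ∈ W

/-- Collection for the co-r.e. sets of the class. -/
class Coll2 (C : Cls M) : Prop where
  coll : ∀ W ∈ C.sets, ∀ a, (∀ x < a, ∃ y, pair x y ∉ W) → ∃ b, ∀ x < a, ∃ y < b, pair x y ∉ W

/-- Normal form: every r.e. set is the projection of a recursive relation. -/
def NF (C : Cls M) : Prop :=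
  ∀ W ∈ C.sets, ∃ R : M → M → Prop, Fn C (fun p : M × M => R p.1 p.2) ∧ ∀ x, x ∈ W ↔ ∃ y, R x y

/-- The class has a universal r.e. set. -/
def Univ (C : Cls M) : Prop :=
  ∃ U : M → M → M → Prop, Fn C (fun p : M × M × M => U p.1 p.2.1 p.2.2) ∧
    ∀ W ∈ C.sets, ∃ e, ∀ x, x ∈ W ↔ ∃ y, U e x y

variable {C : Cls M} {α β : Type} [Cd M α] [Cd M β]

theorem Univ.nf (h : Univ C) : NF C := by
  obtain ⟨U, hU, h⟩ := h
  intro W hW
  obtain ⟨e, he⟩ := h W hW
  exact ⟨U e, by fun_prop, he⟩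

theorem Univ.countable [Countable M] (h : Univ C) : C.sets.Countable := by
  obtain ⟨U, -, h⟩ := h
  refine (Set.countable_range fun e : M => {x | ∃ y, U e x y}).mono fun W hW => ?_
  obtain ⟨e, he⟩ := h W hW
  exact ⟨e, (Set.ext he).symm⟩

/-- Normal form for predicates on a coded type. -/
theorem NF.sig (h : NF C) {P : α → Prop} (hP : Sig C P) :
    ∃ R : α → M → Prop, Fn C (fun p : α × M => R p.1 p.2) ∧ ∀ a, P a ↔ ∃ y, R a y := by
  obtain ⟨R, hR, e⟩ := h _ hP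
  refine ⟨fun a y => R (enc M a) y, by fun_prop, fun a => ?_⟩
  rw [← e]; simp

theorem Sig.mono {C' : Cls M} (h : C.sets ⊆ C'.sets) {P : α → Prop} (hP : Sig C P) : Sig C' P :=
  h hP

theorem Fn.mono {C' : Cls M} (h : C.sets ⊆ C'.sets) {f : α → β} (hf : Fn C f) : Fn C' f :=
  h hf

theorem fn_mem_iff {W : Set M} : Fn C (fun x : M => x ∈ W) ↔ W ∈ C.sets ∧ Wᶜ ∈ C.sets :=
  ⟨fun h => ⟨sig_iff_mem.1 h.sig, sig_iff_mem.1 h.sig_not⟩,
    fun h => Fn.of_sig (sig_iff_mem.2 h.1) (sig_iff_mem.2 h.2)⟩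

theorem SInd.of_subset {C' : Cls M} [SInd C'] (h : C.sets ⊆ C'.sets) : SInd C :=
  ⟨fun W hW => SInd.ind (C := C') W (h hW)⟩

theorem Coll2.of_subset {C' : Cls M} [Coll2 C'] (h : C.sets ⊆ C'.sets) : Coll2 C :=
  ⟨fun W hW => Coll2.coll (C := C') W (h hW)⟩

instance [SInd C] : Ind C := ⟨fun W hW _ => SInd.ind W hW⟩

theorem Fn.ind [Ind C] {P : M → Prop} (hP : Fn C P) (h0 : P 0) (hs : ∀ x, P x → P (x + 1)) :
    ∀ x, P x :=
  Ind.ind (C := C) {x | P x} hP.sig.mem_sets hP.sig_not.mem_sets h0 hs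

theorem Sig.ind [SInd C] {P : M → Prop} (hP : Sig C P) (h0 : P 0) (hs : ∀ x, P x → P (x + 1)) :
    ∀ x, P x :=
  SInd.ind (C := C) {x | P x} hP.mem_sets h0 hs

/-- Induction up to a bound. -/
theorem Sig.ind_le [SInd C] {P : M → Prop} (hP : Sig C P) (a : M) (h0 : P 0)
    (hs : ∀ x < a, P x → P (x + 1)) : ∀ x ≤ a, P x := by
  refine Sig.ind (C := C) (P := fun x => x ≤ a → P x) (Sig.imp (by fun_prop) hP) (fun _ => h0) ?_
  intro x ih hx
  exact hs x (lt_iff_succ_le.2 hx) (ih (le_trans le_self_add hx))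

theorem Fn.ind_le [Ind C] {P : M → Prop} (hP : Fn C P) (a : M) (h0 : P 0)
    (hs : ∀ x < a, P x → P (x + 1)) : ∀ x ≤ a, P x := by
  refine Fn.ind (C := C) (P := fun x => Imp (x ≤ a) (P x)) (by fun_prop) (fun _ => h0) ?_
  intro x ih hx
  exact hs x (lt_iff_succ_le.2 hx) (ih (le_trans le_self_add hx))

/-- Strong induction. -/
theorem Fn.strong_ind [Ind C] {P : M → Prop} (hP : Fn C P) (hs : ∀ x, (∀ y < x, P y) → P x) :
    ∀ x, P x := by
  have : ∀ x, BAll x P := by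
    refine Fn.ind (C := C) (by fun_prop) (fun y hy => absurd hy (not_lt_zero y)) ?_
    intro x ih y hy
    rcases lt_succ_iff_lt_or_eq.1 hy with h | rfl
    · exact ih y h
    · exact hs y ih
  exact fun x => hs x (this x)

/-- Least number principle. -/
theorem Fn.lnp [Ind C] {P : M → Prop} (hP : Fn C P) {a : M} (ha : P a) :
    ∃ x, P x ∧ ∀ y < x, ¬ P y := by
  by_contra h
  push Not at h
  refine Fn.strong_ind (C := C) (P := fun x => ¬ P x) hP.not (fun x ih hx => ?_) a ha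
  obtain ⟨y, hy, hy'⟩ := h x hx
  exact ih y hy hy'

/-- A bounded nonempty recursive set has a largest element. -/
theorem Fn.exists_max [Ind C] {P : M → Prop} (hP : Fn C P) {a b : M} (ha : P a)
    (hb : ∀ x, P x → x < b) : ∃ x, P x ∧ ∀ y, P y → y ≤ x := by
  obtain ⟨c, hc, hmin⟩ := Fn.lnp (C := C) (P := fun c => BAll b fun x => Imp (P x) (x < c))
    (by fun_prop) (a := b) fun x hx _ => hx
  rcases eq_zero_or_succ c with rfl | ⟨d, rfl⟩
  · exact absurd (hc a (hb a ha) ha) (not_lt_zero a)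
  · have := hmin d (lt_add_one d)
    simp only [BAll, Imp, not_forall, not_lt] at this
    obtain ⟨x, hxb, hx, hdx⟩ := this
    have : x = d := le_antisymm (lt_succ_iff.1 (hc x hxb hx)) hdx
    subst this
    exact ⟨x, hx, fun y hy => lt_succ_iff.1 (hc y (hb y hy) hy)⟩

theorem sig_pair_set {P : M → M → Prop} (h : Sig C fun p : M × M => P p.1 p.2) :
    ∃ W ∈ C.sets, ∀ x y, pair x y ∈ W ↔ P x y :=
  ⟨_, h, fun x y => by simp⟩

theorem Sig.coll [Coll C] {P : M → M → Prop} (h : Sig C fun p : M × M => P p.1 p.2) {a : M}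
    (ha : ∀ x < a, ∃ y, P x y) : ∃ b, ∀ x < a, ∃ y < b, P x y := by
  obtain ⟨W, hW, e⟩ := sig_pair_set h
  simpa only [e] using Coll.coll W hW a (by simpa only [e] using ha)

theorem Sig.coll2 [Coll2 C] {P : M → M → Prop} (h : Sig C fun p : M × M => P p.1 p.2) {a : M}
    (ha : ∀ x < a, ∃ y, ¬ P x y) : ∃ b, ∀ x < a, ∃ y < b, ¬ P x y := by
  obtain ⟨W, hW, e⟩ := sig_pair_set h
  simpa only [e] using Coll2.coll W hW a (by simpa only [e] using ha)

instance [SInd C] : Coll C where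
  coll W hW a ha := by
    have hW' : Sig C fun x : M => x ∈ W := sig_iff_mem.2 hW
    refine Sig.ind_le (C := C) (P := fun j => ∃ b, ∀ x < j, ∃ y < b, pair x y ∈ W) ?_ a
      ⟨0, fun x hx => absurd hx (not_lt_zero x)⟩ ?_ a le_rfl
    · refine Sig.ex (Sig.ball (by fun_prop) (Sig.bex (by fun_prop) ?_))
      exact hW'.comp (by fun_prop)
    · rintro j hj ⟨b, hb⟩
      obtain ⟨y, hy⟩ := ha j hj
      refine ⟨b + y + 1, fun x hx => ?_⟩
      rcases lt_succ_iff_lt_or_eq.1 hx with h | rfl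
      · obtain ⟨z, hz, hz'⟩ := hb x h
        exact ⟨z, by zify at *; linarith [nn y], hz'⟩
      · exact ⟨y, by zify; linarith [nn b], hy⟩

/-- A recursive function is bounded on bounded sets. -/
theorem Fn.bdd [Coll C] {f : M → M} (hf : Fn C f) (a : M) : ∃ b, ∀ x < a, f x < b := by
  obtain ⟨b, hb⟩ := Sig.coll (C := C) (P := fun x y => f x = y) hf (a := a) fun x _ => ⟨_, rfl⟩
  exact ⟨b, fun x hx => by obtain ⟨y, hy, rfl⟩ := hb x hx; exact hy⟩

/-- Bounded minimisation: the least `y < t` with `P y`, and `t` if there is none. -/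
noncomputable def mu (t : M) (P : M → Prop) : M :=
  if h : ∃ y, y < t ∧ P y ∧ ∀ z < y, ¬ P z then h.choose else t

theorem mu_eq_iff (t : M) (P : M → Prop) (y : M) :
    mu t P = y ↔ (y < t ∧ P y ∧ BAll y fun z => ¬ P z) ∨
      (y = t ∧ ¬ BEx t fun y => P y ∧ BAll y fun z => ¬ P z) := by
  unfold mu
  split_ifs with h
  · have hs := h.choose_spec
    constructor
    · rintro rfl; exact Or.inl hs
    · rintro (⟨h1, h2, h3⟩ | ⟨-, h2⟩)
      · rcases lt_trichotomy h.choose y with h' | h' | h'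
        · exact absurd hs.2.1 (h3 _ h')
        · exact h'
        · exact absurd h2 (hs.2.2 _ h')
      · exact absurd h h2
  · constructor
    · rintro rfl; exact Or.inr ⟨rfl, h⟩
    · rintro (h' | ⟨h1, -⟩)
      · exact absurd ⟨y, h'⟩ h
      · exact h1.symm

@[fun_prop] theorem Fn.mu {P : α → M → Prop} {t : α → M} (ht : Fn C t)
    (h : Fn C fun p : α × M => P p.1 p.2) : Fn C fun a => mu (t a) (P a) :=
  Fn.of_graph (G := fun a y => (y < t a ∧ P a y ∧ BAll y fun z => ¬ P a z) ∨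
      (y = t a ∧ ¬ BEx (t a) fun y => P a y ∧ BAll y fun z => ¬ P a z))
    (Fn.sig (by fun_prop)) fun a y => mu_eq_iff _ _ _

theorem mu_le (t : M) (P : M → Prop) : mu t P ≤ t := by
  rcases (mu_eq_iff t P _).1 rfl with h | h
  · exact h.1.le
  · exact h.1.le

theorem mu_eq_of {t : M} {P : M → Prop} {y : M} (h1 : y < t) (h2 : P y) (h3 : ∀ z < y, ¬ P z) :
    mu t P = y := (mu_eq_iff t P y).2 (Or.inl ⟨h1, h2, h3⟩)

theorem mu_spec (C : Cls M) [Ind C] {t : M} {P : M → Prop} (hP : Fn C P) {y : M} (hy : y < t)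
    (h : P y) : mu t P ≤ y ∧ P (mu t P) ∧ ∀ z < mu t P, ¬ P z := by
  obtain ⟨x, hx, hmin⟩ := hP.lnp h
  have hxy : x ≤ y := not_lt.1 fun h' => hmin y h' h
  rw [mu_eq_of (lt_of_le_of_lt hxy hy) hx hmin]
  exact ⟨hxy, hx, hmin⟩

/-- Unbounded minimisation of a recursive relation with full domain. -/
theorem exists_fn_least [Ind C] {P : α → M → Prop} (h : Fn C fun p : α × M => P p.1 p.2)
    (hex : ∀ a, ∃ y, P a y) : ∃ f : α → M, Fn C f ∧ ∀ a, P a (f a) ∧ ∀ z < f a, ¬ P a z := by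
  have : ∀ a, ∃ y, P a y ∧ ∀ z < y, ¬ P a z := fun a =>
    (hex a).elim fun y hy => Fn.lnp (C := C) (P := P a) (by fun_prop) hy
  choose f hf using this
  refine ⟨f, Fn.of_graph (G := fun a y => P a y ∧ BAll y fun z => ¬ P a z)
    (Fn.sig (by fun_prop)) fun a y => ⟨?_, ?_⟩, hf⟩
  · rintro rfl; exact hf a
  · rintro ⟨h1, h2⟩
    rcases lt_trichotomy (f a) y with h' | h' | h'
    · exact absurd (hf a).1 (h2 _ h')
    · exact h'
    · exact absurd h1 ((hf a).2 _ h')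

/-- First projection of a pair code. -/
noncomputable def fstM (p : M) : M := mu (p + 1) fun x => BEx (p + 1) fun y => pair x y = p
/-- Second projection of a pair code. -/
noncomputable def sndM (p : M) : M := mu (p + 1) fun y => BEx (p + 1) fun x => pair x y = p

@[fun_prop] theorem Fn.fstM {f : α → M} (hf : Fn C f) : Fn C fun a => fstM (f a) := by
  unfold MP75f14d.fstM; fun_prop

@[fun_prop] theorem Fn.sndM {f : α → M} (hf : Fn C f) : Fn C fun a => sndM (f a) := by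
  unfold MP75f14d.sndM; fun_prop

@[simp] theorem fstM_pair (a b : M) : fstM (pair a b) = a :=
  mu_eq_of (lt_succ_iff.2 (le_pair_left a b)) ⟨b, lt_succ_iff.2 (le_pair_right a b), rfl⟩
    fun _ hz ⟨_, _, h⟩ => hz.ne (pair_inj h).1

@[simp] theorem sndM_pair (a b : M) : sndM (pair a b) = b :=
  mu_eq_of (lt_succ_iff.2 (le_pair_right a b)) ⟨a, lt_succ_iff.2 (le_pair_left a b), rfl⟩
    fun _ hz ⟨_, _, h⟩ => hz.ne (pair_inj h).2

/-- Division with remainder. -/
theorem exists_div_mod (C : Cls M) [Ind C] (a : M) {b : M} (hb : 0 < b) :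
    ∃ q r, r < b ∧ a = q * b + r := by
  have : ∀ a : M, BEx (a + 1) fun q => BEx b fun r => a = q * b + r := by
    refine Fn.ind (C := C) (by fun_prop) ⟨0, by simp, 0, hb, by simp⟩ ?_
    rintro x ⟨q, hq, r, hr, e⟩
    rcases (lt_iff_succ_le.1 hr).lt_or_eq with h | h
    · exact ⟨q, lt_trans hq (lt_add_one _), r + 1, h, by rw [e, add_assoc]⟩
    · exact ⟨q + 1, add_lt_add_left hq 1, 0, hb, by rw [e, add_assoc, h]; ring⟩
  obtain ⟨q, -, r, hr, e⟩ := this a
  exact ⟨q, r, hr, e⟩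

theorem div_mod_unique {q r q' r' b : M} (hr : r < b) (hr' : r' < b)
    (e : q * b + r = q' * b + r') : q = q' ∧ r = r' := by
  have : q = q' := by
    rcases lt_trichotomy q q' with h | h | h
    · exfalso; zify at *; nlinarith [nn r, nn r', nn b]
    · exact h
    · exfalso; zify at *; nlinarith [nn r, nn r', nn b]
  subst this
  exact ⟨rfl, add_left_cancel e⟩

theorem even_or_odd (C : Cls M) [Ind C] (a : M) : ∃ q, a = 2 * q ∨ a = 2 * q + 1 := by
  obtain ⟨q, r, hr, e⟩ := exists_div_mod C a (b := 2) (by positivity)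
  refine ⟨q, ?_⟩
  rcases eq_zero_or_succ r with rfl | ⟨s, rfl⟩
  · left; rw [e]; ring
  · have : s = 0 := by
      apply le_antisymm _ zero_le
      zify at *; linarith
    right; rw [e, this]; ring

/-- A model with an exponential function that is recursive in some class with induction. -/
class Good (M : Type) [Ar M] where
  exp : M → M
  exp_zero : exp 0 = 1
  exp_succ : ∀ x, exp (x + 1) = 2 * exp x
  base : ∃ C : Cls M, SInd C ∧ Fn C exp

export Good (exp exp_zero exp_succ)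

/-- The exponential function is recursive in the class. -/
class XpIn [Good M] (C : Cls M) : Prop where
  fn : Fn C (exp : M → M)

@[fun_prop] theorem Fn.exp [Good M] [XpIn C] {f : α → M} (hf : Fn C f) :
    Fn C fun a => exp (f a) := XpIn.fn.comp hf

theorem exists_base (M : Type) [Ar M] [Good M] : ∃ C : Cls M, SInd C ∧ XpIn C :=
  let ⟨C, h1, h2⟩ := Good.base (M := M); ⟨C, h1, ⟨h2⟩⟩

theorem XpIn.of_subset [Good M] {C' : Cls M} [XpIn C] (h : C.sets ⊆ C'.sets) : XpIn C' :=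
  ⟨XpIn.fn.mono h⟩

end Pool.Agent.MP75f14d

end

section

/-! Binary (Ackermann) coding of bounded sets. -/

namespace Pool.Agent.MP75f14d

open Classical

variable {M : Type} [Ar M] [Good M]

/-- Bit `i` of `n` is one. -/
def Mem (i n : M) : Prop :=
  BEx (n + 1) fun q => BEx (exp i) fun r => n = (2 * q + 1) * exp i + r

/-- The code of `{i < k | P i}`. -/
noncomputable def sep (k : M) (P : M → Prop) : M :=
  mu (exp k) fun n => BAll k fun i => (Mem i n ↔ P i)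

/-- Restriction of a coded set to `[0, s)`. -/
noncomputable def res (n s : M) : M := sep s fun i => Mem i n

/-- Union of two coded sets. -/
noncomputable def cup (a b : M) : M := sep (a + b) fun i => Mem i a ∨ Mem i b

/-- Bounded quantifier over the elements of a coded set. -/
def AllIn (a : M) (P : M → Prop) : Prop := BAll a fun i => Imp (Mem i a) (P i)

/-- Bounded quantifier over the elements of a coded set. -/
def ExIn (a : M) (P : M → Prop) : Prop := BEx a fun i => Mem i a ∧ P i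

/-- A subset of `M` all of whose initial segments are coded. -/
def Reg (H : Set M) : Prop := ∀ s, ∃ n, ∀ i, Mem i n ↔ i < s ∧ i ∈ H

/-- The code of `H ∩ [0, s)`, for regular `H`. -/
noncomputable def cut (H : Set M) (s : M) : M := sep s fun i => i ∈ H

section Fn
variable {C : Cls M} [XpIn C] {α : Type} [Cd M α]

@[fun_prop] theorem Fn.mem {f g : α → M} (hf : Fn C f) (hg : Fn C g) :
    Fn C fun a => Mem (f a) (g a) := by
  unfold Mem; fun_prop

@[fun_prop] theorem Fn.sep {P : α → M → Prop} {t : α → M} (ht : Fn C t)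
    (h : Fn C fun p : α × M => P p.1 p.2) : Fn C fun a => sep (t a) (P a) := by
  unfold MP75f14d.sep; fun_prop

@[fun_prop] theorem Fn.res {f g : α → M} (hf : Fn C f) (hg : Fn C g) :
    Fn C fun a => res (f a) (g a) := by
  unfold MP75f14d.res; fun_prop

@[fun_prop] theorem Fn.cup {f g : α → M} (hf : Fn C f) (hg : Fn C g) :
    Fn C fun a => cup (f a) (g a) := by
  unfold MP75f14d.cup; fun_prop

@[fun_prop] theorem Fn.allIn {P : α → M → Prop} {t : α → M} (ht : Fn C t)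
    (h : Fn C fun p : α × M => P p.1 p.2) : Fn C fun a => AllIn (t a) (P a) := by
  unfold AllIn; fun_prop

@[fun_prop] theorem Fn.exIn {P : α → M → Prop} {t : α → M} (ht : Fn C t)
    (h : Fn C fun p : α × M => P p.1 p.2) : Fn C fun a => ExIn (t a) (P a) := by
  unfold ExIn; fun_prop

end Fn

theorem exp_pos (a : M) : 0 < exp a := by
  obtain ⟨C, _, _⟩ := exists_base M
  refine Fn.ind (C := C) (P := fun a => 0 < exp a) (by fun_prop) ?_ (fun x ih => ?_) a
  · rw [exp_zero]; exact one_pos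
  · rw [exp_succ]; positivity

theorem exp_add (a b : M) : exp (a + b) = exp a * exp b := by
  obtain ⟨C, _, _⟩ := exists_base M
  refine Fn.ind (C := C) (P := fun b => exp (a + b) = exp a * exp b) (by fun_prop) ?_
    (fun x ih => ?_) b
  · rw [exp_zero, add_zero, mul_one]
  · rw [← add_assoc, exp_succ, exp_succ, ih]; ring

theorem lt_exp (a : M) : a < exp a := by
  obtain ⟨C, _, _⟩ := exists_base M
  refine Fn.ind (C := C) (P := fun a => a < exp a) (by fun_prop) ?_ (fun x ih => ?_) a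
  · rw [exp_zero]; exact one_pos
  · rw [exp_succ]; zify at *; linarith [nn x]

theorem CodeX.exp_mono {a b : M} (h : a ≤ b) : exp a ≤ exp b := by
  obtain ⟨c, rfl⟩ := exists_add_of_le h
  rw [exp_add]
  refine le_mul_of_one_le_right zero_le ?_
  simpa using lt_iff_succ_le.1 (exp_pos c)

theorem CodeX.exp_strict {a b : M} (h : a < b) : exp a < exp b := by
  have h1 := CodeX.exp_mono (lt_iff_succ_le.1 h)
  have h2 := exp_pos a
  rw [exp_succ] at h1
  zify at *; linarith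

theorem exp_lt_exp {a b : M} : exp a < exp b ↔ a < b :=
  ⟨fun h => not_le.1 fun h' => not_le.2 h (CodeX.exp_mono h'), CodeX.exp_strict⟩

theorem exp_le_exp {a b : M} : exp a ≤ exp b ↔ a ≤ b := by
  rw [← not_lt, exp_lt_exp, not_lt]

theorem CodeX.mem_iff {i n : M} : Mem i n ↔ ∃ q r, r < exp i ∧ n = (2 * q + 1) * exp i + r := by
  refine ⟨fun ⟨q, _, r, hr, e⟩ => ⟨q, r, hr, e⟩, fun ⟨q, r, hr, e⟩ => ⟨q, ?_, r, hr, e⟩⟩
  have h := exp_pos i
  rw [e]
  zify at *
  nlinarith [nn q, nn r]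

theorem Mem.exp_le {i n : M} (h : Mem i n) : exp i ≤ n := by
  obtain ⟨q, r, -, rfl⟩ := CodeX.mem_iff.1 h
  zify
  nlinarith [nn q, nn r, nn (exp i)]

theorem Mem.lt {i n : M} (h : Mem i n) : i < n := lt_of_lt_of_le (lt_exp i) h.exp_le

@[simp] theorem not_mem_zero (i : M) : ¬ Mem i 0 := fun h => not_lt_zero i h.lt

namespace CodeX

theorem lt_of_mem {i n k : M} (hn : n < exp k) (h : Mem i n) : i < k :=
  exp_lt_exp.1 (lt_of_le_of_lt h.exp_le hn)

theorem mem_div {i Q r : M} (hr : r < exp i) : Mem i (Q * exp i + r) ↔ ∃ q, Q = 2 * q + 1 := by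
  rw [mem_iff]
  exact ⟨fun ⟨q, _, hr', e⟩ => ⟨q, (div_mod_unique hr hr' e).1⟩,
    fun ⟨q, e⟩ => ⟨q, r, hr, by rw [e]⟩⟩

omit [Good M] in
theorem parity (a b : M) : 2 * a ≠ 2 * b + 1 := by
  intro h
  rcases le_or_gt a b with h' | h' <;> zify at * <;> linarith

theorem mem_add_exp {a j : M} (ha : a < exp j) (i : M) :
    Mem i (a + exp j) ↔ Mem i a ∨ i = j := by
  obtain ⟨C, _, _⟩ := exists_base M
  rcases lt_trichotomy i j with h | rfl | h
  · obtain ⟨d, rfl⟩ := exists_add_of_le (lt_iff_succ_le.1 h)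
    obtain ⟨Q, r, hr, rfl⟩ := exists_div_mod C a (exp_pos i)
    have e : Q * exp i + r + exp (i + 1 + d) = (Q + 2 * exp d) * exp i + r := by
      rw [exp_add, exp_succ]; ring
    rw [e, mem_div hr, mem_div hr, or_iff_left h.ne]
    constructor
    · rintro ⟨q, hq⟩
      obtain ⟨s, rfl | rfl⟩ := even_or_odd C Q
      · exact absurd (by rw [← hq]; ring) (parity (s + exp d) q)
      · exact ⟨s, rfl⟩
    · rintro ⟨q, rfl⟩
      exact ⟨q + exp d, by ring⟩
  · exact iff_of_true (mem_iff.2 ⟨0, a, ha, by ring⟩) (Or.inr rfl)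
  · refine iff_of_false (fun hm => ?_) ?_
    · have h1 : a + exp j < exp (j + 1) := by
        rw [exp_succ]; zify at *; linarith
      exact not_le.2 h (lt_succ_iff.1 (lt_of_mem h1 hm))
    · rintro (hm | rfl)
      · exact lt_asymm h (lt_of_mem ha hm)
      · exact lt_irrefl _ h

theorem split {n j : M} (h : n < exp (j + 1)) : n < exp j ∨ ∃ a, a < exp j ∧ n = a + exp j := by
  rcases lt_or_ge n (exp j) with h' | h'
  · exact Or.inl h'
  · obtain ⟨a, rfl⟩ := exists_add_of_le h'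
    refine Or.inr ⟨a, ?_, add_comm _ _⟩
    rw [exp_succ] at h
    zify at *; linarith

theorem ext_lt (k : M) : BAll (exp k) fun a => BAll (exp k) fun b =>
    Imp (BAll k fun i => (Mem i a ↔ Mem i b)) (a = b) := by
  obtain ⟨C, _, _⟩ := exists_base M
  refine Fn.ind (C := C) (P := fun k => BAll (exp k) fun a => BAll (exp k) fun b =>
    Imp (BAll k fun i => (Mem i a ↔ Mem i b)) (a = b)) (by fun_prop) ?_ (fun k ih => ?_) k
  · intro a ha b hb _
    rw [exp_zero] at ha hb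
    apply le_antisymm <;> zify at * <;> linarith [nn a, nn b]
  · intro a ha b hb h
    have hk := h k (lt_add_one k)
    rcases split ha with ha' | ⟨a', ha', rfl⟩ <;> rcases split hb with hb' | ⟨b', hb', rfl⟩
    · exact ih a ha' b hb' fun i hi => h i (lt_trans hi (lt_add_one k))
    · exact absurd (lt_of_mem ha' (hk.2 ((mem_add_exp hb' k).2 (Or.inr rfl)))) (lt_irrefl k)
    · exact absurd (lt_of_mem hb' (hk.1 ((mem_add_exp ha' k).2 (Or.inr rfl)))) (lt_irrefl k)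
    · rw [ih a' ha' b' hb' fun i hi => ?_]
      have := h i (lt_trans hi (lt_add_one k))
      simpa only [mem_add_exp ha', mem_add_exp hb', or_iff_left hi.ne] using this

theorem exists_code_lt (C : Cls M) [Ind C] [XpIn C] {P : M → Prop} (hP : Fn C P) (k : M) :
    ∃ n, n < exp k ∧ ∀ i, Mem i n ↔ i < k ∧ P i := by
  have : BEx (exp k) fun n => BAll k fun i => (Mem i n ↔ P i) := by
    refine Fn.ind (C := C) (P := fun k => BEx (exp k) fun n => BAll k fun i => (Mem i n ↔ P i))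
      (by fun_prop) ⟨0, exp_pos 0, fun i hi => absurd hi (not_lt_zero i)⟩ ?_ k
    rintro k ⟨n, hn, h⟩
    by_cases hk : P k
    · refine ⟨n + exp k, ?_, fun i hi => ?_⟩
      · rw [exp_succ]; zify at *; linarith
      · beta_reduce
        rw [mem_add_exp hn]
        rcases lt_succ_iff_lt_or_eq.1 hi with hi' | rfl
        · rw [or_iff_left hi'.ne]; exact h i hi'
        · exact iff_of_true (Or.inr rfl) hk
    · refine ⟨n, lt_trans hn (exp_lt_exp.2 (lt_add_one k)), fun i hi => ?_⟩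
      rcases lt_succ_iff_lt_or_eq.1 hi with hi' | rfl
      · exact h i hi'
      · exact iff_of_false (fun hm => lt_irrefl _ (lt_of_mem hn hm)) hk
  obtain ⟨n, hn, h⟩ := this
  exact ⟨n, hn, fun i => ⟨fun hm => ⟨lt_of_mem hn hm, (h i (lt_of_mem hn hm)).1 hm⟩,
    fun hi => (h i hi.1).2 hi.2⟩⟩

end CodeX

theorem code_ext {a b : M} (h : ∀ i, Mem i a ↔ Mem i b) : a = b :=
  CodeX.ext_lt (a + b) a (lt_of_lt_of_le (lt_exp a) (CodeX.exp_mono le_self_add)) b
    (lt_of_lt_of_le (lt_exp b) (CodeX.exp_mono le_add_self)) fun i _ => h i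

theorem lt_exp_iff {n k : M} : n < exp k ↔ ∀ i, Mem i n → i < k := by
  refine ⟨fun hn i hi => CodeX.lt_of_mem hn hi, fun h => ?_⟩
  obtain ⟨C, _, _⟩ := exists_base M
  obtain ⟨m, hm, e⟩ := CodeX.exists_code_lt C (P := fun i => Mem i n) (by fun_prop) k
  rwa [← code_ext (a := m) (b := n) fun i => by
    rw [e]; exact ⟨fun h' => h'.2, fun h' => ⟨h i h', h'⟩⟩]

@[simp] theorem mem_exp {i a : M} : Mem i (exp a) ↔ i = a := by
  simpa using CodeX.mem_add_exp (exp_pos a) i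

/-- Bounded comprehension for recursive predicates. -/
theorem exists_code (C : Cls M) [Ind C] [XpIn C] {P : M → Prop} (hP : Fn C P) (k : M) :
    ∃ n, ∀ i, Mem i n ↔ i < k ∧ P i :=
  let ⟨n, _, h⟩ := CodeX.exists_code_lt C hP k; ⟨n, h⟩

/-- `sep` is correct as soon as a code exists. -/
theorem mem_sep_of_exists {P : M → Prop} {k : M} (h : ∃ n, ∀ i, Mem i n ↔ i < k ∧ P i) (i : M) :
    Mem i (sep k P) ↔ i < k ∧ P i := by
  obtain ⟨n, hn⟩ := h
  have h1 : n < exp k := lt_exp_iff.2 fun i hi => ((hn i).1 hi).1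
  have : sep k P = n := by
    refine mu_eq_of h1 (fun i hi => (hn i).trans (and_iff_right hi)) fun z hz hz' => hz.ne ?_
    refine code_ext fun i => ?_
    rw [hn]
    exact ⟨fun hm => have hi := lt_exp_iff.1 (lt_trans hz h1) i hm; ⟨hi, (hz' i hi).1 hm⟩,
      fun hi => (hz' i hi.1).2 hi.2⟩
  rw [this, hn]

theorem mem_sep (C : Cls M) [Ind C] [XpIn C] {P : M → Prop} (hP : Fn C P) {k i : M} :
    Mem i (sep k P) ↔ i < k ∧ P i := mem_sep_of_exists (exists_code C hP k) i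

theorem sep_lt (C : Cls M) [Ind C] [XpIn C] {P : M → Prop} (hP : Fn C P) (k : M) :
    sep k P < exp k := lt_exp_iff.2 fun _ h => ((mem_sep C hP).1 h).1

@[simp] theorem mem_res {i n s : M} : Mem i (res n s) ↔ i < s ∧ Mem i n := by
  obtain ⟨C, _, _⟩ := exists_base M
  exact mem_sep C (by fun_prop)

@[simp] theorem mem_cup {i a b : M} : Mem i (cup a b) ↔ Mem i a ∨ Mem i b := by
  obtain ⟨C, _, _⟩ := exists_base M
  rw [cup, mem_sep C (by fun_prop)]
  refine ⟨fun h => h.2, fun h => ⟨?_, h⟩⟩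
  rcases h with h | h
  · exact lt_of_lt_of_le h.lt le_self_add
  · exact lt_of_lt_of_le h.lt le_add_self

theorem res_lt (n s : M) : res n s < exp s := lt_exp_iff.2 fun _ h => (mem_res.1 h).1

theorem res_res {n s t : M} (h : s ≤ t) : res (res n t) s = res n s :=
  code_ext fun i => by
    simp only [mem_res]
    exact ⟨fun h' => ⟨h'.1, h'.2.2⟩, fun h' => ⟨h'.1, lt_of_lt_of_le h'.1 h, h'.2⟩⟩

theorem res_of_lt {n s : M} (h : n < exp s) : res n s = n :=
  code_ext fun i => by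
    rw [mem_res]; exact ⟨fun h' => h'.2, fun h' => ⟨lt_exp_iff.1 h i h', h'⟩⟩

@[simp] theorem allIn_iff {a : M} {P : M → Prop} : AllIn a P ↔ ∀ i, Mem i a → P i :=
  ⟨fun h i hi => h i hi.lt hi, fun h i _ hi => h i hi⟩

@[simp] theorem exIn_iff {a : M} {P : M → Prop} : ExIn a P ↔ ∃ i, Mem i a ∧ P i :=
  ⟨fun ⟨i, _, h⟩ => ⟨i, h⟩, fun ⟨i, h⟩ => ⟨i, h.1.lt, h⟩⟩

theorem Reg.mem_cut {H : Set M} (h : Reg H) {i s : M} : Mem i (cut H s) ↔ i < s ∧ i ∈ H :=
  mem_sep_of_exists (h s) i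

theorem Reg.cut_lt {H : Set M} (h : Reg H) (s : M) : cut H s < exp s :=
  lt_exp_iff.2 fun _ hi => (h.mem_cut.1 hi).1

theorem Reg.res_cut {H : Set M} (h : Reg H) {s t : M} (hst : s ≤ t) :
    res (cut H t) s = cut H s :=
  code_ext fun i => by
    simp only [mem_res, h.mem_cut]
    exact ⟨fun h' => ⟨h'.1, h'.2.2⟩, fun h' => ⟨h'.1, lt_of_lt_of_le h'.1 hst, h'.2⟩⟩

theorem reg_of_fn (C : Cls M) [Ind C] [XpIn C] {H : Set M} (h : Fn C fun x : M => x ∈ H) :
    Reg H := fun s => exists_code C h s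

end Pool.Agent.MP75f14d

end

section

/-! The class of Sigma2 sets over a class. -/

namespace Pool.Agent.MP75f14d

variable {M : Type} [Ar M]

namespace JumpX

/-- `W` is the projection of a co-r.e. relation. -/
def S2 (C : Cls M) (W : Set M) : Prop :=
  ∃ P : M → M → Prop, Sig C (fun p : M × M => P p.1 p.2) ∧ ∀ x, x ∈ W ↔ ∃ y, ¬ P x y

variable {C : Cls M}

theorem S2.of2 {W : Set M} {P : M → M → M → Prop}
    (h : Sig C fun p : M × M × M => P p.1 p.2.1 p.2.2) (e : ∀ x, x ∈ W ↔ ∃ y z, ¬ P x y z) :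
    S2 C W := by
  refine ⟨fun x u => P x (fstM u) (sndM u), ?_, fun x => (e x).trans ⟨?_, ?_⟩⟩
  · exact h.comp (f := fun p : M × M => (p.1, fstM p.2, sndM p.2)) (by fun_prop)
  · rintro ⟨y, z, hyz⟩
    exact ⟨pair y z, by simpa using hyz⟩
  · rintro ⟨u, hu⟩
    exact ⟨_, _, hu⟩

theorem S2.pre {W V : Set M} (h : S2 C W) {D : M → Prop} (hD : Fn C D) {f : M → M} (hf : Fn C f)
    (e : ∀ x, x ∈ V ↔ D x ∧ f x ∈ W) : S2 C V := by
  obtain ⟨P, hP, eP⟩ := h
  refine ⟨fun x y => D x → P (f x) y, ?_, fun x => ?_⟩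
  · exact Sig.imp (by fun_prop) (hP.comp (f := fun p : M × M => (f p.1, p.2)) (by fun_prop))
  · rw [e, eP]
    constructor
    · rintro ⟨h1, y, hy⟩
      exact ⟨y, fun h2 => hy (h2 h1)⟩
    · rintro ⟨y, hy⟩
      rw [Classical.not_imp] at hy
      exact ⟨hy.1, y, hy.2⟩

theorem S2.of_mem (h : NF C) {W : Set M} (hW : W ∈ C.sets) : S2 C W := by
  obtain ⟨R, hR, e⟩ := h W hW
  exact ⟨fun x y => ¬ R x y, hR.sig_not, fun x => by simp [e]⟩

theorem S2.compl {W : Set M} (hW : W ∈ C.sets) : S2 C Wᶜ :=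
  ⟨fun x _ => x ∈ W, (sig_iff_mem.2 hW).cyl, fun x => by simp⟩

theorem S2.inter {W V : Set M} (h1 : S2 C W) (h2 : S2 C V) : S2 C (W ∩ V) := by
  obtain ⟨P, hP, eP⟩ := h1
  obtain ⟨Q, hQ, eQ⟩ := h2
  refine S2.of2 (P := fun x y z => P x y ∨ Q x z) (Sig.or ?_ ?_) fun x => ?_
  · exact hP.comp (f := fun p : M × M × M => (p.1, p.2.1)) (by fun_prop)
  · exact hQ.comp (f := fun p : M × M × M => (p.1, p.2.2)) (by fun_prop)
  · simp only [Set.mem_inter_iff, eP, eQ, not_or, exists_and_left, exists_and_right]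

theorem S2.union {W V : Set M} (h1 : S2 C W) (h2 : S2 C V) : S2 C (W ∪ V) := by
  obtain ⟨P, hP, eP⟩ := h1
  obtain ⟨Q, hQ, eQ⟩ := h2
  refine ⟨fun x y => P x y ∧ Q x y, hP.and hQ, fun x => ?_⟩
  simp only [Set.mem_union, eP, eQ, not_and_or, exists_or]

theorem S2.ex {W : Set M} (h : S2 C W) : S2 C {x | ∃ y, pair x y ∈ W} := by
  obtain ⟨P, hP, eP⟩ := h
  refine S2.of2 (P := fun x y z => P (pair x y) z) ?_ fun x => ?_
  · exact hP.comp (f := fun p : M × M × M => (pair p.1 p.2.1, p.2.2)) (by fun_prop)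
  · simp only [Set.mem_setOf_eq, eP]

theorem S2.ball [Coll2 C] {W : Set M} (h : S2 C W) :
    S2 C {p | ∃ x b, p = pair x b ∧ ∀ y < b, pair x y ∈ W} := by
  obtain ⟨P, hP, eP⟩ := h
  refine ⟨fun p c => p = pair (fstM p) (sndM p) → ∃ y < sndM p, ∀ z < c, P (pair (fstM p) y) z,
    ?_, fun p => ⟨?_, ?_⟩⟩
  · refine Sig.imp (by fun_prop) (Sig.bex (by fun_prop) (Sig.ball (by fun_prop) ?_))
    exact hP.comp (f := fun p : ((M × M) × M) × M => (pair (fstM p.1.1.1) p.1.2, p.2))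
      (by fun_prop)
  · rintro ⟨x, b, rfl, hb⟩
    obtain ⟨c, hc⟩ := Sig.coll2 (C := C) (P := fun y z => P (pair x y) z)
      (hP.comp (f := fun p : M × M => (pair x p.1, p.2)) (by fun_prop)) (a := b)
      fun y hy => (eP _).1 (hb y hy)
    refine ⟨c, fun hh => ?_⟩
    simp only [fstM_pair, sndM_pair, forall_const] at hh
    obtain ⟨y, hy, hz⟩ := hh
    obtain ⟨z, hzc, hz'⟩ := hc y hy
    exact hz' (hz z hzc)
  · rintro ⟨c, hc⟩
    rw [Classical.not_imp] at hc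
    refine ⟨_, _, hc.1, fun y hy => (eP _).2 ?_⟩
    by_contra hn
    exact hc.2 ⟨y, hy, fun z _ => by_contra fun hz => hn ⟨z, hz⟩⟩

theorem S2.cyl {W : Set M} (h : S2 C W) : S2 C {p | ∃ x y, p = pair x y ∧ x ∈ W} :=
  h.pre (D := fun p => p = pair (fstM p) (sndM p)) (f := fun p => fstM p) (by fun_prop)
    (by fun_prop) fun p =>
      ⟨by rintro ⟨x, y, rfl, hx⟩; simpa using hx, fun ⟨h1, h2⟩ => ⟨_, _, h1, h2⟩⟩

theorem S2.swap {W : Set M} (h : S2 C W) : S2 C {p | ∃ x y, p = pair y x ∧ pair x y ∈ W} :=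
  h.pre (D := fun p => p = pair (fstM p) (sndM p)) (f := fun p => pair (sndM p) (fstM p))
    (by fun_prop) (by fun_prop) fun p =>
      ⟨by rintro ⟨x, y, rfl, hx⟩; simpa using hx, fun ⟨h1, h2⟩ => ⟨_, _, h1, h2⟩⟩

theorem S2.swap23 {W : Set M} (h : S2 C W) :
    S2 C {p | ∃ x y z, p = pair (pair x z) y ∧ pair (pair x y) z ∈ W} :=
  h.pre (D := fun p => p = pair (pair (fstM (fstM p)) (sndM (fstM p))) (sndM p))
    (f := fun p => pair (pair (fstM (fstM p)) (sndM p)) (sndM (fstM p)))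
    (by fun_prop) (by fun_prop) fun p =>
      ⟨by rintro ⟨x, y, z, rfl, hx⟩; simpa using hx, fun ⟨h1, h2⟩ => ⟨_, _, _, h1, h2⟩⟩

theorem S2.assoc {W : Set M} (h : S2 C W) :
    S2 C {p | ∃ x y z, p = pair (pair x y) z ∧ pair x (pair y z) ∈ W} :=
  h.pre (D := fun p => p = pair (pair (fstM (fstM p)) (sndM (fstM p))) (sndM p))
    (f := fun p => pair (fstM (fstM p)) (pair (sndM (fstM p)) (sndM p)))
    (by fun_prop) (by fun_prop) fun p =>
      ⟨by rintro ⟨x, y, z, rfl, hx⟩; simpa using hx, fun ⟨h1, h2⟩ => ⟨_, _, _, h1, h2⟩⟩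

/-- The class of Sigma2 sets. -/
def cls (C : Cls M) [Coll2 C] (h : NF C) : Cls M where
  sets := {W | S2 C W}
  inter := S2.inter
  union := S2.union
  ex := S2.ex
  ball := S2.ball
  cyl := S2.cyl
  swap := S2.swap
  swap23 := S2.swap23
  assoc := S2.assoc
  univ := S2.of_mem h C.univ
  diag := S2.of_mem h C.diag
  sing c := S2.of_mem h (C.sing c)
  add := S2.of_mem h C.add
  mul := S2.of_mem h C.mul
  lt := S2.of_mem h C.lt

theorem ind [SInd C] [Coll2 C] {W : Set M} (h1 : S2 C W) (h2 : S2 C Wᶜ) (h0 : 0 ∈ W)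
    (hs : ∀ x ∈ W, x + 1 ∈ W) (a : M) : a ∈ W := by
  obtain ⟨P, hP, eP⟩ := h1
  obtain ⟨Q, hQ, eQ⟩ := h2
  obtain ⟨c, hc⟩ := Sig.coll2 (C := C) (P := fun x y => P x y ∧ Q x y) (hP.and hQ) (a := a + 1)
    fun x _ => by
      by_cases hx : x ∈ W
      · obtain ⟨y, hy⟩ := (eP x).1 hx
        exact ⟨y, fun h => hy h.1⟩
      · obtain ⟨y, hy⟩ := (eQ x).1 hx
        exact ⟨y, fun h => hy h.2⟩
  have key : ∀ x ≤ a, (x ∈ W ↔ ∀ y < c, Q x y) := fun x hx => by
    constructor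
    · intro hW y _
      by_contra hy
      exact (eQ x).2 ⟨y, hy⟩ hW
    · intro hq
      obtain ⟨y, hy, hy'⟩ := hc x (lt_succ_iff.2 hx)
      exact (eP x).2 ⟨y, fun hp => hy' ⟨hp, hq y hy⟩⟩
  refine (key a le_rfl).2 (Sig.ind_le (C := C) (P := fun x => ∀ y < c, Q x y)
    (Sig.ball (by fun_prop) hQ) a ((key 0 zero_le).1 h0) (fun x hx ih => ?_) a le_rfl)
  exact (key _ (lt_iff_succ_le.1 hx)).1 (hs x ((key x hx.le).2 ih))

theorem coll [Coll2 C] {W : Set M} (h : S2 C W) (a : M) (ha : ∀ x < a, ∃ y, pair x y ∈ W) :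
    ∃ b, ∀ x < a, ∃ y < b, pair x y ∈ W := by
  obtain ⟨P, hP, eP⟩ := h
  obtain ⟨b, hb⟩ := Sig.coll2 (C := C) (P := fun x u => P (pair x (fstM u)) (sndM u))
    (hP.comp (f := fun p : M × M => (pair p.1 (fstM p.2), sndM p.2)) (by fun_prop)) (a := a)
    fun x hx => by
      obtain ⟨y, hy⟩ := ha x hx
      obtain ⟨z, hz⟩ := (eP _).1 hy
      exact ⟨pair y z, by simpa using hz⟩
  refine ⟨b + 1, fun x hx => ?_⟩
  obtain ⟨u, hu, hu'⟩ := hb x hx
  exact ⟨fstM u, lt_succ_iff.2 ((mu_le _ _).trans (lt_iff_succ_le.1 hu)), (eP _).2 ⟨_, hu'⟩⟩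

theorem countable (h : C.sets.Countable) : {W | S2 C W}.Countable := by
  refine (h.image fun V => {x | ∃ y, pair x y ∉ V}).mono ?_
  rintro W ⟨P, hP, eP⟩
  obtain ⟨V, hV, e⟩ := sig_pair_set hP
  exact ⟨V, hV, Set.ext fun x => by simp only [Set.mem_setOf_eq, e, eP]⟩

end JumpX

/-- Over a class `C` with Sigma1 induction, Sigma2 collection and normal forms, the Sigma2 sets
form a class `J` with recursive induction and collection in which all r.e. sets of `C` are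
recursive. -/
theorem exists_jump (C : Cls M) [SInd C] [Coll2 C] (h : NF C) :
    ∃ J : Cls M, Ind J ∧ Coll J ∧ C.sets ⊆ J.sets ∧ (∀ W ∈ C.sets, Wᶜ ∈ J.sets) ∧
      (C.sets.Countable → J.sets.Countable) :=
  ⟨JumpX.cls C h, ⟨fun _ h1 h2 => JumpX.ind (C := C) h1 h2⟩, ⟨fun _ h1 => JumpX.coll (C := C) h1⟩,
    fun _ hW => JumpX.S2.of_mem h hW, fun _ hW => JumpX.S2.compl hW, JumpX.countable⟩

end Pool.Agent.MP75f14d

end

section

/-! Adjoining a regular set to a class. -/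

namespace Pool.Agent.MP75f14d

variable {M : Type} [Ar M] [Good M]

/-- Strong collection for Sigma1 relations in `H`. -/
def SC (C : Cls M) (H : Set M) : Prop :=
  ∀ R : M → M → M → Prop, Fn C (fun p : M × M × M => R p.1 p.2.1 p.2.2) →
    ∀ a, ∃ b, ∀ u < a, (∃ s, R u s (cut H s)) → ∃ s < b, R u s (cut H s)

/-- Collection for Pi1 relations in `H`. -/
def PC (C : Cls M) (H : Set M) : Prop :=
  ∀ R : M → M → M → Prop, Fn C (fun p : M × M × M => R p.1 p.2.1 p.2.2) →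
    ∀ a, (∀ x < a, ∃ y, ¬ ∃ s, R (pair x y) s (cut H s)) →
      ∃ b, ∀ x < a, ∃ y < b, ¬ ∃ s, R (pair x y) s (cut H s)

namespace ExtX

/-- The sets that are r.e. in `H` over the class `C`. -/
def Rel (C : Cls M) (H : Set M) : Set (Set M) :=
  {W | ∃ R : M → M → M → Prop, Fn C (fun p : M × M × M => R p.1 p.2.1 p.2.2) ∧
    ∀ u, u ∈ W ↔ ∃ s, R u s (cut H s)}

variable {C : Cls M} {H : Set M}

theorem mono [XpIn C] (hH : Reg H) {W : Set M} (h : W ∈ Rel C H) :
    ∃ R : M → M → M → Prop, Fn C (fun p : M × M × M => R p.1 p.2.1 p.2.2) ∧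
      (∀ u, u ∈ W ↔ ∃ s, R u s (cut H s)) ∧
      ∀ u s t, s ≤ t → R u s (cut H s) → R u t (cut H t) := by
  obtain ⟨R, hR, e⟩ := h
  refine ⟨fun u t τ => BEx t fun s => R u s (res τ s), by fun_prop, fun u => ?_, ?_⟩
  · rw [e]
    constructor
    · rintro ⟨s, hs⟩
      exact ⟨s + 1, s, lt_add_one s, by simpa only [hH.res_cut le_self_add] using hs⟩
    · rintro ⟨t, s, hs, h⟩
      exact ⟨s, by rwa [hH.res_cut hs.le] at h⟩
  · rintro u s t hst ⟨r, hr, h⟩
    refine ⟨r, lt_of_lt_of_le hr hst, ?_⟩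
    rw [hH.res_cut hr.le] at h
    simpa only [hH.res_cut (hr.le.trans hst)] using h

theorem base (hU : Univ C) {W : Set M} (h : W ∈ C.sets) : W ∈ Rel C H := by
  obtain ⟨R, hR, e⟩ := hU.nf W h
  exact ⟨fun u s _ => R u s, by fun_prop, e⟩

theorem pre {W V : Set M} (h : W ∈ Rel C H) {D : M → Prop} {f : M → M} (hD : Fn C D)
    (hf : Fn C f) (e : ∀ p, p ∈ V ↔ D p ∧ f p ∈ W) : V ∈ Rel C H := by
  obtain ⟨R, hR, e'⟩ := h
  refine ⟨fun u s τ => D u ∧ R (f u) s τ, by fun_prop, fun u => ?_⟩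
  rw [e, e', exists_and_left]

/-- The class of sets that are r.e. in `H` over `C`. -/
def cls (C : Cls M) [XpIn C] (hU : Univ C) {H : Set M} (hH : Reg H) (h1 : SC C H) : Cls M where
  sets := Rel C H
  inter := by
    intro W V hW hV
    obtain ⟨R, hR, e, m⟩ := mono hH hW
    obtain ⟨R', hR', e', m'⟩ := mono hH hV
    refine ⟨fun u s τ => R u s τ ∧ R' u s τ, by fun_prop, fun u => ?_⟩
    rw [Set.mem_inter_iff, e, e']
    constructor
    · rintro ⟨⟨s, hs⟩, t, ht⟩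
      exact ⟨s + t, m _ _ _ le_self_add hs, m' _ _ _ le_add_self ht⟩
    · rintro ⟨s, hs, hs'⟩
      exact ⟨⟨s, hs⟩, s, hs'⟩
  union := by
    rintro W V ⟨R, hR, e⟩ ⟨R', hR', e'⟩
    refine ⟨fun u s τ => R u s τ ∨ R' u s τ, by fun_prop, fun u => ?_⟩
    rw [Set.mem_union, e, e', exists_or]
  ex := by
    intro W hW
    obtain ⟨R, hR, e, m⟩ := mono hH hW
    refine ⟨fun u s τ => BEx s fun y => R (pair u y) s τ, by fun_prop, fun u => ?_⟩
    simp only [Set.mem_setOf_eq, e]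
    constructor
    · rintro ⟨y, s, hs⟩
      exact ⟨y + 1 + s, y, lt_of_lt_of_le (lt_add_one y) le_self_add, m _ _ _ le_add_self hs⟩
    · rintro ⟨s, y, -, hs⟩
      exact ⟨y, s, hs⟩
  ball := by
    intro W hW
    obtain ⟨R, hR, e, m⟩ := mono hH hW
    refine ⟨fun u s τ => u = pair (fstM u) (sndM u) ∧
      BAll (sndM u) fun y => R (pair (fstM u) y) s τ, by fun_prop, fun u => ?_⟩
    simp only [Set.mem_setOf_eq, e]
    constructor
    · rintro ⟨x, b, rfl, h⟩
      obtain ⟨t, ht⟩ := h1 (fun y s τ => R (pair x y) s τ) (by fun_prop) b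
      refine ⟨t, by simp, fun y hy => ?_⟩
      rw [sndM_pair] at hy
      obtain ⟨s, hs, h'⟩ := ht y hy (h y hy)
      rw [fstM_pair]
      exact m _ _ _ hs.le h'
    · rintro ⟨s, hu, h⟩
      exact ⟨_, _, hu, fun y hy => ⟨s, h y hy⟩⟩
  cyl := fun hW => pre hW (D := fun u => u = pair (fstM u) (sndM u)) (f := fun u => fstM u)
    (by fun_prop) (by fun_prop) fun p =>
      ⟨by rintro ⟨x, y, rfl, h⟩; simpa using h, fun h => ⟨_, _, h.1, h.2⟩⟩
  swap := fun hW => pre hW (D := fun u => u = pair (fstM u) (sndM u))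
    (f := fun u => pair (sndM u) (fstM u)) (by fun_prop) (by fun_prop) fun p =>
      ⟨by rintro ⟨x, y, rfl, h⟩; simpa using h, fun h => ⟨_, _, h.1, h.2⟩⟩
  swap23 := fun hW => pre hW
    (D := fun u => u = pair (pair (fstM (fstM u)) (sndM (fstM u))) (sndM u))
    (f := fun u => pair (pair (fstM (fstM u)) (sndM u)) (sndM (fstM u))) (by fun_prop)
    (by fun_prop) fun p =>
      ⟨by rintro ⟨x, y, z, rfl, h⟩; simpa using h, fun h => ⟨_, _, _, h.1, h.2⟩⟩
  assoc := fun hW => pre hW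
    (D := fun u => u = pair (pair (fstM (fstM u)) (sndM (fstM u))) (sndM u))
    (f := fun u => pair (fstM (fstM u)) (pair (sndM (fstM u)) (sndM u))) (by fun_prop)
    (by fun_prop) fun p =>
      ⟨by rintro ⟨x, y, z, rfl, h⟩; simpa using h, fun h => ⟨_, _, _, h.1, h.2⟩⟩
  univ := base hU C.univ
  diag := base hU C.diag
  sing := fun c => base hU (C.sing c)
  add := base hU C.add
  mul := base hU C.mul
  lt := base hU C.lt

end ExtX

theorem exists_ext (C : Cls M) [SInd C] [XpIn C] (hU : Univ C) {H : Set M} (hH : Reg H)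
    (h1 : SC C H) (h2 : PC C H) :
    ∃ E : Cls M, C.sets ⊆ E.sets ∧ SInd E ∧ Coll2 E ∧ Univ E ∧ Fn E fun x : M => x ∈ H := by
  have sub : C.sets ⊆ (ExtX.cls C hU hH h1).sets := fun W hW => ExtX.base hU hW
  have hHE : Fn (ExtX.cls C hU hH h1) fun x : M => x ∈ H := by
    refine fn_mem_iff.2 ⟨⟨fun u s τ => u < s ∧ Mem u τ, by fun_prop, fun u => ?_⟩,
      ⟨fun u s τ => u < s ∧ ¬ Mem u τ, by fun_prop, fun u => ?_⟩⟩
    · simp only [hH.mem_cut]
      exact ⟨fun h => ⟨u + 1, lt_add_one u, lt_add_one u, h⟩, fun ⟨s, _, _, h⟩ => h⟩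
    · simp only [hH.mem_cut, Set.mem_compl_iff]
      exact ⟨fun h => ⟨u + 1, lt_add_one u, fun h' => h h'.2⟩,
        fun ⟨s, hs, h⟩ h' => h ⟨hs, h'⟩⟩
  refine ⟨ExtX.cls C hU hH h1, sub, ⟨?_⟩, ⟨?_⟩, ?_, hHE⟩
  · rintro W ⟨R, hR, e⟩ h0 hs x
    obtain ⟨b, hb⟩ := h1 R hR (x + 1)
    have key : ∀ u ≤ x, (BEx b fun s => R u s (res (cut H b) s)) ↔ u ∈ W := by
      intro u hu
      rw [e]
      constructor
      · rintro ⟨s, hs, h⟩
        exact ⟨s, by rwa [hH.res_cut hs.le] at h⟩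
      · intro h
        obtain ⟨s, hs, h'⟩ := hb u (lt_succ_iff.2 hu) h
        exact ⟨s, hs, by simpa only [hH.res_cut hs.le] using h'⟩
    refine (key x le_rfl).1 (Fn.ind_le (C := C)
      (P := fun u => BEx b fun s => R u s (res (cut H b) s)) (by fun_prop) x
      ((key 0 zero_le).2 h0) (fun u hu h => ?_) x le_rfl)
    exact (key _ (lt_iff_succ_le.1 hu)).2 (hs u ((key u hu.le).1 h))
  · rintro W ⟨R, hR, e⟩ a ha
    simp only [e] at ha ⊢
    exact h2 R hR a ha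
  · obtain ⟨U, hU', h⟩ := id hU
    have : XpIn (ExtX.cls C hU hH h1) := XpIn.of_subset sub
    have hc : Fn (ExtX.cls C hU hH h1) fun s : M => cut H s :=
      Fn.sep (P := fun (_ : M) i => i ∈ H) Fn.id' (hHE.comp Fn.snd0)
    have hUE := hU'.mono sub
    refine ⟨fun e x y => U e (pair x (pair (fstM y) (cut H (fstM y)))) (sndM y), by fun_prop, ?_⟩
    rintro W ⟨R, hR, e⟩
    obtain ⟨k, hk⟩ := h _ hR.sig
    have key : ∀ x s τ : M, R x s τ ↔ ∃ z, U k (pair x (pair s τ)) z := by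
      intro x s τ
      rw [← hk]
      simp
    refine ⟨k, fun x => ?_⟩
    rw [e]
    constructor
    · rintro ⟨s, hs⟩
      obtain ⟨z, hz⟩ := (key _ _ _).1 hs
      exact ⟨pair s z, by simpa using hz⟩
    · rintro ⟨y, hy⟩
      exact ⟨fstM y, (key _ _ _).2 ⟨_, hy⟩⟩

end Pool.Agent.MP75f14d

end

section

/-! A subclass with a universal r.e. set. -/

namespace Pool.Agent.MP75f14d

variable {M : Type} [Ar M] [Good M]

namespace EvalX

/-- One derivation step: `x` enters the set with code `e`, the premises being in `τ`. -/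
def Just (B : M → M → Prop) (τ e x : M) : Prop :=
  (fstM e = 0 ∧ B (sndM e) x) ∨
  (fstM e = 1 ∧ Mem (pair (fstM (sndM e)) x) τ ∧ Mem (pair (sndM (sndM e)) x) τ) ∨
  (fstM e = 2 ∧ (Mem (pair (fstM (sndM e)) x) τ ∨ Mem (pair (sndM (sndM e)) x) τ)) ∨
  (fstM e = 3 ∧ BEx τ fun y => B (fstM (sndM e)) (pair x y) ∧ Mem (pair (sndM (sndM e)) y) τ) ∨
  (fstM e = 4 ∧ x = pair (fstM x) (sndM x) ∧
    BAll (sndM x) fun y => Mem (pair (sndM e) (pair (fstM x) y)) τ)

/-- All elements of `τ` are justified inside `τ`. -/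
def Jd (B : M → M → Prop) (τ : M) : Prop := AllIn τ fun w => Just B τ (fstM w) (sndM w)

def U (B : M → M → Prop) (e x τ : M) : Prop := Jd B τ ∧ Mem (pair e x) τ

def W (B : M → M → Prop) (e : M) : Set M := {x | ∃ τ, U B e x τ}

variable {B : M → M → Prop}

theorem fn_just {E : Cls M} [XpIn E] (hB : Fn E fun p : M × M => B p.1 p.2) :
    Fn E fun p : M × M × M => Just B p.1 p.2.1 p.2.2 := by
  unfold Just; fun_prop

theorem fn_jd {E : Cls M} [XpIn E] (hB : Fn E fun p : M × M => B p.1 p.2) :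
    Fn E fun τ : M => Jd B τ := by
  have h := fn_just hB
  unfold Jd
  exact Fn.allIn Fn.id' (h.comp (g := fun p : M × M => (p.1, fstM p.2, sndM p.2)) (by fun_prop))

theorem fn_U {E : Cls M} [XpIn E] (hB : Fn E fun p : M × M => B p.1 p.2) :
    Fn E fun p : M × M × M => U B p.1 p.2.1 p.2.2 := by
  have h := fn_jd hB
  unfold U
  exact Fn.and (h.comp (by fun_prop)) (by fun_prop)

theorem Just.mono {τ τ' e x : M} (h : Just B τ e x) (hs : ∀ i, Mem i τ → Mem i τ') :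
    Just B τ' e x := by
  rcases h with h | ⟨h, h1, h2⟩ | ⟨h, h1⟩ | ⟨h, y, -, h1, h2⟩ | ⟨h, h1, h2⟩
  · exact Or.inl h
  · exact Or.inr (Or.inl ⟨h, hs _ h1, hs _ h2⟩)
  · exact Or.inr (Or.inr (Or.inl ⟨h, h1.imp (hs _) (hs _)⟩))
  · exact Or.inr (Or.inr (Or.inr (Or.inl
      ⟨h, y, lt_of_le_of_lt (le_pair_right _ _) (hs _ h2).lt, h1, hs _ h2⟩)))
  · exact Or.inr (Or.inr (Or.inr (Or.inr ⟨h, h1, fun y hy => hs _ (h2 y hy)⟩)))

theorem jd_iff {τ : M} : Jd B τ ↔ ∀ w, Mem w τ → Just B τ (fstM w) (sndM w) := allIn_iff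

theorem jd_zero : Jd B 0 := jd_iff.2 fun w h => absurd h (not_mem_zero w)

theorem Jd.cup {σ τ : M} (h1 : Jd B σ) (h2 : Jd B τ) : Jd B (cup σ τ) := by
  refine jd_iff.2 fun w hw => ?_
  rcases mem_cup.1 hw with h | h
  · exact (jd_iff.1 h1 w h).mono fun i hi => mem_cup.2 (Or.inl hi)
  · exact (jd_iff.1 h2 w h).mono fun i hi => mem_cup.2 (Or.inr hi)

theorem mem_W {e x : M} : x ∈ W B e ↔ ∃ τ, Jd B τ ∧ Just B τ e x := by
  constructor
  · rintro ⟨τ, h1, h2⟩
    exact ⟨τ, h1, by simpa using jd_iff.1 h1 _ h2⟩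
  · rintro ⟨τ, h1, h2⟩
    refine ⟨cup τ (exp (pair e x)), jd_iff.2 fun w hw => ?_, by simp⟩
    rcases mem_cup.1 hw with h | h
    · exact (jd_iff.1 h1 w h).mono fun i hi => mem_cup.2 (Or.inl hi)
    · rw [mem_exp.1 h, fstM_pair, sndM_pair]
      exact h2.mono fun i hi => mem_cup.2 (Or.inl hi)

theorem W_atom (c x : M) : x ∈ W B (pair 0 c) ↔ B c x := by
  rw [mem_W]
  have : ∀ τ, Just B τ (pair 0 c) x ↔ B c x := fun τ => by simp [Just]
  simp only [this]
  exact ⟨fun ⟨_, _, h⟩ => h, fun h => ⟨0, jd_zero, h⟩⟩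

theorem W_inter (a b x : M) : x ∈ W B (pair 1 (pair a b)) ↔ x ∈ W B a ∧ x ∈ W B b := by
  rw [mem_W]
  have : ∀ τ, Just B τ (pair 1 (pair a b)) x ↔ Mem (pair a x) τ ∧ Mem (pair b x) τ :=
    fun τ => by simp [Just]
  simp only [this]
  constructor
  · rintro ⟨τ, h, h1, h2⟩
    exact ⟨⟨τ, h, h1⟩, τ, h, h2⟩
  · rintro ⟨⟨σ, h, h1⟩, τ, h', h2⟩
    exact ⟨cup σ τ, h.cup h', mem_cup.2 (Or.inl h1), mem_cup.2 (Or.inr h2)⟩

theorem W_union (a b x : M) : x ∈ W B (pair 2 (pair a b)) ↔ x ∈ W B a ∨ x ∈ W B b := by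
  rw [mem_W]
  have : ∀ τ, Just B τ (pair 2 (pair a b)) x ↔ Mem (pair a x) τ ∨ Mem (pair b x) τ :=
    fun τ => by simp [Just]
  simp only [this]
  constructor
  · rintro ⟨τ, h, h1 | h1⟩
    · exact Or.inl ⟨τ, h, h1⟩
    · exact Or.inr ⟨τ, h, h1⟩
  · rintro (⟨τ, h, h1⟩ | ⟨τ, h, h1⟩)
    · exact ⟨τ, h, Or.inl h1⟩
    · exact ⟨τ, h, Or.inr h1⟩

theorem W_img (c a x : M) :
    x ∈ W B (pair 3 (pair c a)) ↔ ∃ y, B c (pair x y) ∧ y ∈ W B a := by
  rw [mem_W]
  have : ∀ τ, Just B τ (pair 3 (pair c a)) x ↔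
      BEx τ fun y => B c (pair x y) ∧ Mem (pair a y) τ := fun τ => by simp [Just]
  simp only [this]
  constructor
  · rintro ⟨τ, h, y, -, h1, h2⟩
    exact ⟨y, h1, τ, h, h2⟩
  · rintro ⟨y, h1, τ, h, h2⟩
    exact ⟨τ, h, y, lt_of_le_of_lt (le_pair_right _ _) h2.lt, h1, h2⟩

theorem W_ball (C : Cls M) [SInd C] [XpIn C] (hB : Fn C fun p : M × M => B p.1 p.2) (a p : M) :
    p ∈ W B (pair 4 a) ↔ ∃ x b, p = pair x b ∧ ∀ y < b, pair x y ∈ W B a := by
  rw [mem_W]
  have : ∀ τ, Just B τ (pair 4 a) p ↔ p = pair (fstM p) (sndM p) ∧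
      BAll (sndM p) fun y => Mem (pair a (pair (fstM p) y)) τ := fun τ => by simp [Just]
  simp only [this]
  constructor
  · rintro ⟨τ, h, h1, h2⟩
    exact ⟨_, _, h1, fun y hy => ⟨τ, h, h2 y hy⟩⟩
  · rintro ⟨x, b, rfl, h⟩
    have hJ := fn_jd hB
    obtain ⟨t, ht⟩ := Sig.coll (C := C) (P := fun y τ => U B a (pair x y) τ)
      (Fn.sig ((fn_U hB).comp (g := fun q : M × M => (a, pair x q.1, q.2)) (by fun_prop))) h
    have hP : Fn C fun w : M => BEx t fun σ => Jd B σ ∧ Mem w σ :=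
      Fn.bex (Fn.const t) (Fn.and (hJ.comp Fn.snd0) (by fun_prop))
    obtain ⟨τ, hτ⟩ := exists_code C hP t
    have hs : ∀ σ < t, Jd B σ → ∀ i, Mem i σ → Mem i τ := fun σ h1 h2 i hi =>
      (hτ i).2 ⟨hi.lt.trans h1, σ, h1, h2, hi⟩
    refine ⟨τ, jd_iff.2 fun w hw => ?_, by simp, fun y hy => ?_⟩
    · obtain ⟨-, σ, h1, h2, h3⟩ := (hτ w).1 hw
      exact (jd_iff.1 h2 w h3).mono (hs σ h1 h2)
    · rw [sndM_pair] at hy
      obtain ⟨σ, h1, h2, h3⟩ := ht y hy
      rw [fstM_pair]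
      exact hs σ h1 h2 _ h3

/-- Join of finitely many relations. -/
def Jn (R : ℕ → M → M → Prop) (k : ℕ) (c x : M) : Prop :=
  ∃ i < k, fstM c = (i : M) ∧ R i (sndM c) x

omit [Good M] in
theorem fn_jn {E : Cls M} {R : ℕ → M → M → Prop} {k : ℕ}
    (h : ∀ i < k, Fn E fun p : M × M => R i p.1 p.2) : Fn E fun p : M × M => Jn R k p.1 p.2 := by
  induction k with
  | zero => exact (Fn.const False).congr_iff fun p => by simp [Jn]
  | succ k ih =>
    have h1 := ih fun i hi => h i (by omega)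
    have h2 := h k (by omega)
    have h3 : Fn E fun p : M × M => fstM p.1 = (k : M) ∧ R k (sndM p.1) p.2 :=
      Fn.and (by fun_prop) (h2.comp (g := fun p : M × M => (sndM p.1, p.2)) (by fun_prop))
    refine (h1.or h3).congr_iff fun p => ?_
    constructor
    · rintro ⟨i, hi, h4⟩
      rcases Nat.lt_succ_iff_lt_or_eq.1 hi with hi | hi
      · exact Or.inl ⟨i, hi, h4⟩
      · exact Or.inr (hi ▸ h4)
    · rintro (⟨i, hi, h4⟩ | h4)
      · exact ⟨i, by omega, h4⟩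
      · exact ⟨k, by omega, h4⟩

omit [Good M] in
theorem jn_pair {R : ℕ → M → M → Prop} {k i : ℕ} (hi : i < k) (c x : M) :
    Jn R k (pair (i : M) c) x ↔ R i c x := by
  simp only [Jn, fstM_pair, sndM_pair, Nat.cast_inj]
  exact ⟨fun ⟨_, _, h1, h2⟩ => h1 ▸ h2, fun h => ⟨i, hi, rfl, h⟩⟩

/-- The atoms. -/
def At (X : ℕ → Set M) : ℕ → M → M → Prop
  | 0 => fun _ _ => True
  | 1 => fun _ p => p = pair (fstM p) (fstM p)
  | 2 => fun c p => p = c
  | 3 => fun _ p => p = pair (pair (fstM (fstM p)) (sndM (fstM p)))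
      (fstM (fstM p) + sndM (fstM p))
  | 4 => fun _ p => p = pair (pair (fstM (fstM p)) (sndM (fstM p)))
      (fstM (fstM p) * sndM (fstM p))
  | 5 => fun _ p => p = pair (fstM p) (sndM p) ∧ fstM p < sndM p
  | 6 => fun _ p => p = pair (fstM p) (exp (fstM p))
  | 7 => fun _ p => sndM p = pair (fstM p) (sndM (sndM p))
  | 8 => fun _ p => fstM p = pair (sndM p) (sndM (fstM p))
  | 9 => fun _ p => fstM p = pair (sndM (sndM p)) (fstM (sndM p)) ∧
      sndM p = pair (fstM (sndM p)) (sndM (sndM p))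
  | 10 => fun _ p =>
      fstM p = pair (pair (fstM (fstM (fstM p))) (sndM (fstM (fstM p)))) (sndM (fstM p)) ∧
      sndM p = pair (pair (fstM (fstM (fstM p))) (sndM (fstM p))) (sndM (fstM (fstM p)))
  | 11 => fun _ p =>
      fstM p = pair (pair (fstM (fstM (fstM p))) (sndM (fstM (fstM p)))) (sndM (fstM p)) ∧
      sndM p = pair (fstM (fstM (fstM p))) (pair (sndM (fstM (fstM p))) (sndM (fstM p)))
  | n + 12 => fun c p => (p ∈ X n ↔ c = 0)

theorem fn_at {E : Cls M} [XpIn E] {X : ℕ → Set M} {k : ℕ}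
    (hX : ∀ i < k, Fn E fun x : M => x ∈ X i) :
    Fn E fun p : M × M => Jn (At X) (k + 12) p.1 p.2 := by
  refine fn_jn fun i hi => ?_
  match i, hi with
  | 0, _ => exact Fn.const True
  | 1, _ => simp only [At]; fun_prop
  | 2, _ => simp only [At]; fun_prop
  | 3, _ => simp only [At]; fun_prop
  | 4, _ => simp only [At]; fun_prop
  | 5, _ => simp only [At]; fun_prop
  | 6, _ => simp only [At]; fun_prop
  | 7, _ => simp only [At]; fun_prop
  | 8, _ => simp only [At]; fun_prop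
  | 9, _ => simp only [At]; fun_prop
  | 10, _ => simp only [At]; fun_prop
  | 11, _ => simp only [At]; fun_prop
  | n + 12, hi =>
    simp only [At]
    exact Fn.iff ((hX n (by omega)).comp Fn.snd0) (by fun_prop)

theorem atom_mem (X : ℕ → Set M) (k : ℕ) {i : ℕ} (hi : i < k + 12) (c : M) {V : Set M}
    (h : ∀ x, x ∈ V ↔ At X i c x) : V ∈ Set.range (W (Jn (At X) (k + 12))) :=
  ⟨pair 0 (pair (i : M) c), Set.ext fun x => by rw [W_atom, jn_pair hi, h]⟩

theorem img_mem (X : ℕ → Set M) (k : ℕ) {i : ℕ} (hi : i < k + 12) {V V' : Set M}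
    (hV : V ∈ Set.range (W (Jn (At X) (k + 12))))
    (h : ∀ x, x ∈ V' ↔ ∃ y, At X i 0 (pair x y) ∧ y ∈ V) :
    V' ∈ Set.range (W (Jn (At X) (k + 12))) := by
  obtain ⟨a, rfl⟩ := hV
  exact ⟨pair 3 (pair (pair (i : M) 0) a), Set.ext fun x => by
    simp only [W_img, jn_pair hi, h]⟩

/-- The class generated by the atoms. -/
def gen (C : Cls M) [SInd C] [XpIn C] (X : ℕ → Set M) (k : ℕ)
    (hX : ∀ i < k, Fn C fun x : M => x ∈ X i) : Cls M where
  sets := Set.range (W (Jn (At X) (k + 12)))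
  inter := by
    rintro _ _ ⟨a, rfl⟩ ⟨b, rfl⟩
    exact ⟨pair 1 (pair a b), Set.ext fun x => W_inter a b x⟩
  union := by
    rintro _ _ ⟨a, rfl⟩ ⟨b, rfl⟩
    exact ⟨pair 2 (pair a b), Set.ext fun x => W_union a b x⟩
  ex h := img_mem X k (i := 7) (by omega) h fun x => by
    simp only [At, fstM_pair, sndM_pair]
    exact ⟨fun ⟨y, hy⟩ => ⟨_, by simp, hy⟩, fun ⟨y, h1, h2⟩ => ⟨sndM y, h1 ▸ h2⟩⟩
  ball := by
    rintro _ ⟨a, rfl⟩
    exact ⟨pair 4 a, Set.ext fun x => W_ball C (fn_at hX) a x⟩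
  cyl h := img_mem X k (i := 8) (by omega) h fun p => by
    simp only [At, fstM_pair, sndM_pair]
    constructor
    · rintro ⟨x, y, rfl, hx⟩; exact ⟨x, by simp, hx⟩
    · rintro ⟨y, h1, h2⟩; exact ⟨_, _, h1, h2⟩
  swap h := img_mem X k (i := 9) (by omega) h fun p => by
    simp only [At, fstM_pair, sndM_pair]
    constructor
    · rintro ⟨x, y, rfl, hx⟩; exact ⟨_, by simp, hx⟩
    · rintro ⟨y, ⟨h1, h2⟩, h3⟩; exact ⟨_, _, h1, h2 ▸ h3⟩
  swap23 h := img_mem X k (i := 10) (by omega) h fun p => by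
    simp only [At, fstM_pair, sndM_pair]
    constructor
    · rintro ⟨x, y, z, rfl, hx⟩; exact ⟨_, by simp, hx⟩
    · rintro ⟨y, ⟨h1, h2⟩, h3⟩; exact ⟨_, _, _, h1, h2 ▸ h3⟩
  assoc h := img_mem X k (i := 11) (by omega) h fun p => by
    simp only [At, fstM_pair, sndM_pair]
    constructor
    · rintro ⟨x, y, z, rfl, hx⟩; exact ⟨_, by simp, hx⟩
    · rintro ⟨y, ⟨h1, h2⟩, h3⟩; exact ⟨_, _, _, h1, h2 ▸ h3⟩
  univ := atom_mem X k (i := 0) (by omega) 0 fun x => by simp [At]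
  diag := atom_mem X k (i := 1) (by omega) 0 fun p => by
    simp only [At]
    exact ⟨by rintro ⟨x, rfl⟩; simp, fun h => ⟨_, h⟩⟩
  sing c := atom_mem X k (i := 2) (by omega) c fun p => by simp [At]
  add := atom_mem X k (i := 3) (by omega) 0 fun p => by
    simp only [At]
    exact ⟨by rintro ⟨x, y, rfl⟩; simp, fun h => ⟨_, _, h⟩⟩
  mul := atom_mem X k (i := 4) (by omega) 0 fun p => by
    simp only [At]
    exact ⟨by rintro ⟨x, y, rfl⟩; simp, fun h => ⟨_, _, h⟩⟩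
  lt := atom_mem X k (i := 5) (by omega) 0 fun p => by
    simp only [At]
    exact ⟨by rintro ⟨x, y, rfl, h⟩; simpa using h, fun h => ⟨_, _, h⟩⟩

end EvalX

open EvalX in
theorem exists_univ (C : Cls M) [SInd C] [XpIn C] (X : ℕ → Set M) (k : ℕ)
    (hX : ∀ i < k, Fn C fun x : M => x ∈ X i) :
    ∃ C0 : Cls M, C0.sets ⊆ C.sets ∧ Univ C0 ∧ XpIn C0 ∧
      ∀ i < k, Fn C0 fun x : M => x ∈ X i := by
  have hx : XpIn (gen C X k hX) := ⟨atom_mem X k (i := 6) (by omega) 0 fun p => by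
    simp only [At]
    constructor
    · rintro ⟨⟨a, b⟩, rfl, h⟩
      obtain rfl : exp a = b := h
      simp
    · exact fun h => ⟨(fstM p, exp (fstM p)), h, rfl⟩⟩
  have hX0 : ∀ i < k, Fn (gen C X k hX) fun x : M => x ∈ X i := fun i hi =>
    fn_mem_iff.2 ⟨atom_mem X k (i := i + 12) (by omega) 0 fun p => by simp [At],
      atom_mem X k (i := i + 12) (by omega) 1 fun p => by simp [At]⟩
  refine ⟨gen C X k hX, ?_, ⟨U (Jn (At X) (k + 12)), fn_U (fn_at hX0), ?_⟩, hx, hX0⟩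
  · rintro _ ⟨e, rfl⟩
    exact (Sig.ex (P := fun x τ => U (Jn (At X) (k + 12)) e x τ) (Fn.sig ((fn_U (fn_at hX)).comp
      (g := fun q : M × M => (e, q.1, q.2)) (by fun_prop)))).mem_sets
  · rintro _ ⟨e, rfl⟩
    exact ⟨e, fun x => Iff.rfl⟩

end Pool.Agent.MP75f14d

end
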