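import Pool.Agent.Mg.F75f14d.G727c50
import Pool.Agent.MP_75f14d_lc.Defs
import Pool.Agent.MP_75f14d_lc.Diff

section

/-! Primitive recursion and the exponential function from Sigma1 induction. -/

namespace Pool.Agent.MP75f14d

variable {M : Type} [Ar M] {α : Type} [Cd M α]

namespace PrecX

/-- Membership of `i` in the set coded by `m, N`. -/
def In (i m N : M) : Prop := BEx (N + 1) fun q => N = (m * (i + 1) + 1) * q

@[fun_prop] theorem fn_In {C : Cls M} {f g k : α → M} (hf : Fn C f) (hg : Fn C g) (hk : Fn C k) :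
    Fn C fun a => In (f a) (g a) (k a) := by
  unfold In; fun_prop

theorem in_iff {i m N : M} : In i m N ↔ ∃ q, N = (m * (i + 1) + 1) * q := by
  refine ⟨fun ⟨q, _, h⟩ => ⟨q, h⟩, fun ⟨q, h⟩ => ⟨q, lt_succ_iff.2 ?_, h⟩⟩
  rw [h, add_mul, one_mul]
  exact le_add_self

theorem lemA (C : Cls M) [SInd C] (k : M) : ∃ m, 0 < m ∧ ∀ d < k, ∃ q, m = (d + 1) * q := by
  refine Sig.ind (C := C) (P := fun k => ∃ m, 0 < m ∧ ∀ d < k, ∃ q, m = (d + 1) * q) ?_
    ⟨1, one_pos, fun d hd => absurd hd (not_lt_zero d)⟩ ?_ k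
  · exact Sig.ex (Sig.and (Fn.sig (by fun_prop))
      (Sig.ball (by fun_prop) (Sig.ex (Fn.sig (by fun_prop)))))
  · rintro x ⟨m, hm, h⟩
    refine ⟨m * (x + 1), by positivity, fun d hd => ?_⟩
    rcases lt_succ_iff_lt_or_eq.1 hd with h' | rfl
    · obtain ⟨q, hq⟩ := h d h'
      exact ⟨q * (x + 1), by rw [hq]; ring⟩
    · exact ⟨m, by ring⟩

theorem inv_of {x y U V w : M} (hy : 1 < y) (h : x * U + y * w = y * V + 1) :
    ∃ u v, x * u = y * v + 1 := by
  rcases le_or_gt w V with h1 | h1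
  · obtain ⟨c, rfl⟩ := exists_add_of_le h1
    refine ⟨U, c, add_right_cancel (b := y * w) ?_⟩
    rw [h]; ring
  · exfalso
    have := nn (x * U)
    zify at *
    nlinarith [nn y, nn V, nn w]

theorem inv_ne {m k i j : M} (hm : 0 < m) (hd : ∀ d < k, ∃ q, m = (d + 1) * q) (hi : i < k)
    (hj : j < k) (hij : i ≠ j) : ∃ u v, (m * (j + 1) + 1) * u = (m * (i + 1) + 1) * v + 1 := by
  have ht : 0 < m * (i + 1) := by positivity
  obtain ⟨s, hs⟩ : ∃ s, m * (i + 1) = s + 1 := (eq_zero_or_succ _).resolve_left ht.ne'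
  rcases lt_or_gt_of_ne hij with h | h
  · obtain ⟨d, rfl⟩ := exists_add_of_le (lt_iff_succ_le.1 h)
    obtain ⟨q, hq⟩ := hd d (lt_of_le_of_lt le_add_self hj)
    refine ⟨q * (i + 1) * (i + 1), q * (i + 1) * (i + 1) + s, ?_⟩
    have e1 : m * (d + 1) * (q * (i + 1) * (i + 1)) = (s + 1) * (s + 1) := by
      rw [← hs]; nth_rewrite 3 [hq]; ring
    have e2 : m * (i + 1 + d + 1) + 1 = (m * (i + 1) + 1) + m * (d + 1) := by ring
    rw [e2, add_mul, e1, hs]; ring
  · obtain ⟨d, rfl⟩ := exists_add_of_le (lt_iff_succ_le.1 h)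
    obtain ⟨q, hq⟩ := hd d (lt_of_le_of_lt le_add_self hi)
    set i := j + 1 + d with hi'
    have e1 : m * (d + 1) * (q * (i + 1) * (i + 1)) = (s + 1) * (s + 1) := by
      rw [← hs]; nth_rewrite 3 [hq]; ring
    have e2 : s + 1 + 1 = (m * (j + 1) + 1) + m * (d + 1) := by rw [← hs, hi']; ring
    rw [hs]
    refine inv_of (U := q * (i + 1) * (i + 1) * (s + 1)) (w := s * s + s + 1)
      (V := q * (i + 1) * (i + 1) * (s + 1)) (by zify; linarith [nn s]) ?_
    generalize q * (i + 1) * (i + 1) = u at *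
    have e3 : (s + 1 + 1) * (u * (s + 1)) =
        (m * (j + 1) + 1) * (u * (s + 1)) + m * (d + 1) * u * (s + 1) := by rw [e2]; ring
    rw [e3, e1]; ring

theorem lemB (C : Cls M) [SInd C] {P : M → Prop} (hP : Fn C P) (k : M) :
    ∃ m N, ∀ i < k, In i m N ↔ P i := by
  obtain ⟨m, hm, hd⟩ := lemA C k
  have := Sig.ind_le (C := C) (P := fun j => ∃ N, (∀ i < j, P i → ∃ q, N = (m * (i + 1) + 1) * q) ∧
      ∀ i < k, (¬ P i ∨ j ≤ i) → ∃ u v, N * u = (m * (i + 1) + 1) * v + 1) ?_ k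
      ⟨1, fun i hi => absurd hi (not_lt_zero i), fun i _ _ => ⟨1, 0, by ring⟩⟩ ?_ k le_rfl
  · obtain ⟨N, h1, h2⟩ := this
    refine ⟨m, N, fun i hi => ⟨fun h => ?_, fun h => in_iff.2 (h1 i hi h)⟩⟩
    by_contra hn
    obtain ⟨q, rfl⟩ := in_iff.1 h
    obtain ⟨u, v, e⟩ := h2 i hi (Or.inl hn)
    have ht : 0 < m * (i + 1) := by positivity
    generalize m * (i + 1) = t at *
    have := (div_mod_unique (q := q * u) (r := 0) (q' := v) (r' := 1) (b := t + 1)
      (by positivity) (by zify at *; linarith) (by rw [add_zero, mul_comm v, ← e]; ring)).2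
    exact zero_ne_one this
  · exact Sig.ex (Sig.and
      (Sig.ball (by fun_prop) (Sig.imp (by fun_prop) (Sig.ex (Fn.sig (by fun_prop)))))
      (Sig.ball (by fun_prop) (Sig.imp (by fun_prop) (Sig.ex (Sig.ex (Fn.sig (by fun_prop)))))))
  · rintro j hj ⟨N, h1, h2⟩
    by_cases hPj : P j
    · refine ⟨N * (m * (j + 1) + 1), fun i hi hPi => ?_, fun i hi h => ?_⟩
      · rcases lt_succ_iff_lt_or_eq.1 hi with h' | rfl
        · obtain ⟨q, hq⟩ := h1 i h' hPi
          exact ⟨q * (m * (j + 1) + 1), by rw [hq]; ring⟩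
        · exact ⟨N, by ring⟩
      · have hij : i ≠ j := by
          rintro rfl
          rcases h with h | h
          · exact h hPj
          · exact absurd (lt_iff_succ_le.2 h) (lt_irrefl _)
        obtain ⟨u, v, e⟩ := h2 i hi (h.imp_right fun h => le_trans le_self_add h)
        obtain ⟨u', v', e'⟩ := inv_ne hm hd hi hj hij
        refine ⟨u * u', (m * (i + 1) + 1) * v * v' + v + v', ?_⟩
        rw [mul_mul_mul_comm, e, e']; ring
    · refine ⟨N, fun i hi hPi => ?_, fun i hi h => h2 i hi (h.imp_right (le_trans le_self_add))⟩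
      rcases lt_succ_iff_lt_or_eq.1 hi with h' | rfl
      · exact h1 i h' hPi
      · exact absurd hPi hPj

/-- `m, N` code, below `k`, a part of the graph of the recursion. -/
def Code (g : α → M) (h : α → M → M → M) (a : α) (k m N : M) : Prop :=
  BAll k fun p => Imp (In p m N) (p = pair 0 (g a) ∨ BEx k fun i => BEx k fun z =>
    pair i z < k ∧ In (pair i z) m N ∧ p = pair (i + 1) (h a i z))

/-- The graph of the recursion. -/
def Gr (g : α → M) (h : α → M → M → M) (a : α) (x y : M) : Prop :=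
  ∃ k m N, pair x y < k ∧ In (pair x y) m N ∧ Code g h a k m N

variable {g : α → M} {h : α → M → M → M}

theorem gr_unique (C : Cls M) [SInd C] {a : α} {x y y' : M} (h1 : Gr g h a x y)
    (h2 : Gr g h a x y') : y = y' := by
  obtain ⟨k, m, N, a1, a2, a3⟩ := h1
  obtain ⟨k', m', N', b1, b2, b3⟩ := h2
  refine Fn.ind (C := C) (P := fun x => BAll k fun y => BAll k' fun y' =>
    Imp (pair x y < k ∧ In (pair x y) m N ∧ pair x y' < k' ∧ In (pair x y') m' N') (y = y'))
    (by fun_prop) ?_ ?_ x y (lt_of_le_of_lt (le_pair_right _ _) a1) y'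
    (lt_of_le_of_lt (le_pair_right _ _) b1) ⟨a1, a2, b1, b2⟩
  · rintro y - y' - ⟨c1, c2, c3, c4⟩
    rcases a3 _ c1 c2 with e | ⟨i, -, z, -, -, -, e⟩
    · rcases b3 _ c3 c4 with e' | ⟨i, -, z, -, -, -, e'⟩
      · rw [(pair_inj e).2, (pair_inj e').2]
      · exact absurd (pair_inj e').1 (by positivity : (0 : M) < i + 1).ne
    · exact absurd (pair_inj e).1 (by positivity : (0 : M) < i + 1).ne
  · rintro x ih y - y' - ⟨c1, c2, c3, c4⟩
    rcases a3 _ c1 c2 with e | ⟨i, -, z, hz, d1, d2, e⟩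
    · exact absurd (pair_inj e).1 (by positivity : (0 : M) < x + 1).ne'
    rcases b3 _ c3 c4 with e' | ⟨i', -, z', hz', d3, d4, e'⟩
    · exact absurd (pair_inj e').1 (by positivity : (0 : M) < x + 1).ne'
    obtain rfl : x = i := add_right_cancel (pair_inj e).1
    obtain rfl : x = i' := add_right_cancel (pair_inj e').1
    rw [(pair_inj e).2, (pair_inj e').2, ih z hz z' hz' ⟨d1, d2, d3, d4⟩]

theorem gr_zero (C : Cls M) [SInd C] (a : α) : Gr g h a 0 (g a) := by
  obtain ⟨m, N, e⟩ := lemB C (P := fun p => p = pair 0 (g a)) (by fun_prop) (pair 0 (g a) + 1)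
  exact ⟨_, m, N, lt_add_one _, (e _ (lt_add_one _)).2 rfl, fun p hp hi => Or.inl ((e p hp).1 hi)⟩

theorem gr_succ (C : Cls M) [SInd C] {a : α} {x y : M} (h1 : Gr g h a x y) :
    Gr g h a (x + 1) (h a x y) := by
  obtain ⟨k, m, N, a1, a2, a3⟩ := h1
  obtain ⟨m', N', e⟩ := lemB C (P := fun p => (p < k ∧ In p m N) ∨ p = pair (x + 1) (h a x y))
    (by fun_prop) (k + pair (x + 1) (h a x y) + 1)
  have hk : ∀ {p}, p < k → p < k + pair (x + 1) (h a x y) + 1 := fun hp =>
    lt_of_lt_of_le hp (le_trans le_self_add le_self_add)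
  have hk' : pair (x + 1) (h a x y) < k + pair (x + 1) (h a x y) + 1 := lt_succ_iff.2 le_add_self
  refine ⟨_, m', N', hk', (e _ hk').2 (Or.inr rfl), fun p hp hi => ?_⟩
  rcases (e p hp).1 hi with ⟨c1, c2⟩ | rfl
  · rcases a3 p c1 c2 with e' | ⟨i, hi, z, hz, d1, d2, e'⟩
    · exact Or.inl e'
    · exact Or.inr ⟨i, hk hi, z, hk hz, hk d1, (e _ (hk d1)).2 (Or.inl ⟨d1, d2⟩), e'⟩
  · exact Or.inr ⟨x, hk (lt_of_le_of_lt (le_pair_left _ _) a1), y,
      hk (lt_of_le_of_lt (le_pair_right _ _) a1), hk a1, (e _ (hk a1)).2 (Or.inl ⟨a1, a2⟩), rfl⟩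

theorem gr_sig {C : Cls M} (hg : Fn C g) (hh : Fn C fun p : α × M × M => h p.1 p.2.1 p.2.2) :
    Sig C fun p : (α × M) × M => Gr g h p.1.1 p.1.2 p.2 := by
  refine Sig.ex (Sig.ex (Sig.ex (Fn.sig ?_)))
  unfold Code
  fun_prop

end PrecX

theorem exists_prec (C : Cls M) [SInd C] {g : α → M} {h : α → M → M → M} (hg : Fn C g)
    (hh : Fn C fun p : α × M × M => h p.1 p.2.1 p.2.2) :
    ∃ F : α → M → M, Fn C (fun p : α × M => F p.1 p.2) ∧ (∀ a, F a 0 = g a) ∧
      ∀ a x, F a (x + 1) = h a x (F a x) := by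
  have hs := PrecX.gr_sig hg hh
  have hex : ∀ a x, ∃ y, PrecX.Gr g h a x y := fun a =>
    Sig.ind (C := C) (Sig.ex (hs.comp (f := fun p : M × M => ((a, p.1), p.2)) (by fun_prop)))
      ⟨_, PrecX.gr_zero C a⟩ fun x ⟨y, hy⟩ => ⟨_, PrecX.gr_succ C hy⟩
  choose F hF using hex
  exact ⟨F, Fn.of_graph (G := fun p y => PrecX.Gr g h p.1 p.2 y) hs
      fun p y => ⟨fun e => e ▸ hF _ _, fun e => PrecX.gr_unique C (hF _ _) e⟩,
    fun a => PrecX.gr_unique C (hF _ _) (PrecX.gr_zero C a),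
    fun a x => PrecX.gr_unique C (hF _ _) (PrecX.gr_succ C (hF _ _))⟩

theorem exists_good (C : Cls M) [SInd C] : ∃ _ : Good M, XpIn C := by
  obtain ⟨F, hF, h0, hs⟩ := exists_prec C (α := M) (g := fun _ => 1) (h := fun _ _ y => 2 * y)
    (by fun_prop) (by fun_prop)
  have hF0 : Fn C (F 0) := by fun_prop
  letI : Good M := ⟨F 0, h0 0, hs 0, C, inferInstance, hF0⟩
  exact ⟨this, ⟨hF0⟩⟩

end Pool.Agent.MP75f14d

end

section

/-! Counting the elements of coded sets; recursion on initial segments. -/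

set_option linter.unusedSectionVars false

namespace Pool.Agent.MP75f14d

variable {M : Type} [Ar M] [Good M]

/-- `cnt d m` is the number of elements of the coded set `d` below `m`. -/
structure IsCnt (C : Cls M) (cnt : M → M → M) : Prop where
  fn : Fn C fun p : M × M => cnt p.1 p.2
  zero : ∀ d, cnt d 0 = 0
  succ : ∀ d m, cnt d (m + 1) = cnt d m + cnd (Mem m d) 1 0

theorem exists_cnt (C : Cls M) [SInd C] [XpIn C] : ∃ cnt, IsCnt C cnt := by
  obtain ⟨F, hF, h0, hs⟩ := exists_prec C (α := M) (g := fun _ => 0)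
    (h := fun d m y => y + cnd (Mem m d) 1 0) (by fun_prop) (by fun_prop)
  exact ⟨F, hF, h0, hs⟩

namespace IsCnt
variable {C : Cls M} [SInd C] [XpIn C] {cnt : M → M → M} (h : IsCnt C cnt)
include h

omit [SInd C] [XpIn C] in
theorem succ_pos {d m : M} (hm : Mem m d) : cnt d (m + 1) = cnt d m + 1 := by
  rw [h.succ, cnd_pos hm]

omit [SInd C] [XpIn C] in
theorem succ_neg {d m : M} (hm : ¬ Mem m d) : cnt d (m + 1) = cnt d m := by
  rw [h.succ, cnd_neg hm, add_zero]

omit [SInd C] [XpIn C] in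
theorem le_succ (d m : M) : cnt d m ≤ cnt d (m + 1) := by
  rw [h.succ]; exact le_self_add

omit [SInd C] [XpIn C] in
theorem succ_le (d m : M) : cnt d (m + 1) ≤ cnt d m + 1 := by
  by_cases hm : Mem m d
  · exact (h.succ_pos hm).le
  · rw [h.succ_neg hm]; exact le_self_add

theorem le (d m : M) : cnt d m ≤ m := by
  have := h.fn
  refine Fn.ind (C := C) (P := fun m => cnt d m ≤ m) (by fun_prop) (h.zero d).le ?_ m
  intro x ih
  exact (h.succ_le d x).trans (add_le_add_left ih 1)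

theorem le_add {d a b m : M} (hd : ∀ i < m, Mem i d → Mem i a ∨ Mem i b) :
    cnt d m ≤ cnt a m + cnt b m := by
  have := h.fn
  refine Fn.ind_le (C := C) (P := fun x => cnt d x ≤ cnt a x + cnt b x) (by fun_prop) m
    (by rw [h.zero d]; exact zero_le) ?_ m le_rfl
  intro x hx ih
  have h1 := h.le_succ a x
  have h2 := h.le_succ b x
  by_cases hm : Mem x d
  · rw [h.succ_pos hm]
    rcases hd x hx hm with h3 | h3
    · rw [h.succ_pos h3]; zify at *; linarith
    · rw [h.succ_pos h3]; zify at *; linarith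
  · rw [h.succ_neg hm]
    exact ih.trans (add_le_add h1 h2)

theorem cnt_zero (m : M) : cnt 0 m = 0 := by
  have := h.fn
  refine Fn.ind (C := C) (P := fun m => cnt 0 m = 0) (by fun_prop) (h.zero 0) ?_ m
  intro x ih
  rw [h.succ_neg (not_mem_zero x), ih]

theorem cnt_full {d m : M} (hd : ∀ i < m, Mem i d) : cnt d m = m := by
  have := h.fn
  refine Fn.ind_le (C := C) (P := fun x => cnt d x = x) (by fun_prop) m (h.zero d) ?_ m le_rfl
  intro x hx ih
  rw [h.succ_pos (hd x hx), ih]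

theorem mono {a b m : M} (hab : ∀ i < m, Mem i a → Mem i b) : cnt a m ≤ cnt b m := by
  have := h.le_add (d := a) (a := b) (b := 0) (m := m) fun i hi h1 => Or.inl (hab i hi h1)
  rwa [h.cnt_zero, add_zero] at this

theorem lt {a b m i : M} (hab : ∀ i < m, Mem i a → Mem i b) (hi : i < m) (hb : Mem i b)
    (ha : ¬ Mem i a) : cnt a m < cnt b m := by
  have := h.fn
  refine Fn.ind_le (C := C) (P := fun x => Imp (i < x) (cnt a x < cnt b x)) (by fun_prop) m
    (fun h0 => absurd h0 (not_lt_zero i)) ?_ m le_rfl hi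
  intro x hx ih hix
  rcases lt_succ_iff_lt_or_eq.1 hix with h1 | rfl
  · have h2 : cnt a x < cnt b x := ih h1
    by_cases hm : Mem x a
    · rw [h.succ_pos hm, h.succ_pos (hab x hx hm)]
      exact add_lt_add_left h2 1
    · rw [h.succ_neg hm]
      exact h2.trans_le (h.le_succ b x)
  · rw [h.succ_neg ha, h.succ_pos hb, lt_succ_iff]
    exact h.mono fun j hj => hab j (hj.trans hx)

theorem exp_le (l m : M) : cnt (exp l) m ≤ 1 := by
  have := h.fn
  have key : ∀ m, cnt (exp l) m ≤ 1 ∧ Imp (m ≤ l) (cnt (exp l) m = 0) := by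
    refine Fn.ind (C := C) (by fun_prop) ⟨by rw [h.zero]; exact zero_le, fun _ => h.zero _⟩ ?_
    rintro x ⟨h1, h2⟩
    by_cases hx : x = l
    · subst hx
      refine ⟨?_, fun h3 => absurd (lt_iff_succ_le.2 h3) (lt_irrefl _)⟩
      rw [h.succ_pos (mem_exp.2 rfl), h2 le_rfl, zero_add]
    · rw [h.succ_neg (mt mem_exp.1 hx)]
      exact ⟨h1, fun h3 => h2 (le_trans le_self_add h3)⟩
  exact (key m).1

theorem exists_mem {d m : M} (hd : 0 < cnt d m) : ∃ i < m, Mem i d := by
  by_contra hn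
  have := h.mono (a := d) (b := 0) (m := m) fun i hi h1 => absurd ⟨i, hi, h1⟩ hn
  rw [h.cnt_zero] at this
  exact absurd hd (not_lt.2 this)

/-- Pigeonhole principle. -/
theorem pigeon {p : M → M} (hp : Fn C p) {K s : M} (hK : ∀ l < K * s, p l < K) (hK0 : 0 < K) :
    ∃ t < K, s ≤ cnt (sep (K * s) fun l => p l = t) (K * s) := by
  by_contra hn
  push Not at hn
  have := h.fn
  have key : ∀ t ≤ K, cnt (sep (K * s) fun l => p l < t) (K * s) + t ≤ t * s := by
    refine Fn.ind_le (C := C) (by fun_prop) K ?_ ?_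
    · have h1 := h.mono (a := sep (K * s) fun l => p l < 0) (b := 0) (m := K * s) fun i _ h1 =>
        absurd ((mem_sep C (by fun_prop)).1 h1).2 (not_lt_zero _)
      rw [h.cnt_zero] at h1
      rw [add_zero, zero_mul]
      exact h1
    · intro t ht ih
      have h1 := h.le_add (d := sep (K * s) fun l => p l < t + 1)
        (a := sep (K * s) fun l => p l < t) (b := sep (K * s) fun l => p l = t) (m := K * s)
        fun i hi h1 => by
          rw [mem_sep C (by fun_prop)] at h1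
          rw [mem_sep C (by fun_prop), mem_sep C (by fun_prop)]
          rcases lt_succ_iff_lt_or_eq.1 h1.2 with h2 | h2
          · exact Or.inl ⟨hi, h2⟩
          · exact Or.inr ⟨hi, h2⟩
      have h2 := hn t ht
      generalize cnt (sep (K * s) fun l => p l < t + 1) (K * s) = A at *
      generalize cnt (sep (K * s) fun l => p l < t) (K * s) = B at *
      generalize cnt (sep (K * s) fun l => p l = t) (K * s) = D at *
      clear hn hK
      zify at *
      linarith
  have h1 := key K le_rfl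
  rw [h.cnt_full fun i hi => (mem_sep C (by fun_prop)).2 ⟨hi, hK i hi⟩] at h1
  clear key hn hK
  zify at *
  linarith

end IsCnt

/-- Recursion on initial segments: membership of `v` is decided from the part below `v`. -/
theorem exists_setrec (C : Cls M) [Ind C] [XpIn C] {R : M → M → Prop}
    (hR : Fn C fun p : M × M => R p.1 p.2) :
    ∃ D : Set M, Fn C (fun x : M => x ∈ D) ∧ ∀ v, v ∈ D ↔ R v (cut D v) := by
  have hex : ∀ y : M, BEx (exp y) fun d => BAll y fun v => (Mem v d ↔ R v (res d v)) := by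
    refine Fn.ind (C := C) (by fun_prop)
      ⟨0, exp_pos 0, fun v hv => absurd hv (not_lt_zero v)⟩ ?_
    rintro y ⟨d, -, hd⟩
    replace hd : ∀ v < y, (Mem v d ↔ R v (res d v)) := hd
    have hP : Fn C fun v => (v < y ∧ Mem v d) ∨ (v = y ∧ R y (res d y)) := by fun_prop
    refine ⟨_, sep_lt C hP (y + 1), fun v hv => ?_⟩
    have e : res (sep (y + 1) fun v => (v < y ∧ Mem v d) ∨ (v = y ∧ R y (res d y))) v = res d v := by
      refine code_ext fun i => ?_
      rw [mem_res, mem_res, mem_sep C hP]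
      refine and_congr_right fun hi => ?_
      have h1 : i < y := hi.trans_le (lt_succ_iff.1 hv)
      simp [h1, h1.ne, h1.trans (lt_add_one y)]
    beta_reduce
    rw [e, mem_sep C hP]
    rcases lt_succ_iff_lt_or_eq.1 hv with h1 | rfl
    · rw [← hd v h1]
      simp [h1, h1.ne, hv]
    · simp
  have huniq : ∀ {d d' y y' : M}, (∀ v < y, (Mem v d ↔ R v (res d v))) →
      (∀ v < y', (Mem v d' ↔ R v (res d' v))) →
      ∀ v, Imp (v < y ∧ v < y') (Mem v d ↔ Mem v d') := by
    intro d d' y y' hd hd'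
    refine Fn.strong_ind (C := C) (by fun_prop) ?_
    rintro v ih ⟨h1, h2⟩
    rw [hd v h1, hd' v h2, show res d v = res d' v from code_ext fun i => ?_]
    rw [mem_res, mem_res]
    exact and_congr_right fun hi => ih i hi ⟨hi.trans h1, hi.trans h2⟩
  have hD : Fn C fun x : M => x ∈ {x : M | BEx (exp (x + 1)) fun d =>
      (BAll (x + 1) fun v => (Mem v d ↔ R v (res d v))) ∧ Mem x d} := by
    simp only [Set.mem_ofPred_eq]
    fun_prop
  refine ⟨_, hD, fun v => ?_⟩
  have hmem : ∀ {d y : M}, (∀ v < y, (Mem v d ↔ R v (res d v))) → ∀ x < y,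
      (x ∈ {x : M | BEx (exp (x + 1)) fun d =>
        (BAll (x + 1) fun v => (Mem v d ↔ R v (res d v))) ∧ Mem x d} ↔ Mem x d) := by
    intro d y hd x hx
    constructor
    · rintro ⟨d', -, h1, h2⟩
      exact (huniq h1 hd x ⟨lt_add_one x, hx⟩).1 h2
    · intro h2
      obtain ⟨d', h3, h1⟩ := hex (x + 1)
      exact ⟨d', h3, h1, (huniq h1 hd x ⟨lt_add_one x, hx⟩).2 h2⟩
  obtain ⟨d, -, hd⟩ := hex (v + 1)
  replace hd : ∀ x < v + 1, (Mem x d ↔ R x (res d x)) := hd
  rw [hmem hd v (lt_add_one v), hd v (lt_add_one v)]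
  refine iff_of_eq (congrArg (R v) (code_ext fun i => ?_))
  rw [mem_res, (reg_of_fn C hD).mem_cut]
  exact and_congr_right fun hi => (hmem hd i (hi.trans (lt_add_one v))).symm

end Pool.Agent.MP75f14d

end

section

/-! Henkin semantics for the two-sorted language. -/

namespace Pool.Agent.MP75f14d

/-- A structure: numbers `N`, sets `S`. -/
structure Str : Type 1 where
  N : Type
  S : Type
  zero : N
  one : N
  add : N → N → N
  mul : N → N → N
  lt : N → N → Prop
  mem : N → S → Prop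

def Str.val (A : Str) (v : ℕ → A.N) : Tm → A.N
  | .var n => v n
  | .zero => A.zero
  | .one => A.one
  | .add t u => A.add (A.val v t) (A.val v u)
  | .mul t u => A.mul (A.val v t) (A.val v u)

def Str.Sat (A : Str) : Fm → (ℕ → A.N) → (ℕ → A.S) → Prop
  | .eq t u, v, _ => A.val v t = A.val v u
  | .lt t u, v, _ => A.lt (A.val v t) (A.val v u)
  | .mem t k, v, w => A.mem (A.val v t) (w k)
  | .bot, _, _ => False
  | .imp f g, v, w => A.Sat f v w → A.Sat g v w
  | .allN f, v, w => ∀ a, A.Sat f (cons a v) w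
  | .allS f, v, w => ∀ X, A.Sat f v (cons X w)

def Str.Models (A : Str) (T : Set Fm) : Prop := ∀ f ∈ T, ∀ v w, A.Sat f v w

@[simp] theorem cons_zero {α : Type} (a : α) (s : ℕ → α) : cons a s 0 = a := rfl
@[simp] theorem cons_succ {α : Type} (a : α) (s : ℕ → α) (n : ℕ) : cons a s (n + 1) = s n := rfl
@[simp] theorem cons_one {α : Type} (a : α) (s : ℕ → α) : cons a s 1 = s 0 := rfl
@[simp] theorem cons_two {α : Type} (a : α) (s : ℕ → α) : cons a s 2 = s 1 := rfl
@[simp] theorem cons_three {α : Type} (a : α) (s : ℕ → α) : cons a s 3 = s 2 := rfl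
@[simp] theorem cons_four {α : Type} (a : α) (s : ℕ → α) : cons a s 4 = s 3 := rfl
@[simp] theorem cons_five {α : Type} (a : α) (s : ℕ → α) : cons a s 5 = s 4 := rfl
@[simp] theorem cons_six {α : Type} (a : α) (s : ℕ → α) : cons a s 6 = s 5 := rfl
@[simp] theorem cons_seven {α : Type} (a : α) (s : ℕ → α) : cons a s 7 = s 6 := rfl

namespace Str
variable (A : Str)

theorem val_sub (v : ℕ → A.N) (r : ℕ → Tm) (t : Tm) :
    A.val v (t.sub r) = A.val (fun n => A.val v (r n)) t := by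
  induction t with
  | var n => rfl
  | zero => rfl
  | one => rfl
  | add t u iht ihu => simp [Tm.sub, val, iht, ihu]
  | mul t u iht ihu => simp [Tm.sub, val, iht, ihu]

@[simp] theorem val_up (v : ℕ → A.N) (a : A.N) (t : Tm) : A.val (cons a v) t.up = A.val v t := by
  rw [Tm.up, val_sub]; rfl

theorem sat_sub (f : Fm) : ∀ (r : ℕ → Tm) (p : ℕ → ℕ) (v : ℕ → A.N) (w : ℕ → A.S),
    A.Sat (f.sub r p) v w ↔ A.Sat f (fun n => A.val v (r n)) (fun n => w (p n)) := by
  induction f with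
  | eq t u => intro r p v w; simp [Fm.sub, Sat, val_sub]
  | lt t u => intro r p v w; simp [Fm.sub, Sat, val_sub]
  | mem t k => intro r p v w; simp [Fm.sub, Sat, val_sub]
  | bot => intro r p v w; simp [Fm.sub, Sat]
  | imp f g ihf ihg => intro r p v w; simp [Fm.sub, Sat, ihf, ihg]
  | allN f ih =>
    intro r p v w
    simp only [Fm.sub, Sat, ih]
    refine forall_congr' fun a => ?_
    have : (fun n => A.val (cons a v) (liftN r n)) = cons a fun n => A.val v (r n) := by
      funext n; cases n with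
      | zero => rfl
      | succ n => simp [liftN]
    rw [this]
  | allS f ih =>
    intro r p v w
    simp only [Fm.sub, Sat, ih]
    refine forall_congr' fun X => ?_
    have : (fun n => cons X w (liftS p n)) = cons X fun n => w (p n) := by
      funext n; cases n with
      | zero => rfl
      | succ n => simp [liftS]
    rw [this]

@[simp] theorem sat_upN (f : Fm) (a : A.N) (v : ℕ → A.N) (w : ℕ → A.S) :
    A.Sat f.upN (cons a v) w ↔ A.Sat f v w := by
  rw [Fm.upN, sat_sub]; rfl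

@[simp] theorem sat_upS (f : Fm) (X : A.S) (v : ℕ → A.N) (w : ℕ → A.S) :
    A.Sat f.upS v (cons X w) ↔ A.Sat f v w := by
  rw [Fm.upS, sat_sub]; rfl

@[simp] theorem sat_instN (f : Fm) (t : Tm) (v : ℕ → A.N) (w : ℕ → A.S) :
    A.Sat (f.instN t) v w ↔ A.Sat f (cons (A.val v t) v) w := by
  rw [Fm.instN, sat_sub]
  have : (fun n => A.val v (cons t Tm.var n)) = cons (A.val v t) v := by
    funext n; cases n <;> rfl
  rw [this]; rfl

@[simp] theorem sat_instS (f : Fm) (k : ℕ) (v : ℕ → A.N) (w : ℕ → A.S) :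
    A.Sat (f.instS k) v w ↔ A.Sat f v (cons (w k) w) := by
  rw [Fm.instS, sat_sub]
  have : (fun n => w (cons k id n)) = cons (w k) w := by
    funext n; cases n <;> rfl
  rw [this]; rfl

variable (f g : Fm) (v : ℕ → A.N) (w : ℕ → A.S)

@[simp] theorem sat_neg : A.Sat f.neg v w ↔ ¬ A.Sat f v w := Iff.rfl
@[simp] theorem sat_and : A.Sat (f.and g) v w ↔ A.Sat f v w ∧ A.Sat g v w := by
  simp [Fm.and, Sat]
@[simp] theorem sat_or : A.Sat (f.or g) v w ↔ A.Sat f v w ∨ A.Sat g v w := by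
  simp only [Fm.or, Sat, sat_neg]; tauto
@[simp] theorem sat_iff : A.Sat (f.iff g) v w ↔ (A.Sat f v w ↔ A.Sat g v w) := by
  simp only [Fm.iff, Sat, sat_and]; tauto
@[simp] theorem sat_exN : A.Sat f.exN v w ↔ ∃ a, A.Sat f (cons a v) w := by
  simp [Fm.exN, Sat]
@[simp] theorem sat_exS : A.Sat f.exS v w ↔ ∃ X, A.Sat f v (cons X w) := by
  simp [Fm.exS, Sat]
@[simp] theorem sat_ball (t : Tm) :
    A.Sat (Fm.ball t f) v w ↔ ∀ a, A.lt a (A.val v t) → A.Sat f (cons a v) w := by
  simp [Fm.ball, Sat, val]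
@[simp] theorem sat_bex (t : Tm) :
    A.Sat (Fm.bex t f) v w ↔ ∃ a, A.lt a (A.val v t) ∧ A.Sat f (cons a v) w := by
  simp [Fm.bex]

/-- Induction in variable 0, read in a structure. -/
theorem sat_indAx : A.Sat (indAx f) v w ↔
    (A.Sat f (cons A.zero v) w ∧ (∀ a, A.Sat f (cons a v) w → A.Sat f (cons (A.add a A.one) v) w) →
      ∀ a, A.Sat f (cons a v) w) := by
  have : ∀ a, (fun n => A.val (cons a v) (cons (Tm.add (.var 0) .one) (fun n => Tm.var (n + 1)) n))
      = cons (A.add a A.one) v := by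
    intro a; funext n; cases n <;> rfl
  simp only [indAx, Sat, sat_and, sat_instN, sat_sub, this, val, id]

theorem sat_compAx : A.Sat (compAx f g) v w ↔
    ((∀ a, A.Sat f (cons a v) w ↔ A.Sat g (cons a v) w) →
      ∃ X, ∀ a, A.mem a X ↔ A.Sat f (cons a v) w) := by
  simp [compAx, Sat, val]

theorem sat_bndAx : A.Sat (bndAx f) v w ↔
    ((∀ x, A.lt x (v 0) → ∃ y, A.Sat f (cons y (cons x v)) w) →
      ∃ b, ∀ x, A.lt x (v 0) → ∃ y, A.lt y b ∧ A.Sat f (cons y (cons x v)) w) := by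
  have : ∀ y x b, (fun n => A.val (cons y (cons x (cons b v)))
      (cons (Tm.var 0) (cons (Tm.var 1) fun n => Tm.var (n + 3)) n)) = cons y (cons x v) := by
    intro y x b; funext n
    rcases n with _ | _ | n <;> rfl
  simp only [bndAx, Sat, sat_ball, sat_exN, sat_bex, sat_sub, this, val, id, cons_one, cons_zero]

theorem sound {T : Set Fm} (hA : A.Models T) {f : Fm} (h : Prov T f) : ∀ v w, A.Sat f v w := by
  induction h with
  | ax h => exact hA _ h
  | k f g => intro v w h _; exact h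
  | s f g h => intro v w h1 h2 h3; exact h1 h3 (h2 h3)
  | dne f => intro v w h; exact not_not.1 h
  | mp _ _ ih1 ih2 => intro v w; exact ih1 v w (ih2 v w)
  | elimN f t => intro v w h; exact (sat_instN ..).2 (h _)
  | elimS f k => intro v w h; exact (sat_instS ..).2 (h _)
  | genN _ ih => intro v w h a; exact ih _ _ ((sat_upN ..).2 h)
  | genS _ ih => intro v w h X; exact ih _ _ ((sat_upS ..).2 h)
  | refl t => intro v w; rfl
  | repl f t u =>
    intro v w h h1
    have h' : A.val v t = A.val v u := h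
    rw [sat_instN] at h1 ⊢
    rwa [← h']
  | subst r p _ ih => intro v w; rw [sat_sub]; exact ih _ _

end Str

end Pool.Agent.MP75f14d

end

section

/-! The structure with first-order part `M` and a given second-order part. -/

namespace Pool.Agent.MP75f14d

/-- The structure with number part `M`, sets `S` and membership `mem`. -/
@[reducible] def mkStr (M : Type) [Ar M] (S : Type) (mem : M → S → Prop) : Str where
  N := M
  S := S
  zero := 0
  one := 1
  add a b := a + b
  mul a b := a * b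
  lt a b := a < b
  mem := mem

variable {M : Type} [Ar M]

/-- The recursive sets of a class. -/
def DSet (C : Cls M) : Type := {Y : Set M // Fn C fun x : M => x ∈ Y}

/-- The structure whose sets are the recursive sets of the class `C`. -/
@[reducible] def strOf (C : Cls M) : Str := mkStr M (DSet C) fun x Y => x ∈ Y.1

/-- Ramsey's theorem for pairs holds for the recursive sets of the class. -/
def RTC (C : Cls M) : Prop :=
  ∀ Y : Set M, Fn C (fun x : M => x ∈ Y) → ∃ H : Set M, Fn C (fun x : M => x ∈ H) ∧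
    (∀ x, ∃ y, x < y ∧ y ∈ H) ∧ ∃ j : Prop, ∀ x ∈ H, ∀ y ∈ H, x < y → (pair x y ∈ Y ↔ j)

theorem val_pairTm {S : Type} {mem : M → S → Prop} (v : ℕ → M) (t u : Tm) :
    (mkStr M S mem).val v (pairTm t u) =
      pair ((mkStr M S mem).val v t) ((mkStr M S mem).val v u) := rfl

end Pool.Agent.MP75f14d

end

section

/-! Iterating one-step extensions. -/

namespace Pool.Agent.MP75f14d

variable {M : Type} [Ar M]

namespace LimitX

/-- A sequence whose next term depends on the last term and on one earlier term. -/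
theorem exists_seq {X : Type} (c0 : X) (f : ℕ → X → X → X) :
    ∃ c : ℕ → X, c 0 = c0 ∧ ∀ n, c (n + 1) = f n (c n) (c (Nat.unpair n).1) := by
  let hist : ℕ → ℕ → X := fun n => Nat.rec (fun _ => c0)
    (fun n h m => if m ≤ n then h m else f n (h n) (h (Nat.unpair n).1)) n
  have hs : ∀ n m, hist (n + 1) m =
      if m ≤ n then hist n m else f n (hist n n) (hist n (Nat.unpair n).1) := fun _ _ => rfl
  have key : ∀ n m, m ≤ n → hist n m = hist m m := by
    intro n
    induction n with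
    | zero => intro m hm; rw [Nat.le_zero.1 hm]
    | succ n ih =>
      intro m hm
      rcases Nat.lt_or_eq_of_le hm with h | rfl
      · rw [hs, if_pos (Nat.lt_succ_iff.1 h), ih m (Nat.lt_succ_iff.1 h)]
      · rfl
  refine ⟨fun n => hist n n, rfl, fun n => ?_⟩
  simp only
  rw [hs, if_neg (Nat.not_succ_le_self n), key n _ (Nat.unpair_left_le n)]

/-- The union of a chain of classes. -/
def chain (c : ℕ → Cls M) (h : Monotone fun n => (c n).sets) : Cls M where
  sets := {W | ∃ n, W ∈ (c n).sets}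
  inter := fun ⟨n, h1⟩ ⟨m, h2⟩ =>
    ⟨max n m, (c _).inter (h (le_max_left n m) h1) (h (le_max_right n m) h2)⟩
  union := fun ⟨n, h1⟩ ⟨m, h2⟩ =>
    ⟨max n m, (c _).union (h (le_max_left n m) h1) (h (le_max_right n m) h2)⟩
  ex := fun ⟨n, h1⟩ => ⟨n, (c n).ex h1⟩
  ball := fun ⟨n, h1⟩ => ⟨n, (c n).ball h1⟩
  cyl := fun ⟨n, h1⟩ => ⟨n, (c n).cyl h1⟩
  swap := fun ⟨n, h1⟩ => ⟨n, (c n).swap h1⟩
  swap23 := fun ⟨n, h1⟩ => ⟨n, (c n).swap23 h1⟩
  assoc := fun ⟨n, h1⟩ => ⟨n, (c n).assoc h1⟩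
  univ := ⟨0, (c 0).univ⟩
  diag := ⟨0, (c 0).diag⟩
  sing := fun a => ⟨0, (c 0).sing a⟩
  add := ⟨0, (c 0).add⟩
  mul := ⟨0, (c 0).mul⟩
  lt := ⟨0, (c 0).lt⟩

end LimitX

/-- If every class with property `Q` (which implies countability, Sigma1 induction and Sigma2
collection) can be extended, keeping `Q`, by a homogeneous set for any given colouring, then it
can be extended to a class satisfying Ramsey's theorem for pairs. -/
theorem exists_limit (Q : Cls M → Prop)
    (hQ : ∀ C, Q C → C.sets.Countable ∧ SInd C ∧ Coll2 C)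
    (step : ∀ C, Q C → ∀ Y : Set M, Fn C (fun x : M => x ∈ Y) →
      ∃ E : Cls M, Q E ∧ C.sets ⊆ E.sets ∧ ∃ H : Set M, Fn E (fun x : M => x ∈ H) ∧
        (∀ x, ∃ y, x < y ∧ y ∈ H) ∧ ∃ j : Prop, ∀ x ∈ H, ∀ y ∈ H, x < y → (pair x y ∈ Y ↔ j))
    (C : Cls M) (hC : Q C) :
    ∃ L : Cls M, C.sets ⊆ L.sets ∧ SInd L ∧ Coll2 L ∧ RTC L := by
  have h1 : ∀ D : {D // Q D}, ∃ en : ℕ → Set M, D.1.sets = Set.range en := fun D =>
    (hQ D.1 D.2).1.exists_eq_range ⟨_, D.1.univ⟩
  choose en hen using h1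
  have h2 : ∀ (D : {D // Q D}) (Y : Set M), ∃ E : {D // Q D}, D.1.sets ⊆ E.1.sets ∧
      (Fn D.1 (fun x : M => x ∈ Y) → ∃ H : Set M, Fn E.1 (fun x : M => x ∈ H) ∧
        (∀ x, ∃ y, x < y ∧ y ∈ H) ∧
          ∃ j : Prop, ∀ x ∈ H, ∀ y ∈ H, x < y → (pair x y ∈ Y ↔ j)) := by
    intro D Y
    by_cases hY : Fn D.1 fun x : M => x ∈ Y
    · obtain ⟨E, hE, hs, hH⟩ := step D.1 D.2 Y hY
      exact ⟨⟨E, hE⟩, hs, fun _ => hH⟩
    · exact ⟨D, subset_rfl, fun h => absurd h hY⟩
  choose nx hsub hhom using h2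
  obtain ⟨c, hc0, hc⟩ := LimitX.exists_seq (⟨C, hC⟩ : {D // Q D})
    fun n D D' => nx D (en D' (Nat.unpair n).2)
  have mono : Monotone fun n => (c n).1.sets := monotone_nat_of_le_succ fun n => by
    rw [hc]; exact hsub _ _
  have sub : ∀ n, (c n).1.sets ⊆ (LimitX.chain (fun n => (c n).1) mono).sets :=
    fun n W hW => ⟨n, hW⟩
  refine ⟨LimitX.chain (fun n => (c n).1) mono, ?_, ⟨?_⟩, ⟨?_⟩, ?_⟩
  · have := sub 0
    rwa [hc0] at this
  · rintro W ⟨n, hW⟩
    exact (hQ _ (c n).2).2.1.ind W hW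
  · rintro W ⟨n, hW⟩
    exact (hQ _ (c n).2).2.2.coll W hW
  · intro Y hY
    obtain ⟨⟨a, ha⟩, ⟨b, hb⟩⟩ := fn_mem_iff.1 hY
    have ha' : Y ∈ (c (max a b)).1.sets := mono (le_max_left a b) ha
    have hb' : Yᶜ ∈ (c (max a b)).1.sets := mono (le_max_right a b) hb
    obtain ⟨k, hk⟩ : Y ∈ Set.range (en (c (max a b))) := hen _ ▸ ha'
    have hle := Nat.left_le_pair (max a b) k
    obtain ⟨H, hH, h3⟩ := hhom (c (Nat.pair (max a b) k)) Y
      (fn_mem_iff.2 ⟨mono hle ha', mono hle hb'⟩)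
    refine ⟨H, hH.mono ?_, h3⟩
    have := sub (Nat.pair (max a b) k + 1)
    rwa [hc, Nat.unpair_pair, hk] at this

end Pool.Agent.MP75f14d

end

section

/-! The recursive sets of a class with Sigma1 induction and Sigma2 collection form a model. -/

namespace Pool.Agent.MP75f14d

variable {M : Type} [Ar M]

namespace BackX

theorem fn_cons {C : Cls M} {α : Type} [Cd M α] {f : α → M} {nu : α → ℕ → M} (hf : Fn C f)
    (h : ∀ i, Fn C fun a => nu a i) : ∀ i, Fn C fun a => cons (f a) (nu a) i := by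
  intro i
  cases i with
  | zero => exact hf
  | succ i => exact h i

theorem fn_val {C : Cls M} {α : Type} [Cd M α] {nu : α → ℕ → M}
    (h : ∀ i, Fn C fun a => nu a i) (t : Tm) :
    Fn C fun a => (show M from (strOf C).val (nu a) t) := by
  induction t with
  | var n => exact h n
  | zero => exact Fn.const (0 : M)
  | one => exact Fn.const (1 : M)
  | add t u iht ihu => exact iht.add ihu
  | mul t u iht ihu => exact iht.mul ihu

theorem fn_sat {C : Cls M} (w : ℕ → DSet C) {g : Fm} (hg : Bounded g) :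
    ∀ {α : Type} [Cd M α] {nu : α → ℕ → M}, (∀ i, Fn C fun a => nu a i) →
      Fn C fun a => (strOf C).Sat g (nu a) w := by
  induction hg with
  | eq t u => intro α _ nu h; exact (fn_val h t).eq (fn_val h u)
  | lt t u => intro α _ nu h; exact (fn_val h t).lt (fn_val h u)
  | mem t k => intro α _ nu h; exact (w k).2.comp (fn_val h t)
  | bot => intro α _ nu h; exact Fn.const False
  | imp _ _ ihf ihg => intro α _ nu h; exact (ihf h).imp (ihg h)
  | @ball t f _ ih =>
    intro α _ nu h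
    have h' : ∀ i, Fn C fun p : α × M => cons p.2 (nu p.1) i :=
      fn_cons Fn.snd0 fun i => (h i).comp Fn.fst0
    exact (Fn.ball (P := fun a y => (strOf C).Sat f (cons y (nu a)) w) (fn_val h t)
      (ih h')).congr_iff fun a => (strOf C).sat_ball f (nu a) w t

theorem sig_ex {C : Cls M} (w : ℕ → DSet C) {g : Fm} (hg : Bounded g)
    {α : Type} [Cd M α] {nu : α → ℕ → M} (h : ∀ i, Fn C fun a => nu a i) :
    Sig C fun a => ∃ y : M, (strOf C).Sat g (cons y (nu a)) w :=
  Sig.ex (P := fun a (y : M) => (strOf C).Sat g (cons y (nu a)) w)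
    (fn_sat w hg (nu := fun p : α × M => cons p.2 (nu p.1))
      (fn_cons Fn.snd0 fun i => (h i).comp Fn.fst0)).sig

theorem sig_ex_not {C : Cls M} (w : ℕ → DSet C) {g : Fm} (hg : Bounded g)
    {α : Type} [Cd M α] {nu : α → ℕ → M} (h : ∀ i, Fn C fun a => nu a i) :
    Sig C fun a => ∃ y : M, ¬ (strOf C).Sat g (cons y (nu a)) w :=
  Sig.ex (P := fun a (y : M) => ¬ (strOf C).Sat g (cons y (nu a)) w)
    (fn_sat w hg (nu := fun p : α × M => cons p.2 (nu p.1))
      (fn_cons Fn.snd0 fun i => (h i).comp Fn.fst0)).sig_not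

theorem sig_sigma01 {C : Cls M} (w : ℕ → DSet C) {f : Fm} (hf : Sigma01 f) (v : ℕ → M) :
    Sig C fun a : M => (strOf C).Sat f (cons a v) w := by
  obtain ⟨g, hg, rfl⟩ := hf
  exact (sig_ex w hg (nu := fun a : M => cons a v)
    (fn_cons Fn.id' fun i => Fn.const (v i))).congr fun a => (strOf C).sat_exN g _ w

theorem sig_not_pi01 {C : Cls M} (w : ℕ → DSet C) {f : Fm} (hf : Pi01 f) (v : ℕ → M) :
    Sig C fun a : M => ¬ (strOf C).Sat f (cons a v) w := by
  obtain ⟨g, hg, rfl⟩ := hf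
  exact (sig_ex_not w hg (nu := fun a : M => cons a v)
    (fn_cons Fn.id' fun i => Fn.const (v i))).congr fun a => not_forall

theorem basic (C : Cls M) {f : Fm} (hf : f ∈ basicAx) (v : ℕ → M) (w : ℕ → DSet C) :
    (strOf C).Sat f v w := by
  simp only [basicAx, Set.mem_insert_iff, Set.mem_singleton_iff] at hf
  rcases hf with rfl | rfl | rfl | rfl | rfl | rfl | rfl | rfl
  · show ¬ (v 0 + 1 = 0)
    exact (lt_of_lt_of_le zero_lt_one le_add_self).ne'
  · show v 0 + 1 = v 1 + 1 → v 0 = v 1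
    exact add_right_cancel
  · show v 0 + 0 = v 0
    exact add_zero _
  · show v 0 + (v 1 + 1) = v 0 + v 1 + 1
    exact (add_assoc _ _ _).symm
  · show v 0 * 0 = 0
    exact mul_zero _
  · show v 0 * (v 1 + 1) = v 0 * v 1 + v 0
    exact mul_add_one _ _
  · show ¬ (v 0 < 0)
    exact not_lt_zero _
  · rw [Str.sat_iff, Str.sat_or]
    exact lt_succ_iff_lt_or_eq

theorem fstM_le (p : M) : fstM p ≤ p + 1 := mu_le _ _

theorem bnd (C : Cls M) [Coll2 C] {f : Fm} (hf : Sigma02 f) (v : ℕ → M) (w : ℕ → DSet C) :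
    (strOf C).Sat (bndAx f) v w := by
  obtain ⟨g, hg, rfl⟩ := hf
  rw [Str.sat_bndAx]
  intro h
  have hS : Sig C fun p : M × M => ∃ u : M,
      ¬ (strOf C).Sat g (cons u (cons (sndM p.2) (cons (fstM p.2) (cons p.1 v)))) w :=
    sig_ex_not w hg (nu := fun p : M × M => cons (sndM p.2) (cons (fstM p.2) (cons p.1 v)))
      (fn_cons Fn.snd0.sndM (fn_cons Fn.snd0.fstM (fn_cons Fn.fst0 fun i => Fn.const (v i))))
  obtain ⟨b, hb⟩ := Sig.coll2 (C := C) (P := fun x p : M => ∃ u : M,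
      ¬ (strOf C).Sat g (cons u (cons (sndM p) (cons (fstM p) (cons x v)))) w) hS (a := v 0)
    (fun x hx => by
      obtain ⟨y, hy⟩ := h x hx
      obtain ⟨z, hz⟩ := ((strOf C).sat_exN _ _ _).1 hy
      refine ⟨pair y z, ?_⟩
      rw [fstM_pair, sndM_pair]
      rintro ⟨u, hu⟩
      exact hu (hz u))
  refine ⟨b + 1, fun x hx => ?_⟩
  obtain ⟨p, hp, hp'⟩ := hb x hx
  refine ⟨fstM p, lt_succ_iff.2 (le_trans (fstM_le p) (lt_iff_succ_le.1 hp)), ?_⟩
  refine ((strOf C).sat_exN _ _ _).2 ⟨sndM p, fun u => ?_⟩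
  by_contra hu
  exact hp' ⟨u, hu⟩

end BackX

open BackX

theorem strOf_models (C : Cls M) [SInd C] [Coll2 C] : (strOf C).Models (RCA0 ∪ BSigma02) := by
  rintro f (((hf | ⟨f, hf, rfl⟩) | ⟨f, g, hf, hg, rfl⟩) | ⟨f, hf, rfl⟩) v w
  · exact basic C hf v w
  · rw [Str.sat_indAx]
    rintro ⟨h0, hs⟩
    exact Sig.ind (C := C) (sig_sigma01 w hf v) h0 hs
  · rw [Str.sat_compAx]
    intro h
    refine ⟨⟨{a | (strOf C).Sat f (cons a v) w}, Fn.of_sig (sig_sigma01 w hf v) ?_⟩,
      fun a => Iff.rfl⟩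
    exact (sig_not_pi01 w hg v).congr fun a => not_congr (h a)
  · exact bnd C hf v w

theorem strOf_homFm (C : Cls M) (h : RTC C) (v : ℕ → M) (w : ℕ → DSet C) :
    (strOf C).Sat homFm v w := by
  obtain ⟨H, hH, hinf, j, hj⟩ := h (w 0).1 (w 0).2
  rw [homFm, Str.sat_exS]
  refine ⟨⟨H, hH⟩, ?_⟩
  rw [Str.sat_and, Str.sat_or]
  refine ⟨fun x => ?_, ?_⟩
  · obtain ⟨y, hy, hy'⟩ := hinf x
    rw [Str.sat_exN]
    refine ⟨y, ?_⟩
    rw [Str.sat_and]
    exact ⟨hy, hy'⟩
  · by_cases hjj : j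
    · exact Or.inl fun x y hx hy hxy => (hj x hx y hy hxy).2 hjj
    · exact Or.inr fun x y hx hy hxy hp => hjj ((hj x hx y hy hxy).1 hp)

end Pool.Agent.MP75f14d

end

section

/-! The class of projections of sets of a model of RCA0 + BSigma02. -/

namespace Pool.Agent.MP75f14d

namespace ClsOfX

theorem up_sub (r : ℕ → Tm) (t : Tm) : t.up.sub (liftN r) = (t.sub r).up := by
  induction t with
  | var n => rfl
  | zero => rfl
  | one => rfl
  | add t u iht ihu =>
    show Tm.add (t.up.sub (liftN r)) (u.up.sub (liftN r)) = Tm.add (t.sub r).up (u.sub r).up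
    rw [iht, ihu]
  | mul t u iht ihu =>
    show Tm.mul (t.up.sub (liftN r)) (u.up.sub (liftN r)) = Tm.mul (t.sub r).up (u.sub r).up
    rw [iht, ihu]

theorem bd_sub {f : Fm} (h : Bounded f) : ∀ r p, Bounded (f.sub r p) := by
  induction h with
  | eq t u => intro r p; exact .eq _ _
  | lt t u => intro r p; exact .lt _ _
  | mem t k => intro r p; exact .mem _ _
  | bot => intro r p; exact .bot
  | imp _ _ ih1 ih2 => intro r p; exact .imp (ih1 r p) (ih2 r p)
  | @ball t f _ ih =>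
    intro r p
    have e : (Fm.ball t f).sub r p = Fm.ball (t.sub r) (f.sub (liftN r) p) := by
      show Fm.allN ((Fm.lt (.var 0) (t.up.sub (liftN r))).imp (f.sub (liftN r) p)) = _
      rw [up_sub]; rfl
    rw [e]
    exact .ball _ (ih _ _)

theorem bd_neg {f : Fm} (h : Bounded f) : Bounded f.neg := .imp h .bot
theorem bd_and {f g : Fm} (h : Bounded f) (h' : Bounded g) : Bounded (f.and g) :=
  bd_neg (.imp h (bd_neg h'))
theorem bd_or {f g : Fm} (h : Bounded f) (h' : Bounded g) : Bounded (f.or g) :=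
  .imp (bd_neg h) h'
theorem bd_bex (t : Tm) {f : Fm} (h : Bounded f) : Bounded (Fm.bex t f) :=
  bd_neg (.ball t (bd_neg h))

/-- A block of existential quantifiers before a bounded formula. -/
inductive S1 : Fm → Prop
  | bd {f : Fm} : Bounded f → S1 f
  | ex {f : Fm} : S1 f → S1 f.exN

/-- Skip variable 2. -/
def skip : ℕ → Tm := cons (.var 0) (cons (.var 1) fun n => .var (n + 3))

theorem sat_skip (A : Str) (g : Fm) (y x b : A.N) (v : ℕ → A.N) (w : ℕ → A.S) :
    A.Sat (g.sub skip id) (cons y (cons x (cons b v))) w ↔ A.Sat g (cons y (cons x v)) w := by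
  have : (fun n => A.val (cons y (cons x (cons b v))) (skip n)) = cons y (cons x v) := by
    funext n
    rcases n with _ | _ | n <;> rfl
  rw [Str.sat_sub, this]; rfl

variable {M : Type} [Ar M] {S : Type} {mem : M → S → Prop}

theorem skip' (g : Fm) (y x b : M) (v : ℕ → M) (w : ℕ → S) :
    (mkStr M S mem).Sat (g.sub skip id) (cons y (cons x (cons b v))) w ↔
      (mkStr M S mem).Sat g (cons y (cons x v)) w := sat_skip (mkStr M S mem) g y x b v w

theorem upN' (g : Fm) (y : M) (v : ℕ → M) (w : ℕ → S) :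
    (mkStr M S mem).Sat g.upN (cons y v) w ↔ (mkStr M S mem).Sat g v w :=
  Str.sat_upN (mkStr M S mem) g y v w

theorem lt_a (a b : M) : a < a + b + 1 := lt_succ_iff.2 le_self_add
theorem lt_b (a b : M) : b < a + b + 1 := lt_succ_iff.2 le_add_self

theorem S1.nf {f : Fm} (h : S1 f) : ∃ g, Bounded g ∧ ∀ v w,
    (mkStr M S mem).Sat f v w ↔ ∃ y, (mkStr M S mem).Sat g (cons y v) w := by
  induction h with
  | @bd f hf => exact ⟨f.upN, bd_sub hf _ _, fun v w =>
      ⟨fun h => ⟨(0 : M), (upN' _ _ _ _).2 h⟩, fun ⟨_, h⟩ => (upN' _ _ _ _).1 h⟩⟩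
  | ex _ ih =>
    obtain ⟨g, hg, e⟩ := ih
    refine ⟨Fm.bex (.var 0) (Fm.bex (.var 1) (g.sub skip id)),
      bd_bex _ (bd_bex _ (bd_sub hg _ _)), fun v w => ?_⟩
    simp only [Str.sat_exN, Str.sat_bex, e, Str.val, cons_zero, cons_one]
    constructor
    · rintro ⟨a, y, h⟩
      exact ⟨a + y + 1, a, lt_a a y, y, lt_b a y, (skip' ..).2 h⟩
    · rintro ⟨b, a, -, y, -, h⟩
      exact ⟨a, y, (skip' ..).1 h⟩

theorem comp (h : (mkStr M S mem).Models (RCA0 ∪ BSigma02)) {g : Fm} (hg : Bounded g)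
    (v : ℕ → M) (w : ℕ → S) : ∃ X, ∀ a, mem a X ↔ (mkStr M S mem).Sat g (cons a v) w := by
  have h1 := h (compAx g.upN.exN g.upN.allN)
    (Or.inl (Or.inr ⟨_, _, ⟨_, bd_sub hg _ _, rfl⟩, ⟨_, bd_sub hg _ _, rfl⟩, rfl⟩)) v w
  rw [Str.sat_compAx] at h1
  have e : ∀ a, (mkStr M S mem).Sat g.upN.exN (cons a v) w ↔ (mkStr M S mem).Sat g (cons a v) w :=
    fun a => (Str.sat_exN ..).trans
      ⟨fun ⟨_, h⟩ => (upN' _ _ _ _).1 h, fun h => ⟨(0 : M), (upN' _ _ _ _).2 h⟩⟩
  obtain ⟨X, hX⟩ := h1 fun a => (e a).trans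
    ⟨fun h _ => (upN' _ _ _ _).2 h, fun h => (upN' _ _ _ _).1 (h (0 : M))⟩
  exact ⟨X, fun a => (hX a).trans (e a)⟩

/-- Projections of the sets of the model. -/
def Pr (mem : M → S → Prop) : Set (Set M) := {W | ∃ X, ∀ x, x ∈ W ↔ ∃ y, mem (pair x y) X}

theorem pr_of (h : (mkStr M S mem).Models (RCA0 ∪ BSigma02)) (f : Fm) (v : ℕ → M) (w : ℕ → S)
    (hf : S1 f) {W : Set M} (e : ∀ x, x ∈ W ↔ (mkStr M S mem).Sat f (cons x v) w) :
    W ∈ Pr mem := by
  obtain ⟨g, hg, e'⟩ := hf.nf (mem := mem)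
  obtain ⟨X, hX⟩ := comp h (g := Fm.bex (.add (.var 0) .one) (Fm.bex (.add (.var 1) .one)
    ((Fm.eq (.var 2) (pairTm (.var 1) (.var 0))).and (g.sub skip id))))
    (bd_bex _ (bd_bex _ (bd_and (.eq _ _) (bd_sub hg _ _)))) v w
  refine ⟨X, fun x => ?_⟩
  simp only [e, e', hX, Str.sat_bex, Str.sat_and, Str.Sat, val_pairTm, Str.val,
    cons_zero, cons_one, cons_two, pair_eq_iff]
  refine exists_congr fun y => ⟨fun hy => ?_, ?_⟩
  · exact ⟨x, lt_succ_iff.2 (le_pair_left x y), y, lt_succ_iff.2 (le_pair_right x y),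
      ⟨rfl, rfl⟩, (skip' ..).2 hy⟩
  · rintro ⟨x', -, y', -, ⟨rfl, rfl⟩, hy⟩
    exact (skip' ..).1 hy

theorem coll1 (h : (mkStr M S mem).Models (RCA0 ∪ BSigma02)) (X : S) (x c : M)
    (H : ∀ y < c, ∃ z, mem (pair (pair x y) z) X) :
    ∃ b, ∀ y < c, ∃ z < b, mem (pair (pair x y) z) X := by
  have h1 := h (bndAx (Fm.mem (pairTm (pairTm (.var 5) (.var 3)) (.var 2)) 0).allN.exN)
    (Or.inr ⟨_, ⟨_, .mem _ _, rfl⟩, rfl⟩) (cons c fun _ => x) fun _ => X
  rw [Str.sat_bndAx] at h1
  simpa [Str.Sat, val_pairTm, Str.val] using h1 (by simpa [Str.Sat, val_pairTm, Str.val] using H)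

theorem coll2 (h : (mkStr M S mem).Models (RCA0 ∪ BSigma02)) (X : S) (a : M)
    (H : ∀ x < a, ∃ y, ∀ z, ¬ mem (pair (pair x y) z) X) :
    ∃ b, ∀ x < a, ∃ y < b, ∀ z, ¬ mem (pair (pair x y) z) X := by
  have h1 := h (bndAx (Fm.mem (pairTm (pairTm (.var 3) (.var 2)) (.var 0)) 0).neg.allN.exN)
    (Or.inr ⟨_, ⟨_, bd_neg (.mem _ _), rfl⟩, rfl⟩) (fun _ => a) fun _ => X
  rw [Str.sat_bndAx] at h1
  simpa [Str.Sat, val_pairTm, Str.val] using h1 (by simpa [Str.Sat, val_pairTm, Str.val] using H)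

theorem ind1 (h : (mkStr M S mem).Models (RCA0 ∪ BSigma02)) (X : S)
    (H0 : ∃ y, mem (pair 0 y) X) (Hs : ∀ x, (∃ y, mem (pair x y) X) → ∃ y, mem (pair (x + 1) y) X) :
    ∀ x, ∃ y, mem (pair x y) X := by
  have h1 := h (indAx (Fm.mem (pairTm (.var 1) (.var 0)) 0).exN)
    (Or.inl (Or.inl (Or.inr ⟨_, ⟨_, .mem _ _, rfl⟩, rfl⟩))) (fun _ => 0) fun _ => X
  rw [Str.sat_indAx] at h1
  simp only [Str.sat_exN, Str.Sat, val_pairTm, Str.val, cons_zero, cons_one] at h1
  exact h1 ⟨H0, Hs⟩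

/-- The class of projections. -/
def cls (h : (mkStr M S mem).Models (RCA0 ∪ BSigma02)) (w : ℕ → S) : Cls M where
  sets := Pr mem
  inter := by
    rintro W V ⟨X, hX⟩ ⟨Y, hY⟩
    refine pr_of h (((Fm.mem (pairTm (.var 2) (.var 1)) 0).and
      (Fm.mem (pairTm (.var 2) (.var 0)) 1)).exN.exN) (fun _ => 0) (cons X fun _ => Y)
      (.ex (.ex (.bd (bd_and (.mem _ _) (.mem _ _))))) fun x => ?_
    simp [hX, hY, Str.Sat, val_pairTm, Str.val]
  union := by
    rintro W V ⟨X, hX⟩ ⟨Y, hY⟩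
    refine pr_of h (((Fm.mem (pairTm (.var 1) (.var 0)) 0).or
      (Fm.mem (pairTm (.var 1) (.var 0)) 1)).exN) (fun _ => 0) (cons X fun _ => Y)
      (.ex (.bd (bd_or (.mem _ _) (.mem _ _)))) fun x => ?_
    simp [hX, hY, Str.Sat, val_pairTm, Str.val, exists_or]
  ex := by
    rintro W ⟨X, hX⟩
    refine pr_of h ((Fm.mem (pairTm (pairTm (.var 2) (.var 1)) (.var 0)) 0).exN.exN)
      (fun _ => 0) (fun _ => X) (.ex (.ex (.bd (.mem _ _)))) fun x => ?_
    simp [hX, Str.Sat, val_pairTm, Str.val]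
  ball := by
    rintro W ⟨X, hX⟩
    refine pr_of h (((Fm.eq (.var 3) (pairTm (.var 2) (.var 1))).and
      (Fm.ball (.var 1) (Fm.bex (.var 1)
        (Fm.mem (pairTm (pairTm (.var 4) (.var 1)) (.var 0)) 0)))).exN.exN.exN)
      (fun _ => 0) (fun _ => X)
      (.ex (.ex (.ex (.bd (bd_and (.eq _ _) (.ball _ (bd_bex _ (.mem _ _)))))))) fun p => ?_
    simp only [hX, Set.mem_ofPred_eq, Str.sat_exN, Str.sat_and, Str.sat_ball, Str.sat_bex, Str.Sat,
      val_pairTm, Str.val, cons_zero, cons_one, cons_two, cons_three, cons_four]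
    refine exists_congr fun x => exists_congr fun c => ⟨?_, ?_⟩
    · rintro ⟨e, H⟩
      obtain ⟨b, hb⟩ := coll1 h X x c H
      exact ⟨b, e, hb⟩
    · rintro ⟨b, e, hb⟩
      exact ⟨e, fun y hy => let ⟨z, _, hz⟩ := hb y hy; ⟨z, hz⟩⟩
  cyl := by
    rintro W ⟨X, hX⟩
    refine pr_of h (((Fm.eq (.var 3) (pairTm (.var 2) (.var 1))).and
      (Fm.mem (pairTm (.var 2) (.var 0)) 0)).exN.exN.exN)
      (fun _ => 0) (fun _ => X)
      (.ex (.ex (.ex (.bd (bd_and (.eq _ _) (.mem _ _)))))) fun p => ?_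
    simp only [hX, Set.mem_ofPred_eq, Str.sat_exN, Str.sat_and, Str.Sat,
      val_pairTm, Str.val, cons_zero, cons_one, cons_two, cons_three, exists_and_left]
  swap := by
    rintro W ⟨X, hX⟩
    refine pr_of h (((Fm.eq (.var 3) (pairTm (.var 1) (.var 2))).and
      (Fm.mem (pairTm (pairTm (.var 2) (.var 1)) (.var 0)) 0)).exN.exN.exN)
      (fun _ => 0) (fun _ => X)
      (.ex (.ex (.ex (.bd (bd_and (.eq _ _) (.mem _ _)))))) fun p => ?_
    simp only [hX, Set.mem_ofPred_eq, Str.sat_exN, Str.sat_and, Str.Sat,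
      val_pairTm, Str.val, cons_zero, cons_one, cons_two, cons_three, exists_and_left]
  swap23 := by
    rintro W ⟨X, hX⟩
    refine pr_of h (((Fm.eq (.var 4) (pairTm (pairTm (.var 3) (.var 1)) (.var 2))).and
      (Fm.mem (pairTm (pairTm (pairTm (.var 3) (.var 2)) (.var 1)) (.var 0)) 0)).exN.exN.exN.exN)
      (fun _ => 0) (fun _ => X)
      (.ex (.ex (.ex (.ex (.bd (bd_and (.eq _ _) (.mem _ _))))))) fun p => ?_
    simp only [hX, Set.mem_ofPred_eq, Str.sat_exN, Str.sat_and, Str.Sat,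
      val_pairTm, Str.val, cons_zero, cons_one, cons_two, cons_three, cons_four, exists_and_left]
  assoc := by
    rintro W ⟨X, hX⟩
    refine pr_of h (((Fm.eq (.var 4) (pairTm (pairTm (.var 3) (.var 2)) (.var 1))).and
      (Fm.mem (pairTm (pairTm (.var 3) (pairTm (.var 2) (.var 1))) (.var 0)) 0)).exN.exN.exN.exN)
      (fun _ => 0) (fun _ => X)
      (.ex (.ex (.ex (.ex (.bd (bd_and (.eq _ _) (.mem _ _))))))) fun p => ?_
    simp only [hX, Set.mem_ofPred_eq, Str.sat_exN, Str.sat_and, Str.Sat,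
      val_pairTm, Str.val, cons_zero, cons_one, cons_two, cons_three, cons_four, exists_and_left]
  univ := pr_of h (.eq .zero .zero) (fun _ => 0) w (.bd (.eq _ _)) fun x => by simp [Str.Sat]
  diag := pr_of h (Fm.eq (.var 1) (pairTm (.var 0) (.var 0))).exN (fun _ => 0) w
    (.ex (.bd (.eq _ _))) fun x => by simp [Str.Sat, val_pairTm, Str.val]
  sing c := pr_of h (Fm.eq (.var 0) (.var 1)) (fun _ => c) w
    (.bd (.eq _ _)) fun x => by simp [Str.Sat, Str.val]
  add := pr_of h (Fm.eq (.var 2)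
      (pairTm (pairTm (.var 1) (.var 0)) (.add (.var 1) (.var 0)))).exN.exN (fun _ => 0) w
    (.ex (.ex (.bd (.eq _ _)))) fun x => by simp [Str.Sat, val_pairTm, Str.val]
  mul := pr_of h (Fm.eq (.var 2)
      (pairTm (pairTm (.var 1) (.var 0)) (.mul (.var 1) (.var 0)))).exN.exN (fun _ => 0) w
    (.ex (.ex (.bd (.eq _ _)))) fun x => by simp [Str.Sat, val_pairTm, Str.val]
  lt := pr_of h ((Fm.eq (.var 2) (pairTm (.var 1) (.var 0))).and
      (.lt (.var 1) (.var 0))).exN.exN (fun _ => 0) w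
    (.ex (.ex (.bd (bd_and (.eq _ _) (.lt _ _))))) fun x => by
      simp [Str.Sat, val_pairTm, Str.val]

end ClsOfX

theorem exists_cls {M : Type} [Ar M] {S : Type} {mem : M → S → Prop}
    (h : (mkStr M S mem).Models (RCA0 ∪ BSigma02)) (w : ℕ → S) :
    ∃ C : Cls M, SInd C ∧ Coll2 C ∧ ∀ X : S, Fn C fun x : M => mem x X := by
  refine ⟨ClsOfX.cls h w, ⟨?_⟩, ⟨?_⟩, fun X => ?_⟩
  · rintro W ⟨X, hX⟩ h0 hs x
    simp only [hX] at h0 hs ⊢
    exact ClsOfX.ind1 h X h0 hs x
  · rintro W ⟨X, hX⟩ a H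
    simp only [hX, not_exists] at H ⊢
    exact ClsOfX.coll2 h X a H
  · refine (fn_mem_iff (W := {x | mem x X})).2 ⟨?_, ?_⟩
    · exact ClsOfX.pr_of h (.mem (.var 0) 0) (fun _ => 0) (fun _ => X) (.bd (.mem _ _))
        fun x => Iff.rfl
    · exact ClsOfX.pr_of h (Fm.mem (.var 0) 0).neg (fun _ => 0) (fun _ => X)
        (.bd (ClsOfX.bd_neg (.mem _ _))) fun x => Iff.rfl

end Pool.Agent.MP75f14d

end

section

/-! The number part of a model of RCA0 is a discretely ordered semiring. -/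

namespace Pool.Agent.MP75f14d

namespace ArOfX

variable {A : Str} (hA : A.Models RCA0) (w : ℕ → A.S)
include hA w

theorem ind (g : Fm) (hg : Bounded g) (v : ℕ → A.N) {P : A.N → Prop}
    (hP : ∀ a, P a ↔ ∃ z, A.Sat g (cons z (cons a v)) w) (h0 : P A.zero)
    (hs : ∀ a, P a → P (A.add a A.one)) (a : A.N) : P a := by
  have := (A.sat_indAx g.exN v w).1 (hA _ (Or.inl (Or.inr ⟨_, ⟨g, hg, rfl⟩, rfl⟩)) v w)
  simp only [Str.sat_exN, ← hP] at this
  exact this ⟨h0, hs⟩ a

theorem ind_eq (t u : Tm) (b c : A.N)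
    (h0 : A.val (cons A.zero (cons b fun _ => c)) t = A.val (cons A.zero (cons b fun _ => c)) u)
    (hs : ∀ a, A.val (cons a (cons b fun _ => c)) t = A.val (cons a (cons b fun _ => c)) u →
      A.val (cons (A.add a A.one) (cons b fun _ => c)) t =
        A.val (cons (A.add a A.one) (cons b fun _ => c)) u) (a : A.N) :
    A.val (cons a (cons b fun _ => c)) t = A.val (cons a (cons b fun _ => c)) u :=
  ind hA w (.eq t.up u.up) (.eq _ _) (cons b fun _ => c)
    (P := fun a => A.val (cons a (cons b fun _ => c)) t = A.val (cons a (cons b fun _ => c)) u)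
    (fun a => by simp only [Str.Sat, Str.val_up]; exact ⟨fun h => ⟨a, h⟩, fun ⟨_, h⟩ => h⟩)
    h0 hs a

theorem basic {f : Fm} (hf : f ∈ basicAx) (a b : A.N) : A.Sat f (cons a fun _ => b) w :=
  hA _ (Or.inl (Or.inl hf)) _ _

theorem s_ne (a : A.N) : A.add a A.one ≠ A.zero :=
  basic hA w (Or.inl rfl) a a

theorem s_inj {a b : A.N} : A.add a A.one = A.add b A.one → a = b :=
  basic hA w (Or.inr (Or.inl rfl)) a b

theorem a0 (a : A.N) : A.add a A.zero = a :=
  basic hA w (Or.inr (Or.inr (Or.inl rfl))) a a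

theorem aS (a b : A.N) : A.add a (A.add b A.one) = A.add (A.add a b) A.one :=
  basic hA w (Or.inr (Or.inr (Or.inr (Or.inl rfl)))) a b

theorem m0 (a : A.N) : A.mul a A.zero = A.zero :=
  basic hA w (Or.inr (Or.inr (Or.inr (Or.inr (Or.inl rfl))))) a a

theorem mS (a b : A.N) : A.mul a (A.add b A.one) = A.add (A.mul a b) a :=
  basic hA w (Or.inr (Or.inr (Or.inr (Or.inr (Or.inr (Or.inl rfl)))))) a b

theorem l0 (a : A.N) : ¬ A.lt a A.zero :=
  basic hA w (Or.inr (Or.inr (Or.inr (Or.inr (Or.inr (Or.inr (Or.inl rfl))))))) a a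

theorem lS (a b : A.N) : A.lt a (A.add b A.one) ↔ A.lt a b ∨ a = b := by
  have := basic hA w (Or.inr (Or.inr (Or.inr (Or.inr (Or.inr (Or.inr (Or.inr rfl))))))) a b
  rw [Str.sat_iff, Str.sat_or] at this
  exact this

theorem za (a : A.N) : A.add A.zero a = a :=
  ind_eq hA w (.add .zero (.var 0)) (.var 0) a a (a0 hA w _)
    (fun x (h : A.add A.zero x = x) =>
      show A.add A.zero (A.add x A.one) = A.add x A.one by rw [aS hA w, h]) a

theorem sa (a b : A.N) : A.add (A.add a A.one) b = A.add (A.add a b) A.one :=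
  ind_eq hA w (.add (.add (.var 1) .one) (.var 0)) (.add (.add (.var 1) (.var 0)) .one) a a
    (show A.add (A.add a A.one) A.zero = A.add (A.add a A.zero) A.one by
      rw [a0 hA w, a0 hA w])
    (fun x (h : A.add (A.add a A.one) x = A.add (A.add a x) A.one) =>
      show A.add (A.add a A.one) (A.add x A.one) = A.add (A.add a (A.add x A.one)) A.one by
        rw [aS hA w, h, aS hA w a x]) b

theorem ac (a b : A.N) : A.add a b = A.add b a :=
  ind_eq hA w (.add (.var 1) (.var 0)) (.add (.var 0) (.var 1)) a a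
    (show A.add a A.zero = A.add A.zero a by rw [a0 hA w, za hA w])
    (fun x (h : A.add a x = A.add x a) =>
      show A.add a (A.add x A.one) = A.add (A.add x A.one) a by
        rw [aS hA w, h, sa hA w x a]) b

theorem aa (a b c : A.N) : A.add (A.add a b) c = A.add a (A.add b c) :=
  ind_eq hA w (.add (.add (.var 1) (.var 2)) (.var 0)) (.add (.var 1) (.add (.var 2) (.var 0))) a b
    (show A.add (A.add a b) A.zero = A.add a (A.add b A.zero) by rw [a0 hA w, a0 hA w])
    (fun x (h : A.add (A.add a b) x = A.add a (A.add b x)) =>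
      show A.add (A.add a b) (A.add x A.one) = A.add a (A.add b (A.add x A.one)) by
        rw [aS hA w, h, aS hA w b x, aS hA w a]) c

theorem zm (a : A.N) : A.mul A.zero a = A.zero :=
  ind_eq hA w (.mul .zero (.var 0)) .zero a a (m0 hA w _)
    (fun x (h : A.mul A.zero x = A.zero) =>
      show A.mul A.zero (A.add x A.one) = A.zero by rw [mS hA w, h, a0 hA w]) a

theorem m1 (a : A.N) : A.mul a A.one = a := by
  have := mS hA w a A.zero
  rwa [za hA w, m0 hA w, za hA w] at this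

theorem ld (a b c : A.N) : A.mul a (A.add b c) = A.add (A.mul a b) (A.mul a c) :=
  ind_eq hA w (.mul (.var 1) (.add (.var 2) (.var 0)))
    (.add (.mul (.var 1) (.var 2)) (.mul (.var 1) (.var 0))) a b
    (show A.mul a (A.add b A.zero) = A.add (A.mul a b) (A.mul a A.zero) by
      rw [a0 hA w, m0 hA w, a0 hA w])
    (fun x (h : A.mul a (A.add b x) = A.add (A.mul a b) (A.mul a x)) =>
      show A.mul a (A.add b (A.add x A.one)) = A.add (A.mul a b) (A.mul a (A.add x A.one)) by
        rw [aS hA w, mS hA w, h, mS hA w, aa hA w]) c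

theorem sm (a b : A.N) : A.mul (A.add a A.one) b = A.add (A.mul a b) b :=
  ind_eq hA w (.mul (.add (.var 1) .one) (.var 0)) (.add (.mul (.var 1) (.var 0)) (.var 0)) a a
    (show A.mul (A.add a A.one) A.zero = A.add (A.mul a A.zero) A.zero by
      rw [m0 hA w, m0 hA w, a0 hA w])
    (fun x (h : A.mul (A.add a A.one) x = A.add (A.mul a x) x) =>
      show A.mul (A.add a A.one) (A.add x A.one) =
          A.add (A.mul a (A.add x A.one)) (A.add x A.one) by
        rw [mS hA w, h, mS hA w, aS hA w, aS hA w, aa hA w _ x a, aa hA w _ a x, ac hA w x a]) b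

theorem mc (a b : A.N) : A.mul a b = A.mul b a :=
  ind_eq hA w (.mul (.var 1) (.var 0)) (.mul (.var 0) (.var 1)) a a
    (show A.mul a A.zero = A.mul A.zero a by rw [m0 hA w, zm hA w])
    (fun x (h : A.mul a x = A.mul x a) =>
      show A.mul a (A.add x A.one) = A.mul (A.add x A.one) a by
        rw [mS hA w, h, sm hA w x a]) b

theorem ma (a b c : A.N) : A.mul (A.mul a b) c = A.mul a (A.mul b c) :=
  ind_eq hA w (.mul (.mul (.var 1) (.var 2)) (.var 0)) (.mul (.var 1) (.mul (.var 2) (.var 0))) a b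
    (show A.mul (A.mul a b) A.zero = A.mul a (A.mul b A.zero) by
      rw [m0 hA w, m0 hA w, m0 hA w])
    (fun x (h : A.mul (A.mul a b) x = A.mul a (A.mul b x)) =>
      show A.mul (A.mul a b) (A.add x A.one) = A.mul a (A.mul b (A.add x A.one)) by
        rw [mS hA w, h, mS hA w b x, ld hA w]) c

theorem cancel {a b c : A.N} : A.add a c = A.add b c → a = b :=
  ind hA w ((Fm.eq (.add (.var 2) (.var 1)) (.add (.var 3) (.var 1))).imp (.eq (.var 2) (.var 3)))
    (.imp (.eq _ _) (.eq _ _)) (cons a fun _ => b) (P := fun c => A.add a c = A.add b c → a = b)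
    (fun x => ⟨fun h => ⟨x, h⟩, fun ⟨_, h⟩ => h⟩)
    (fun h => by rwa [a0 hA w, a0 hA w] at h)
    (fun x ih h => ih (s_inj hA w (by rwa [aS hA w, aS hA w] at h))) c

theorem zs (a : A.N) : ∃ b, a ≠ A.zero → a = A.add b A.one :=
  ind hA w ((Fm.eq (.var 1) .zero).neg.imp (.eq (.var 1) (.add (.var 0) .one)))
    (.imp (.imp (.eq _ _) .bot) (.eq _ _)) (fun _ => a)
    (P := fun a => ∃ b, a ≠ A.zero → a = A.add b A.one) (fun _ => Iff.rfl)
    ⟨a, fun h => absurd rfl h⟩ (fun x _ => ⟨x, fun _ => rfl⟩) a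

theorem lt_iff (a b : A.N) : A.lt a b ↔ ∃ z, b = A.add (A.add a z) A.one := by
  constructor
  · intro h
    have := ind hA w ((Fm.lt (.var 2) (.var 1)).imp
        (.eq (.var 1) (.add (.add (.var 2) (.var 0)) .one))) (.imp (.lt _ _) (.eq _ _))
      (fun _ => a) (P := fun b => ∃ z, A.lt a b → b = A.add (A.add a z) A.one) (fun _ => Iff.rfl)
      ⟨a, fun h => absurd h (l0 hA w a)⟩ (fun x ⟨z, hz⟩ => by
        by_cases e : a = x
        · exact ⟨A.zero, fun _ => by rw [a0 hA w, e]⟩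
        · exact ⟨A.add z A.one, fun h => by
            rw [aS hA w, ← hz (((lS hA w _ _).1 h).resolve_right e)]⟩) b
    exact this.imp fun _ hz => hz h
  · rintro ⟨z, rfl⟩
    exact ind hA w (.lt (.var 2) (.add (.add (.var 2) (.var 1)) .one)) (.lt _ _) (fun _ => a)
      (P := fun z => A.lt a (A.add (A.add a z) A.one))
      (fun x => ⟨fun h => ⟨x, h⟩, fun ⟨_, h⟩ => h⟩)
      ((lS hA w _ _).2 (Or.inr (a0 hA w a).symm))
      (fun x h => (lS hA w _ _).2 (Or.inl (by rwa [aS hA w]))) z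

theorem tot (a b : A.N) : ∃ z, b ≠ A.add a z → a = A.add b z :=
  ind hA w ((Fm.eq (.var 2) (.add (.var 1) (.var 0))).neg.imp
      (.eq (.var 1) (.add (.var 2) (.var 0)))) (.imp (.imp (.eq _ _) .bot) (.eq _ _))
    (fun _ => b) (P := fun a => ∃ z, b ≠ A.add a z → a = A.add b z) (fun _ => Iff.rfl)
    ⟨b, fun h => absurd (za hA w b).symm h⟩ (fun x ⟨z, hz⟩ => by
      by_cases e : b = A.add x z
      · obtain ⟨y, hy⟩ := zs hA w z
        by_cases e0 : z = A.zero
        · exact ⟨A.one, fun _ => by rw [e, e0, a0 hA w]⟩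
        · exact ⟨y, fun h => absurd (by rw [e, sa hA w, ← aS hA w, ← hy e0]) h⟩
      · exact ⟨A.add z A.one, fun _ => by rw [aS hA w, ← hz e]⟩) a

/-- The semiring of numbers. -/
@[reducible] def csr : CommSemiring A.N where
  add := A.add
  zero := A.zero
  mul := A.mul
  one := A.one
  add_assoc := aa hA w
  zero_add := za hA w
  add_zero := a0 hA w
  nsmul := @nsmulRec _ ⟨A.zero⟩ ⟨A.add⟩
  add_comm := ac hA w
  left_distrib := ld hA w
  right_distrib a b c := (mc hA w _ _).trans ((ld hA w _ _ _).trans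
    (congrArg₂ A.add (mc hA w _ _) (mc hA w _ _)))
  zero_mul := zm hA w
  mul_zero := m0 hA w
  mul_assoc := ma hA w
  one_mul a := (mc hA w _ _).trans (m1 hA w a)
  mul_one := m1 hA w
  mul_comm := mc hA w

end ArOfX

open ArOfX in
theorem exists_ar (A : Str) (hA : A.Models RCA0) (w : ℕ → A.S) :
    ∃ _ : Ar A.N, A = mkStr A.N A.S A.mem := by
  classical
  let cs := csr hA w
  have sne : ∀ a : A.N, a + 1 ≠ 0 := s_ne hA w
  have can : ∀ {a b c : A.N}, c + a = c + b → a = b := fun {a b c} h =>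
    cancel hA w (c := c) ((add_comm a c).trans (h.trans (add_comm c b)))
  have zs' : ∀ a : A.N, a = 0 ∨ ∃ b, a = b + 1 := fun a =>
    or_iff_not_imp_left.2 fun h => (zs hA w a).imp fun _ hb => hb h
  have lti : ∀ a b : A.N, A.lt a b ↔ ∃ z, b = a + z + 1 := lt_iff hA w
  let lo : LinearOrder A.N :=
    { le := fun a b => ∃ c, b = a + c
      lt := A.lt
      le_refl := fun a => ⟨0, (add_zero a).symm⟩
      le_trans := fun a b c ⟨x, hx⟩ ⟨y, hy⟩ => ⟨x + y, by rw [hy, hx, add_assoc]⟩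
      lt_iff_le_not_ge := fun a b => by
        rw [lti]
        constructor
        · rintro ⟨z, rfl⟩
          refine ⟨⟨z + 1, add_assoc _ _ _⟩, fun ⟨c, hc⟩ => sne (z + c) (can (c := a) ?_)⟩
          rw [add_zero]; conv_rhs => rw [hc]
          ring
        · rintro ⟨⟨c, rfl⟩, h⟩
          rcases zs' c with rfl | ⟨y, rfl⟩
          · exact absurd ⟨0, by rw [add_zero, add_zero]⟩ h
          · exact ⟨y, (add_assoc _ _ _).symm⟩
      le_antisymm := fun a b ⟨x, hx⟩ ⟨y, hy⟩ => by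
        rcases zs' x with rfl | ⟨z, rfl⟩
        · rw [hx, add_zero]
        · refine absurd (can (c := a) ?_) (sne (z + y))
          rw [add_zero]; conv_rhs => rw [hy, hx]
          ring
      le_total := fun a b => by
        obtain ⟨z, hz⟩ := tot hA w a b
        by_cases e : b = A.add a z
        · exact Or.inl ⟨z, e⟩
        · exact Or.inr ⟨z, hz e⟩
      toDecidableLE := fun _ _ => Classical.propDecidable _ }
  have mlt : ∀ a b c : A.N, 0 < a → b < c → a * b < a * c := fun a b c ha h => by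
    obtain ⟨y, rfl⟩ := (lti _ _).1 ha
    obtain ⟨z, rfl⟩ := (lti _ _).1 h
    exact (lti _ _).2 ⟨(y + 1) * z + y, by ring⟩
  have sor : IsStrictOrderedRing A.N :=
    { add_le_add_left := fun a b ⟨x, hx⟩ c => ⟨x, by rw [hx]; ring⟩
      le_of_add_le_add_left := fun a b c ⟨x, hx⟩ => ⟨x, can (hx.trans (add_assoc _ _ _))⟩
      zero_le_one := ⟨1, (zero_add 1).symm⟩
      exists_pair_ne := ⟨0 + 1, 0, sne 0⟩
      mul_lt_mul_of_pos_left := fun a ha b c h => mlt a b c ha h
      mul_lt_mul_of_pos_right := fun a ha b c h => by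
        rw [mul_comm b, mul_comm c]; exact mlt a b c ha h }
  have coa : CanonicallyOrderedAdd A.N :=
    { exists_add_of_le := fun h => h
      le_add_self := fun a b => ⟨b, add_comm _ _⟩
      le_self_add := fun a b => ⟨b, rfl⟩ }
  obtain ⟨R, r, o, ro, i, hi⟩ := exists_ring A.N
  exact ⟨{ cs, lo with
    sor := sor
    can := coa
    disc := fun a b h => ((lti a b).1 h).imp fun z hz => by rw [hz]; ring
    R := R
    ring := r
    ord := o
    rsor := ro
    io := i
    io_le := hi }, rfl⟩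

end Pool.Agent.MP75f14d

end

section

/-! The completeness theorem, with countable models. -/

namespace Pool.Agent.MP75f14d

namespace CompleteX

/-- A code of a term. -/
def encT : Tm → ℕ
  | .var n => Nat.pair 0 n
  | .zero => Nat.pair 1 0
  | .one => Nat.pair 2 0
  | .add t u => Nat.pair 3 (Nat.pair (encT t) (encT u))
  | .mul t u => Nat.pair 4 (Nat.pair (encT t) (encT u))

theorem encT_inj (t : Tm) : ∀ u, encT t = encT u → t = u := by
  induction t with
  | add t u h1 h2 =>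
    intro v h
    cases v <;> simp only [encT, Nat.pair_eq_pair] at h <;> try omega
    rw [h1 _ h.2.1, h2 _ h.2.2]
  | mul t u h1 h2 =>
    intro v h
    cases v <;> simp only [encT, Nat.pair_eq_pair] at h <;> try omega
    rw [h1 _ h.2.1, h2 _ h.2.2]
  | var n =>
    intro v h
    cases v <;> simp only [encT, Nat.pair_eq_pair] at h <;> try omega
    rw [h.2]
  | zero => intro v h; cases v <;> simp only [encT, Nat.pair_eq_pair] at h <;> first | rfl | omega
  | one => intro v h; cases v <;> simp only [encT, Nat.pair_eq_pair] at h <;> first | rfl | omega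

/-- A code of a formula. -/
def encF : Fm → ℕ
  | .eq t u => Nat.pair 0 (Nat.pair (encT t) (encT u))
  | .lt t u => Nat.pair 1 (Nat.pair (encT t) (encT u))
  | .mem t k => Nat.pair 2 (Nat.pair (encT t) k)
  | .bot => Nat.pair 3 0
  | .imp f g => Nat.pair 4 (Nat.pair (encF f) (encF g))
  | .allN f => Nat.pair 5 (encF f)
  | .allS f => Nat.pair 6 (encF f)

theorem encF_inj (f : Fm) : ∀ g, encF f = encF g → f = g := by
  induction f with
  | eq t u =>
    intro v h
    cases v <;> simp only [encF, Nat.pair_eq_pair] at h <;> try omega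
    rw [encT_inj _ _ h.2.1, encT_inj _ _ h.2.2]
  | lt t u =>
    intro v h
    cases v <;> simp only [encF, Nat.pair_eq_pair] at h <;> try omega
    rw [encT_inj _ _ h.2.1, encT_inj _ _ h.2.2]
  | mem t k =>
    intro v h
    cases v <;> simp only [encF, Nat.pair_eq_pair] at h <;> try omega
    rw [encT_inj _ _ h.2.1, h.2.2]
  | bot => intro v h; cases v <;> simp only [encF, Nat.pair_eq_pair] at h <;> first | rfl | omega
  | imp f g h1 h2 =>
    intro v h
    cases v <;> simp only [encF, Nat.pair_eq_pair] at h <;> try omega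
    rw [h1 _ h.2.1, h2 _ h.2.2]
  | allN f h1 =>
    intro v h
    cases v <;> simp only [encF, Nat.pair_eq_pair] at h <;> try omega
    rw [h1 _ h.2]
  | allS f h1 =>
    intro v h
    cases v <;> simp only [encF, Nat.pair_eq_pair] at h <;> try omega
    rw [h1 _ h.2]

theorem countT : Countable Tm := ⟨encT, fun a b => encT_inj a b⟩
theorem countF : Countable Fm := ⟨encF, fun a b => encF_inj a b⟩

theorem tsub_sub (t : Tm) (r r' : ℕ → Tm) : (t.sub r).sub r' = t.sub fun n => (r n).sub r' := by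
  induction t with
  | add t u h1 h2 => simp only [Tm.sub, h1, h2]
  | mul t u h1 h2 => simp only [Tm.sub, h1, h2]
  | _ => rfl

theorem tsub_var (t : Tm) : t.sub .var = t := by
  induction t with
  | add t u h1 h2 => simp only [Tm.sub, h1, h2]
  | mul t u h1 h2 => simp only [Tm.sub, h1, h2]
  | _ => rfl

theorem up_cons (t a : Tm) (r : ℕ → Tm) : t.up.sub (cons a r) = t.sub r := tsub_sub _ _ _

theorem up_inst (t a : Tm) : t.up.sub (cons a .var) = t := (up_cons _ _ _).trans (tsub_var t)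

theorem sub_sub (f : Fm) : ∀ (r r' : ℕ → Tm) (p p' : ℕ → ℕ),
    (f.sub r p).sub r' p' = f.sub (fun n => (r n).sub r') fun n => p' (p n) := by
  induction f with
  | imp f g h1 h2 => intro r r' p p'; simp only [Fm.sub, h1, h2]
  | allN f h =>
    intro r r' p p'
    simp only [Fm.sub, h]
    congr 2
    funext n
    cases n with
    | zero => rfl
    | succ n => exact (tsub_sub _ _ _).trans (tsub_sub (r n) r' fun n => .var (n + 1)).symm
  | allS f h =>
    intro r r' p p'
    simp only [Fm.sub, h]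
    congr 2
    funext n
    cases n <;> rfl
  | bot => intro r r' p p'; rfl
  | _ => intro r r' p p'; simp only [Fm.sub, tsub_sub]

theorem sub_var (f : Fm) : f.sub .var id = f := by
  have e1 : liftN .var = .var := by funext n; cases n <;> rfl
  have e2 : liftS id = id := by funext n; cases n <;> rfl
  induction f with
  | imp f g h1 h2 => simp only [Fm.sub, h1, h2]
  | allN f h => simp only [Fm.sub, e1, h]
  | allS f h => simp only [Fm.sub, e2, h]
  | bot => rfl
  | _ => simp only [Fm.sub, tsub_var, id]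

theorem tbound (t : Tm) : ∃ b, ∀ r r' : ℕ → Tm, (∀ n < b, r n = r' n) → t.sub r = t.sub r' := by
  induction t with
  | var n => exact ⟨n + 1, fun r r' h => h n n.lt_succ_self⟩
  | zero => exact ⟨0, fun _ _ _ => rfl⟩
  | one => exact ⟨0, fun _ _ _ => rfl⟩
  | add t u h1 h2 =>
    obtain ⟨a, ha⟩ := h1
    obtain ⟨b, hb⟩ := h2
    exact ⟨a + b, fun r r' h => by
      rw [Tm.sub, Tm.sub, ha r r' fun n hn => h n (by omega), hb r r' fun n hn => h n (by omega)]⟩
  | mul t u h1 h2 =>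
    obtain ⟨a, ha⟩ := h1
    obtain ⟨b, hb⟩ := h2
    exact ⟨a + b, fun r r' h => by
      rw [Tm.sub, Tm.sub, ha r r' fun n hn => h n (by omega), hb r r' fun n hn => h n (by omega)]⟩

theorem bound (f : Fm) : ∃ b, ∀ (r r' : ℕ → Tm) (p p' : ℕ → ℕ), (∀ n < b, r n = r' n) →
    (∀ n < b, p n = p' n) → f.sub r p = f.sub r' p' := by
  induction f with
  | eq t u =>
    obtain ⟨a, ha⟩ := tbound t
    obtain ⟨b, hb⟩ := tbound u
    exact ⟨a + b, fun r r' p p' h _ => by
      rw [Fm.sub, Fm.sub, ha r r' fun n hn => h n (by omega), hb r r' fun n hn => h n (by omega)]⟩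
  | lt t u =>
    obtain ⟨a, ha⟩ := tbound t
    obtain ⟨b, hb⟩ := tbound u
    exact ⟨a + b, fun r r' p p' h _ => by
      rw [Fm.sub, Fm.sub, ha r r' fun n hn => h n (by omega), hb r r' fun n hn => h n (by omega)]⟩
  | mem t k =>
    obtain ⟨a, ha⟩ := tbound t
    exact ⟨a + k + 1, fun r r' p p' h h' => by
      rw [Fm.sub, Fm.sub, ha r r' fun n hn => h n (by omega), h' k (by omega)]⟩
  | bot => exact ⟨0, fun _ _ _ _ _ _ => rfl⟩
  | imp f g h1 h2 =>
    obtain ⟨a, ha⟩ := h1
    obtain ⟨b, hb⟩ := h2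
    exact ⟨a + b, fun r r' p p' h h' => by
      rw [Fm.sub, Fm.sub, ha r r' p p' (fun n hn => h n (by omega)) fun n hn => h' n (by omega),
        hb r r' p p' (fun n hn => h n (by omega)) fun n hn => h' n (by omega)]⟩
  | allN f h1 =>
    obtain ⟨a, ha⟩ := h1
    refine ⟨a, fun r r' p p' h h' => congrArg Fm.allN (ha _ _ _ _ (fun n hn => ?_) h')⟩
    cases n with
    | zero => rfl
    | succ n => exact congrArg Tm.up (h n (by omega))
  | allS f h1 =>
    obtain ⟨a, ha⟩ := h1
    refine ⟨a, fun r r' p p' h h' => congrArg Fm.allS (ha _ _ _ _ h fun n hn => ?_)⟩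
    cases n with
    | zero => rfl
    | succ n => exact congrArg (· + 1) (h' n (by omega))

variable {T : Set Fm}

theorem freshN (d g : Fm) :
    ∃ x, Prov T (d.imp (g.instN (.var x))) → Prov T (d.imp g.allN) := by
  obtain ⟨a, ha⟩ := bound d
  obtain ⟨b, hb⟩ := bound g
  refine ⟨a + b, fun h => Prov.genN ?_⟩
  have h1 := Prov.subst (fun y => if y = a + b then .var 0 else .var (y + 1)) id h
  have e : (g.instN (.var (a + b))).sub
      (fun y => if y = a + b then .var 0 else .var (y + 1)) id = g := by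
    refine (sub_sub _ _ _ _ _).trans ((hb _ .var _ id (fun n hn => ?_) fun _ _ => rfl).trans
      (sub_var g))
    cases n with
    | zero => exact if_pos rfl
    | succ n => exact if_neg (by omega)
  rw [Fm.sub, ha _ (fun n => .var (n + 1)) id id (fun n hn => if_neg (by omega)) fun _ _ => rfl,
    e] at h1
  exact h1

theorem freshS (d g : Fm) : ∃ x, Prov T (d.imp (g.instS x)) → Prov T (d.imp g.allS) := by
  obtain ⟨a, ha⟩ := bound d
  obtain ⟨b, hb⟩ := bound g
  refine ⟨a + b, fun h => Prov.genS ?_⟩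
  have h1 := Prov.subst .var (fun y => if y = a + b then 0 else y + 1) h
  have e : (g.instS (a + b)).sub .var (fun y => if y = a + b then 0 else y + 1) = g := by
    refine (sub_sub _ _ _ _ _).trans ((hb _ .var _ id (fun _ _ => rfl) fun n hn => ?_).trans
      (sub_var g))
    cases n with
    | zero => exact if_pos rfl
    | succ n => exact if_neg (show ¬ n = a + b by omega)
  rw [Fm.sub, ha _ .var _ (fun n => n + 1) (fun _ _ => rfl) fun n hn => if_neg (by omega),
    e] at h1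
  exact h1

theorem imp_self (a : Fm) : Prov T (a.imp a) :=
  ((Prov.s a (a.imp a) a).mp (.k _ _)).mp (.k _ _)

/-- Propositional derivations from hypotheses. -/
inductive Der (T : Set Fm) (L : List Fm) : Fm → Prop
  | thm {f : Fm} : Prov T f → Der T L f
  | hyp {f : Fm} : f ∈ L → Der T L f
  | mp {f g : Fm} : Der T L (f.imp g) → Der T L f → Der T L g

theorem Der.ded {L : List Fm} {a b : Fm} (h : Der T (a :: L) b) : Der T L (a.imp b) := by
  induction h with
  | thm h => exact .thm ((Prov.k _ _).mp h)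
  | hyp h =>
    rcases List.mem_cons.1 h with rfl | h
    · exact .thm (imp_self _)
    · exact .mp (.thm (.k _ _)) (.hyp h)
  | mp _ _ h1 h2 => exact .mp (.mp (.thm (.s _ _ _)) h1) h2

theorem Der.prov {b : Fm} (h : Der T [] b) : Prov T b := by
  induction h with
  | thm h => exact h
  | hyp h => cases h
  | mp _ _ h1 h2 => exact h1.mp h2

theorem Der.h0 {L : List Fm} {a : Fm} : Der T (a :: L) a := .hyp (by simp)
theorem Der.h1 {L : List Fm} {a b : Fm} : Der T (b :: a :: L) a := .hyp (by simp)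
theorem Der.h2 {L : List Fm} {a b c : Fm} : Der T (c :: b :: a :: L) a := .hyp (by simp)

theorem Der.contra {L : List Fm} {a : Fm} (h : Der T (a.neg :: L) .bot) : Der T L a :=
  .mp (.thm (.dne a)) h.ded

theorem and_l (a b : Fm) : Prov T ((a.and b).imp a) :=
  (Der.contra (Der.mp .h1 (Der.mp .h2 .h1).ded.ded)).ded.prov

theorem and_r (a b : Fm) : Prov T ((a.and b).imp b) :=
  (Der.contra (Der.mp .h1 Der.h1.ded)).ded.prov

theorem curry {a b c : Fm} (h : Prov T ((a.and b).imp c)) : Prov T (a.imp (b.imp c)) :=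
  (Der.mp (.thm h) (Der.mp (.mp .h0 .h2) .h1).ded).ded.ded.prov

theorem ptrans {a b c : Fm} (h : Prov T (a.imp b)) (h' : Prov T (b.imp c)) : Prov T (a.imp c) :=
  (Der.mp (.thm h') (.mp (.thm h) .h0)).ded.prov

theorem pmp {a b c : Fm} (h : Prov T (a.imp (b.imp c))) (h' : Prov T (a.imp b)) :
    Prov T (a.imp c) := ((Prov.s _ _ _).mp h).mp h'

/-- `c` decides `f`, with witnesses. -/
def Dec (T : Set Fm) (c f : Fm) : Prop :=
  Prov T (c.imp f) ∨ Prov T (c.imp f.neg) ∧
    (∀ g, f = .allN g → ∃ t, Prov T (c.imp (g.instN t).neg)) ∧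
    ∀ g, f = .allS g → ∃ k, Prov T (c.imp (g.instS k).neg)

theorem ext_step {c : Fm} (hc : ¬ Prov T c.neg) (f : Fm) :
    ∃ c', ¬ Prov T c'.neg ∧ Prov T (c'.imp c) ∧ Dec T c' f := by
  by_cases h : Prov T (c.imp f)
  · exact ⟨c, hc, imp_self c, Or.inl h⟩
  have key : ∀ {a b : Fm}, ¬ Prov T (a.imp b) → ¬ Prov T (a.and b.neg).neg := fun h h' =>
    h (ptrans (curry h') (.dne _))
  by_cases h1 : ∃ g, f = .allN g
  · obtain ⟨g, rfl⟩ := h1
    obtain ⟨x, hx⟩ := freshN (T := T) c g
    refine ⟨_, key fun h' => h (hx h'), and_l _ _, Or.inr ⟨?_, ?_, fun _ e => by cases e⟩⟩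
    · exact ptrans (and_r _ _) (Der.mp .h1 (.mp (.thm (.elimN _ _)) .h0)).ded.ded.prov
    · rintro _ ⟨⟩
      exact ⟨_, and_r _ _⟩
  by_cases h2 : ∃ g, f = .allS g
  · obtain ⟨g, rfl⟩ := h2
    obtain ⟨x, hx⟩ := freshS (T := T) c g
    refine ⟨_, key fun h' => h (hx h'), and_l _ _, Or.inr ⟨?_, (fun _ e => by cases e), ?_⟩⟩
    · exact ptrans (and_r _ _) (Der.mp .h1 (.mp (.thm (.elimS _ _)) .h0)).ded.ded.prov
    · rintro _ ⟨⟩
      exact ⟨_, and_r _ _⟩
  exact ⟨_, key h, and_l _ _, Or.inr ⟨and_r _ _, fun g e => absurd ⟨g, e⟩ h1,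
    fun g e => absurd ⟨g, e⟩ h2⟩⟩

/-- A complete Henkin theory. -/
structure Hk (T : Set Fm) (G : Fm → Prop) : Prop where
  thm : ∀ {f}, Prov T f → G f
  mp : ∀ {f g}, G (f.imp g) → G f → G g
  con : ¬ G .bot
  dec : ∀ f, G f ∨ G f.neg
  witN : ∀ g : Fm, (∀ t, G (g.instN t)) → G g.allN
  witS : ∀ g : Fm, (∀ k, G (g.instS k)) → G g.allS

theorem exists_hk {c : Fm} (hc : ¬ Prov T c.neg) : ∃ G, Hk T G ∧ G c := by
  have := countF
  have : Nonempty Fm := ⟨.bot⟩
  obtain ⟨e, he⟩ := exists_surjective_nat Fm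
  choose nx h1 h2 h3 using fun (c : {c : Fm // ¬ Prov T c.neg}) f => ext_step c.2 f
  let s : ℕ → {c : Fm // ¬ Prov T c.neg} := fun n =>
    Nat.rec ⟨c, hc⟩ (fun n c => ⟨nx c (e n), h1 c _⟩) n
  have mono : ∀ {m n}, m ≤ n → ∀ {f}, Prov T ((s m).1.imp f) → Prov T ((s n).1.imp f) := by
    intro m n h f hf
    induction n, h using Nat.le_induction with
    | base => exact hf
    | succ n _ ih => exact ptrans (h2 (s n) _) ih
  have mp : ∀ {f g}, (∃ n, Prov T ((s n).1.imp (f.imp g))) → (∃ n, Prov T ((s n).1.imp f)) →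
      ∃ n, Prov T ((s n).1.imp g) := fun ⟨m, hm⟩ ⟨n, hn⟩ =>
    ⟨m + n, pmp (mono (Nat.le_add_right _ _) hm) (mono (Nat.le_add_left _ _) hn)⟩
  have con : ¬ ∃ n, Prov T ((s n).1.imp .bot) := fun ⟨n, hn⟩ => (s n).2 hn
  have dec : ∀ f, ∃ n, Dec T (s n).1 f := fun f => by
    obtain ⟨n, rfl⟩ := he f
    exact ⟨n + 1, h3 (s n) _⟩
  refine ⟨fun f => ∃ n, Prov T ((s n).1.imp f), ⟨fun h => ⟨0, (Prov.k _ _).mp h⟩, mp, con,
    fun f => ?_, fun g h => ?_, fun g h => ?_⟩, 0, imp_self c⟩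
  · obtain ⟨n, hn⟩ := dec f
    exact hn.imp (fun h => ⟨n, h⟩) fun h => ⟨n, h.1⟩
  · obtain ⟨n, hn | hn⟩ := dec g.allN
    · exact ⟨n, hn⟩
    · obtain ⟨t, ht⟩ := hn.2.1 g rfl
      exact absurd (mp ⟨n, ht⟩ (h t)) con
  · obtain ⟨n, hn | hn⟩ := dec g.allS
    · exact ⟨n, hn⟩
    · obtain ⟨t, ht⟩ := hn.2.2 g rfl
      exact absurd (mp ⟨n, ht⟩ (h t)) con

namespace Hk

variable {G : Fm → Prop} (H : Hk T G)
include H

theorem imp_iff {f g : Fm} : G (f.imp g) ↔ (G f → G g) := by
  refine ⟨H.mp, fun h => ?_⟩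
  rcases H.dec f with h1 | h1
  · exact H.mp (H.thm (.k _ _)) (h h1)
  · exact H.mp (H.thm (Der.contra (Der.mp .h2 .h1)).ded.ded.prov) h1

theorem repl (f : Fm) {t u : Tm} (h : G (.eq t u)) (h' : G (f.instN t)) : G (f.instN u) :=
  H.mp (H.mp (H.thm (.repl f t u)) h) h'

theorem repl2 (F : Tm → Tm → Fm) (hF : ∀ a b r, (F a b).sub r id = F (a.sub r) (b.sub r))
    {t t' u u' : Tm} (h1 : G (.eq t t')) (h2 : G (.eq u u')) (h : G (F t u)) : G (F t' u') := by
  have h3 := H.repl (F (.var 0) u.up) h1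
  have h4 := H.repl (F t'.up (.var 0)) h2
  simp only [Fm.instN, hF, up_inst] at h3 h4
  exact h4 (h3 h)

theorem eq2 {t t' u u' : Tm} (h1 : G (.eq t t')) (h2 : G (.eq u u')) (h : G (.eq t u)) :
    G (.eq t' u') := H.repl2 .eq (fun _ _ _ => rfl) h1 h2 h

theorem rfl' (t : Tm) : G (.eq t t) := H.thm (.refl t)

theorem symm {t u : Tm} (h : G (.eq t u)) : G (.eq u t) := H.eq2 h (H.rfl' t) (H.rfl' t)

theorem op (o : Tm → Tm → Tm) (ho : ∀ a b r, (o a b).sub r = o (a.sub r) (b.sub r))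
    {t t' u u' : Tm} (h1 : G (.eq t t')) (h2 : G (.eq u u')) : G (.eq (o t u) (o t' u')) := by
  have h3 := H.repl (.eq (o t u).up (o (.var 0) u.up)) h1
  have h4 := H.repl (.eq (o t u).up (o t'.up (.var 0))) h2
  simp only [Fm.instN, Fm.sub, up_inst, ho (.var 0), ho t'.up] at h3 h4
  exact h4 (h3 (H.rfl' _))

/-- Provable equality. -/
def st : Setoid Tm :=
  ⟨fun t u => G (.eq t u), H.rfl', H.symm, fun h h' => H.eq2 (H.rfl' _) h' h⟩

theorem out (t : Tm) : G (.eq (Quotient.mk H.st t).out t) := Quotient.mk_out (s := H.st) t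

/-- The term model. -/
noncomputable def model : Str where
  N := Quotient H.st
  S := ℕ
  zero := Quotient.mk _ .zero
  one := Quotient.mk _ .one
  add a b := Quotient.mk _ (.add a.out b.out)
  mul a b := Quotient.mk _ (.mul a.out b.out)
  lt a b := G (.lt a.out b.out)
  mem a k := G (.mem a.out k)

theorem val (r : ℕ → Tm) (t : Tm) :
    H.model.val (fun n => Quotient.mk H.st (r n)) t = Quotient.mk H.st (t.sub r) := by
  induction t with
  | add t u h1 h2 =>
    show H.model.add (H.model.val _ t) (H.model.val _ u) = _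
    rw [h1, h2]
    exact Quotient.sound (H.op .add (fun _ _ _ => rfl) (H.out _) (H.out _))
  | mul t u h1 h2 =>
    show H.model.mul (H.model.val _ t) (H.model.val _ u) = _
    rw [h1, h2]
    exact Quotient.sound (H.op .mul (fun _ _ _ => rfl) (H.out _) (H.out _))
  | _ => rfl

theorem truth (f : Fm) : ∀ (r : ℕ → Tm) (p : ℕ → ℕ),
    H.model.Sat f (fun n => Quotient.mk H.st (r n)) p ↔ G (f.sub r p) := by
  induction f with
  | eq t u =>
    intro r p
    show H.model.val _ t = H.model.val _ u ↔ _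
    rw [H.val, H.val]
    exact Quotient.eq (r := H.st)
  | lt t u =>
    intro r p
    show H.model.lt (H.model.val _ t) (H.model.val _ u) ↔ _
    rw [H.val, H.val]
    exact ⟨H.repl2 .lt (fun _ _ _ => rfl) (H.out _) (H.out _),
      H.repl2 .lt (fun _ _ _ => rfl) (H.symm (H.out _)) (H.symm (H.out _))⟩
  | mem t k =>
    intro r p
    show H.model.mem (H.model.val _ t) (p k) ↔ _
    rw [H.val]
    exact ⟨H.repl (.mem (.var 0) (p k)) (H.out _), H.repl (.mem (.var 0) (p k)) (H.symm (H.out _))⟩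
  | bot => exact fun r p => ⟨False.elim, H.con⟩
  | imp f g h1 h2 =>
    intro r p
    show (H.model.Sat f _ _ → H.model.Sat g _ _) ↔ _
    rw [h1, h2, Fm.sub, H.imp_iff]
  | allN f h =>
    intro r p
    have e : ∀ t, H.model.Sat f (cons (Quotient.mk H.st t) fun n => Quotient.mk H.st (r n)) p ↔
        G ((f.sub (liftN r) p).instN t) := fun t => by
      have e1 : (fun n => (liftN r n).sub (cons t .var)) = cons t r := by
        funext n
        cases n with
        | zero => rfl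
        | succ n => exact up_inst _ _
      have e2 : (cons (Quotient.mk H.st t) fun n => Quotient.mk H.st (r n)) =
          fun n => Quotient.mk H.st (cons t r n) := by
        funext n
        cases n <;> rfl
      rw [Fm.instN, sub_sub, e1]
      exact e2 ▸ h (cons t r) p
    refine ⟨fun h' => H.witN _ fun t => (e t).1 (h' _), fun h' a => ?_⟩
    induction a using Quotient.inductionOn with
    | h t => exact (e t).2 (H.mp (H.thm (.elimN _ t)) h')
  | allS f h =>
    intro r p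
    have e : ∀ k : ℕ, H.model.Sat f (fun n => Quotient.mk H.st (r n)) (cons k p) ↔
        G ((f.sub r (liftS p)).instS k) := fun k => by
      have e1 : (fun n => cons k id (liftS p n)) = cons k p := by
        funext n
        cases n <;> rfl
      rw [Fm.instS, sub_sub, e1, funext fun n => tsub_var (r n)]
      exact h r (cons k p)
    exact ⟨fun h' => H.witS _ fun k => (e k).1 (h' _),
      fun h' k => (e k).2 (H.mp (H.thm (.elimS _ k)) h')⟩

end Hk

end CompleteX

theorem complete {T : Set Fm} {f : Fm} (h : ¬ Prov T f) :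
    ∃ A : Str, Countable A.N ∧ A.Models T ∧ ∃ v w, ¬ A.Sat f v w := by
  obtain ⟨G, H, hG⟩ := CompleteX.exists_hk (T := T) (c := f.neg) fun h' => h ((Prov.dne f).mp h')
  have := CompleteX.countT
  refine ⟨H.model, inferInstanceAs (Countable (Quotient H.st)), fun g hg v w => ?_,
    fun n => Quotient.mk H.st (.var n), id, fun h' => ?_⟩
  · have := (H.truth g (fun n => Quotient.out (s := H.st) (v n)) w).2 (H.thm (.subst _ _ (.ax hg)))
    rwa [funext fun n => Quotient.out_eq (s := H.st) (v n)] at this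
  · have := (H.truth f .var id).1 h'
    rw [CompleteX.sub_var] at this
    exact H.con (H.mp hG this)

end Pool.Agent.MP75f14d

end
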