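import Pool.Agent.Mg.F75f14d.G727c50
import Pool.Agent.Mg.F75f14d.G74009a

section

/-! Tame finite homogeneous sets and covers of the tail. -/

namespace Pool.Agent.MP75f14d

variable {M : Type} [Ar M] [Good M]

/-- `hit e s F`: the index `e` has entered the jump of the coded set `F` by stage `s`. -/
structure HitOK (hit : M → M → M → Prop) : Prop where
  mono : ∀ {e s t F}, s ≤ t → hit e s F → hit e t F
  loc : ∀ {e s F G}, (∀ i < s, Mem i F ↔ Mem i G) → hit e s F → hit e s G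

variable (col : M → M → Prop) (hit : M → M → M → Prop)

/-- The coded set `G` is homogeneous of colour `j`. -/
def Hom (j : Prop) (G : M) : Prop :=
  AllIn G fun u => AllIn G fun v => Imp (u < v) (col u v ↔ j)

/-- `z < y` are consecutive elements of the coded set `d`. -/
def Consec (d z y : M) : Prop :=
  Mem z d ∧ Mem y d ∧ z < y ∧ BAll y fun w => Imp (z < w) (¬ Mem w d)

/-- `F` is homogeneous of colour `j`, and for consecutive scales `z < y` of `d` with label `j`,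
`F` meets `[z, y)` and no index below `z` enters the jump of `F` between stages `y` and `n`. -/
def Tame (j : Prop) (F L d n : M) : Prop :=
  Hom col j F ∧ AllIn d fun z => AllIn d fun y => Imp (Consec d z y) (Imp (Mem z L ↔ j)
    ((ExIn F fun v => z ≤ v ∧ v < y) ∧ BAll z fun e => Imp (hit e n F) (hit e y F)))

/-- All `j`-homogeneous extensions of `F` by elements of `Z` are tame. -/
def SideOK (j : Prop) (F L d n Z : M) : Prop :=
  BAll (exp n) fun G => Imp (AllIn G fun v => Mem v Z)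
    (Imp (Hom col j G) (Tame col hit j (cup F G) L d n))

/-- The coded set `Z` is a reservoir, up to stage `n`, for some stems below `x`. -/
def Allowed (d x n Z : M) : Prop :=
  BEx (exp x) fun F0 => BEx (exp x) fun F1 => BEx (exp x) fun L =>
    SideOK col hit False F0 L d n Z ∧ SideOK col hit True F1 L d n Z

/-- The class `t` of the cover `f` of `[x, n)`. -/
noncomputable def cls (f t x n : M) : M := sep n fun v => x ≤ v ∧ Mem (pair v t) f

/-- `[x, n)` is covered by `K` reservoirs. -/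
def CovAt (d x K n : M) : Prop :=
  BEx (exp (pair n K)) fun f => BAll n fun y => Imp (x ≤ y)
    (BEx K fun t => Mem (pair y t) f ∧ Allowed col hit d x n (cls f t x n))

/-- Every interval `[x, n)` is covered by `4 ^ x` reservoirs. -/
def Cov (d x : M) : Prop := ∀ n, CovAt col hit d x (exp (2 * x)) n

variable {col hit}

theorem hom_iff {j : Prop} {G : M} :
    Hom col j G ↔ ∀ u v, Mem u G → Mem v G → u < v → (col u v ↔ j) := by
  simp only [Hom, allIn_iff, Imp]
  exact ⟨fun h u v hu hv => h u hu v hv, fun h u hu v hv => h u v hu hv⟩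

theorem consec_iff {d z y : M} :
    Consec d z y ↔ Mem z d ∧ Mem y d ∧ z < y ∧ ∀ w, z < w → w < y → ¬ Mem w d := by
  simp only [Consec, BAll, Imp]
  exact ⟨fun ⟨a, b, c, h⟩ => ⟨a, b, c, fun w h1 h2 => h w h2 h1⟩,
    fun ⟨a, b, c, h⟩ => ⟨a, b, c, fun w h1 h2 => h w h2 h1⟩⟩

theorem tame_iff {j : Prop} {F L d n : M} :
    Tame col hit j F L d n ↔ Hom col j F ∧ ∀ z y, Consec d z y → (Mem z L ↔ j) →
      (∃ v, Mem v F ∧ z ≤ v ∧ v < y) ∧ ∀ e < z, hit e n F → hit e y F := by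
  simp only [Tame, allIn_iff, exIn_iff, Imp, BAll]
  refine and_congr_right fun _ => ⟨fun h z y hc => h z hc.1 y hc.2.1 hc, fun h z _ y _ => h z y⟩

theorem mem_cls {f t x n v : M} : Mem v (cls f t x n) ↔ v < n ∧ x ≤ v ∧ Mem (pair v t) f := by
  obtain ⟨C, _, _⟩ := exists_base M
  exact mem_sep C (by fun_prop)

theorem sideOK_iff {j : Prop} {F L d n Z : M} (hZ : ∀ v, Mem v Z → v < n) :
    SideOK col hit j F L d n Z ↔
      ∀ G, (∀ v, Mem v G → Mem v Z) → Hom col j G → Tame col hit j (cup F G) L d n := by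
  simp only [SideOK, allIn_iff, Imp, BAll]
  exact ⟨fun h G hG => h G (lt_exp_iff.2 fun i hi => hZ i (hG i hi)) hG, fun h G _ => h G⟩

section Fn
variable {C : Cls M} [XpIn C] {α : Type} [Cd M α]
  (hcol : Fn C fun p : M × M => col p.1 p.2)
  (hhit : Fn C fun p : M × M × M => hit p.1 p.2.1 p.2.2)

include hcol in
theorem Fn.hom (j : Prop) {G : α → M} (hG : Fn C G) : Fn C fun a => Hom col j (G a) := by
  unfold Hom; fun_prop

@[fun_prop] theorem Fn.consec {d z y : α → M} (hd : Fn C d) (hz : Fn C z) (hy : Fn C y) :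
    Fn C fun a => Consec (d a) (z a) (y a) := by
  unfold Consec; fun_prop

@[fun_prop] theorem Fn.cls {f t x n : α → M} (hf : Fn C f) (ht : Fn C t) (hx : Fn C x)
    (hn : Fn C n) : Fn C fun a => cls (f a) (t a) (x a) (n a) := by
  unfold MP75f14d.cls; fun_prop

include hcol hhit

theorem Fn.tame (j : Prop) {F L d n : α → M} (hF : Fn C F) (hL : Fn C L) (hd : Fn C d)
    (hn : Fn C n) : Fn C fun a => Tame col hit j (F a) (L a) (d a) (n a) := by
  unfold Tame Hom; fun_prop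

theorem Fn.allowed {d x n Z : α → M} (hd : Fn C d) (hx : Fn C x) (hn : Fn C n) (hZ : Fn C Z) :
    Fn C fun a => Allowed col hit (d a) (x a) (n a) (Z a) := by
  unfold Allowed SideOK Tame Hom; fun_prop

theorem Fn.covAt {d x K n : α → M} (hd : Fn C d) (hx : Fn C x) (hK : Fn C K) (hn : Fn C n) :
    Fn C fun a => CovAt col hit (d a) (x a) (K a) (n a) := by
  unfold CovAt Allowed SideOK Tame Hom; fun_prop

end Fn

end Pool.Agent.MP75f14d

end

section

/-! The step lemma, part one: a block without rich points has a good cover. -/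

namespace Pool.Agent.MP75f14d

variable {M : Type} [Ar M] [Good M] (col : M → M → Prop) (hit : M → M → M → Prop)

/-- No `j`-homogeneous subset of `Z` gives `F` its first element `≥ x` or puts a new index
below `x` into the jump between the stages `a` and `b`. -/
def Neutral (x : M) (j : Prop) (F a b Z : M) : Prop :=
  BAll (exp b) fun G => Imp (AllIn G fun v => Mem v Z) (Imp (Hom col j G)
    (Imp (ExIn (cup F G) fun v => x ≤ v) (ExIn F fun v => x ≤ v) ∧
      BAll x fun e => Imp (hit e b (cup F G)) (hit e a F)))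

/-- The colours of the pairs `(u, v)`, `u < a`. -/
noncomputable def view (v a : M) : M := sep a fun u => col u v

/-- The points of `[a, b)` in class `t` of `f`, with view `V`, in class `w` of `g`. -/
noncomputable def part (f t V g w a b : M) : M :=
  sep b fun v => a ≤ v ∧ Mem (pair v t) f ∧ view col v a = V ∧ Mem (pair v w) g

/-- `G` is a `j`-homogeneous subset of class `t` of `f` in `[x, a)` of colour `j` in the view. -/
def GoodG (x f t V a : M) (j : Prop) (G : M) : Prop :=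
  Hom col j G ∧ AllIn G fun u => x ≤ u ∧ u < a ∧ Mem (pair u t) f ∧ (Mem u V ↔ j)

/-- `g` is a cover of `[a, b)` by `2 ^ r` classes, each neutral for one side. -/
def Wit (d x n f r a b t V g : M) : Prop :=
  (BAll b fun v => Imp (a ≤ v) (BEx (exp r) fun w => Mem (pair v w) g)) ∧
  BEx (exp x) fun F0 => BEx (exp x) fun F1 => BEx (exp x) fun L =>
    SideOK col hit False F0 L d n (cls f t x n) ∧ SideOK col hit True F1 L d n (cls f t x n) ∧
    BEx (exp a) fun G0 => BEx (exp a) fun G1 =>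
      GoodG col x f t V a False G0 ∧ GoodG col x f t V a True G1 ∧
      BAll (exp r) fun w => Neutral col hit x False (cup F0 G0) a b (part col f t V g w a b) ∨
        Neutral col hit x True (cup F1 G1) a b (part col f t V g w a b)

variable {col hit}

theorem neutral_iff {x F a b Z : M} {j : Prop} (hZ : ∀ v, Mem v Z → v < b) :
    Neutral col hit x j F a b Z ↔ ∀ G, (∀ v, Mem v G → Mem v Z) → Hom col j G →
      ((∃ v, Mem v (cup F G) ∧ x ≤ v) → ∃ v, Mem v F ∧ x ≤ v) ∧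
        ∀ e < x, hit e b (cup F G) → hit e a F := by
  simp only [Neutral, allIn_iff, exIn_iff, Imp, BAll]
  exact ⟨fun h G hG => h G (lt_exp_iff.2 fun i hi => hZ i (hG i hi)) hG, fun h G _ => h G⟩

theorem goodG_iff {x f t V a G : M} {j : Prop} : GoodG col x f t V a j G ↔
    Hom col j G ∧ ∀ u, Mem u G → x ≤ u ∧ u < a ∧ Mem (pair u t) f ∧ (Mem u V ↔ j) := by
  simp only [GoodG, allIn_iff]

theorem cup_assoc' (a b c : M) : cup (cup a b) c = cup a (cup b c) :=
  code_ext fun i => by simp only [mem_cup, or_assoc]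

section Fn
variable (C : Cls M) [SInd C] [XpIn C] {α : Type} [Cd M α]
  (hcol : Fn C fun p : M × M => col p.1 p.2)
  (hhit : Fn C fun p : M × M × M => hit p.1 p.2.1 p.2.2)

include hcol

theorem Fn.view {v a : α → M} (hv : Fn C v) (ha : Fn C a) :
    Fn C fun p => view col (v p) (a p) := by
  unfold MP75f14d.view; fun_prop

theorem mem_view {v a u : M} : Mem u (view col v a) ↔ u < a ∧ col u v :=
  mem_sep C (by fun_prop)

theorem view_lt (v a : M) : view col v a < exp a := sep_lt C (by fun_prop) a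

theorem mem_part {f t V g w a b v : M} : Mem v (part col f t V g w a b) ↔
    v < b ∧ a ≤ v ∧ Mem (pair v t) f ∧ view col v a = V ∧ Mem (pair v w) g :=
  mem_sep C (by unfold view; fun_prop)

include hhit in
theorem Fn.wit (d x n f r : M) {a b t V g : α → M} (ha : Fn C a) (hb : Fn C b) (ht : Fn C t)
    (hV : Fn C V) (hg : Fn C g) :
    Fn C fun p => Wit col hit d x n f r (a p) (b p) (t p) (V p) (g p) := by
  unfold Wit GoodG Neutral SideOK Tame Hom part MP75f14d.view; fun_prop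

/-- Adding a homogeneous set from a later block with the right view keeps homogeneity. -/
theorem hom_cup {x f t V a G G' : M} {j : Prop} (hG : GoodG col x f t V a j G)
    (hG' : Hom col j G') (h : ∀ v, Mem v G' → a ≤ v ∧ view col v a = V) :
    Hom col j (cup G G') := by
  rw [goodG_iff] at hG
  rw [hom_iff] at hG' ⊢
  intro u v hu hv huv
  rw [mem_cup] at hu hv
  rcases hu with hu | hu <;> rcases hv with hv | hv
  · exact hom_iff.1 hG.1 u v hu hv huv
  · obtain ⟨-, hua, -, hV⟩ := hG.2 u hu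
    rw [← hV, ← (h v hv).2, mem_view C hcol]
    exact ⟨fun h' => ⟨hua, h'⟩, fun h' => h'.2⟩
  · exact absurd (lt_trans huv (hG.2 v hv).2.1) (not_lt.2 (h u hu).1)
  · exact hG' u v hu hv huv

theorem side_new (ok : HitOK hit) {d x n f t V a b F G L L' Z y : M} {j : Prop}
    (hx : Mem x d) (hd : ∀ z, Mem z d → z ≤ x) (hxa : x < a) (hbn : b ≤ n) (hF : F < exp x)
    (hs : SideOK col hit j F L d n (cls f t x n)) (hG : GoodG col x f t V a j G)
    (hZ : ∀ v, Mem v Z → v < b ∧ a ≤ v ∧ Mem (pair v t) f ∧ view col v a = V) (hy : Mem y Z)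
    (hL : ∀ z < x, Mem z L' ↔ Mem z L)
    (hN : (Mem x L' ↔ j) → Neutral col hit x j (cup F G) a b Z) :
    SideOK col hit j (cup F G) L' (cup d (exp a)) b Z := by
  have hZb : ∀ v, Mem v Z → v < b := fun v hv => (hZ v hv).1
  have hab : a < b := lt_of_le_of_lt (hZ y hy).2.1 (hZb y hy)
  rw [sideOK_iff hZb]
  intro G' hG'Z hG'
  rw [sideOK_iff fun v hv => (mem_cls.1 hv).1] at hs
  have hGG := goodG_iff.1 hG
  have h1 := hs (cup G G') ?_ (hom_cup C hcol hG hG' fun v hv => ⟨(hZ v (hG'Z v hv)).2.1,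
    (hZ v (hG'Z v hv)).2.2.2⟩)
  swap
  · intro v hv
    rw [mem_cls]
    rcases mem_cup.1 hv with hv | hv
    · obtain ⟨h1, h2, h3, -⟩ := hGG.2 v hv
      exact ⟨lt_of_lt_of_le (lt_trans h2 hab) hbn, h1, h3⟩
    · obtain ⟨h1, h2, h3, -⟩ := hZ v (hG'Z v hv)
      exact ⟨lt_of_lt_of_le h1 hbn, le_trans hxa.le h2, h3⟩
  rw [← cup_assoc', tame_iff] at h1
  rw [tame_iff]
  refine ⟨h1.1, fun z z' hc hl => ?_⟩
  obtain ⟨hz, hz', hzz, hbetween⟩ := consec_iff.1 hc
  rw [mem_cup, mem_exp] at hz hz'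
  rcases hz' with hz' | rfl
  · have hz'x := hd z' hz'
    have hzx : z < x := lt_of_lt_of_le hzz hz'x
    have hzd : Mem z d := hz.resolve_right fun e => absurd (lt_trans hzx hxa) (e ▸ lt_irrefl _)
    have hc' : Consec d z z' := consec_iff.2 ⟨hzd, hz', hzz, fun w h1 h2 hw =>
      hbetween w h1 h2 (mem_cup.2 (Or.inl hw))⟩
    obtain ⟨g1, g2⟩ := h1.2 z z' hc' ((hL z hzx).symm.trans hl)
    exact ⟨g1, fun e he h => g2 e he (ok.mono hbn h)⟩
  · have hzd : Mem z d := hz.resolve_right hzz.ne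
    have hzx : z = x := by
      rcases (hd z hzd).lt_or_eq with h | h
      · exact absurd (mem_cup.2 (Or.inl hx)) (hbetween x h hxa)
      · exact h
    subst hzx
    have hN' := (neutral_iff hZb).1 (hN hl)
    have hFG : ∀ v, Mem v (cup F G) → v < z' := by
      intro v hv
      rcases mem_cup.1 hv with hv | hv
      · exact lt_trans (lt_exp_iff.1 hF v hv) hxa
      · exact (hGG.2 v hv).2.1
    constructor
    · have hy1 : Hom col j (exp y) := hom_iff.2 fun u v hu hv huv => by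
        rw [mem_exp] at hu hv
        exact absurd huv (by rw [hu, hv]; exact lt_irrefl _)
      obtain ⟨v, hv, hzv⟩ := (hN' (exp y) (fun v hv => by rw [mem_exp.1 hv]; exact hy) hy1).1
        ⟨y, mem_cup.2 (Or.inr (mem_exp.2 rfl)), le_trans hxa.le (hZ y hy).2.1⟩
      exact ⟨v, mem_cup.2 (Or.inl hv), hzv, hFG v hv⟩
    · intro e he h
      refine ok.loc (fun i hi => ?_) ((hN' G' hG'Z hG').2 e he h)
      rw [mem_cup (a := cup F G)]
      exact ⟨Or.inl, fun h' => h'.resolve_right fun h'' =>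
        absurd hi (not_lt.2 (hZ i (hG'Z i h'')).2.1)⟩

theorem allowed_new (ok : HitOK hit) {d x n f r t V a b g w Z y : M}
    (hx : Mem x d) (hd : ∀ z, Mem z d → z ≤ x) (hxa : x < a) (hbn : b ≤ n)
    (hW : Wit col hit d x n f r a b t V g) (hw : w < exp r)
    (hZ : ∀ v, Mem v Z → Mem v (part col f t V g w a b)) (hy : Mem y Z) :
    Allowed col hit (cup d (exp a)) a b Z := by
  obtain ⟨-, F0, hF0, F1, hF1, L, hL, s0, s1, G0, hG0, G1, hG1, g0, g1, hN⟩ := hW
  have hZ' : ∀ v, Mem v Z → v < b ∧ a ≤ v ∧ Mem (pair v t) f ∧ view col v a = V := fun v hv =>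
    let h := (mem_part C hcol).1 (hZ v hv); ⟨h.1, h.2.1, h.2.2.1, h.2.2.2.1⟩
  have hlt : ∀ {F G : M}, F < exp x → G < exp a → cup F G < exp a := fun hF hG =>
    lt_exp_iff.2 fun i hi => (mem_cup.1 hi).elim
      (fun h => lt_trans (lt_exp_iff.1 hF i h) hxa) (lt_exp_iff.1 hG i)
  have hxL : ¬ Mem x L := fun h => lt_irrefl _ (lt_exp_iff.1 hL x h)
  have hsub : ∀ {j : Prop} {F : M}, Neutral col hit x j F a b (part col f t V g w a b) →
      Neutral col hit x j F a b Z := fun h => by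
    rw [neutral_iff fun v hv => ((mem_part C hcol).1 hv).1] at h
    rw [neutral_iff fun v hv => (hZ' v hv).1]
    exact fun G hG => h G fun v hv => hZ v (hG v hv)
  rcases hN w hw with h | h
  · refine ⟨_, hlt hF0 hG0, _, hlt hF1 hG1, L, lt_trans hL (exp_lt_exp.2 hxa),
      side_new C hcol ok hx hd hxa hbn hF0 s0 g0 hZ' hy (fun _ _ => Iff.rfl) fun _ => hsub h,
      side_new C hcol ok hx hd hxa hbn hF1 s1 g1 hZ' hy (fun _ _ => Iff.rfl) fun h' => ?_⟩
    exact absurd (h'.2 trivial) hxL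
  · have hL' : ∀ z < x, Mem z (cup L (exp x)) ↔ Mem z L := fun z hz => by
      rw [mem_cup, mem_exp]; exact ⟨fun h => h.resolve_right hz.ne, Or.inl⟩
    refine ⟨_, hlt hF0 hG0, _, hlt hF1 hG1, cup L (exp x), hlt hL (exp_lt_exp.2 hxa),
      side_new C hcol ok hx hd hxa hbn hF0 s0 g0 hZ' hy hL' fun h' => ?_,
      side_new C hcol ok hx hd hxa hbn hF1 s1 g1 hZ' hy hL' fun _ => hsub h⟩
    exact (h'.1 (mem_cup.2 (Or.inr (mem_exp.2 rfl)))).elim

include hhit in
/-- If no point of the block `[a, b)` is rich, the block has a good cover. -/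
theorem covAt_of_wit (ok : HitOK hit) {d x n f r a b : M} {p : M → M} (hp : Fn C p)
    (hx : Mem x d) (hd : ∀ z, Mem z d → z ≤ x) (hxa : x < a) (hra : 2 * x + r ≤ a) (hbn : b ≤ n)
    (hpf : ∀ y < n, x ≤ y → p y < exp (2 * x) ∧ Mem (pair y (p y)) f)
    (h : ∀ y < b, a ≤ y → ∃ g < exp (pair b (exp r)),
      Wit col hit d x n f r a b (p y) (view col y a) g) :
    CovAt col hit (cup d (exp a)) a (exp (2 * a)) b := by
  have hWit : Fn C fun q : (M × M) × M => Wit col hit d x n f r a b q.1.1 q.1.2 q.2 :=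
    Fn.wit C hcol hhit d x n f r (a := fun _ => a) (b := fun _ => b) (by fun_prop) (by fun_prop)
      (by fun_prop) (by fun_prop) (by fun_prop)
  have hv : Fn C fun y => view col y a :=
    Fn.view C hcol (v := fun y => y) (a := fun _ => a) (by fun_prop) (by fun_prop)
  obtain ⟨gf, hgf, hW⟩ : ∃ gf : M → M → M, Fn C (fun q : M × M => gf q.1 q.2) ∧
      ∀ y < b, a ≤ y → Wit col hit d x n f r a b (p y) (view col y a)
        (gf (p y) (view col y a)) := by
    refine ⟨fun t V => mu (exp (pair b (exp r))) (Wit col hit d x n f r a b t V),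
      Fn.mu (P := fun (q : M × M) g => Wit col hit d x n f r a b q.1 q.2 g) (by fun_prop) hWit,
      fun y hy hay => ?_⟩
    obtain ⟨g, hg, hw⟩ := h y hy hay
    exact (mu_spec C (hWit.comp (g := fun g : M => ((p y, view col y a), g)) (by fun_prop))
      hg hw).2.1
  obtain ⟨wf, hwf, hw⟩ : ∃ wf : M → M, Fn C wf ∧ ∀ y < b, a ≤ y →
      wf y < exp r ∧ Mem (pair y (wf y)) (gf (p y) (view col y a)) := by
    obtain ⟨g1, hg1, e⟩ : ∃ g1 : M → M, Fn C g1 ∧ ∀ y, g1 y = gf (p y) (view col y a) :=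
      ⟨_, hgf.comp (hp.prodMk hv), fun _ => rfl⟩
    refine ⟨fun y => mu (exp r) fun w => Mem (pair y w) (g1 y), by fun_prop, fun y hy hay => ?_⟩
    obtain ⟨w, hw, hw'⟩ := (hW y hy hay).1 y hy hay
    rw [← e] at hw' ⊢
    have := mu_spec C (P := fun w => Mem (pair y w) (g1 y)) (by fun_prop) hw hw'
    exact ⟨lt_of_le_of_lt this.1 hw, this.2.1⟩
  obtain ⟨c, hc, ec⟩ : ∃ c : M → M, Fn C c ∧
      ∀ y, c y = (p y * exp a + view col y a) * exp r + wf y :=
    ⟨_, (((hp.mul (Fn.const _)).add hv).mul (Fn.const _)).add hwf, fun _ => rfl⟩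
  have hcl : ∀ y < b, a ≤ y → c y < exp (2 * a) := by
    intro y hy hay
    have h1 := (hpf y (lt_of_lt_of_le hy hbn) (le_trans hxa.le hay)).1
    have h2 := view_lt C hcol y a
    have h3 := (hw y hy hay).1
    have h4 : exp (2 * x) * exp r ≤ exp a := by rw [← exp_add]; exact exp_le_exp.2 hra
    have h5 : p y * exp a + view col y a + 1 ≤ exp (2 * x) * exp a := by
      zify at h1 h2 ⊢; nlinarith [nn (exp a)]
    have h6 : c y + 1 ≤ (p y * exp a + view col y a + 1) * exp r := by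
      rw [ec]; zify at h3 ⊢; nlinarith
    calc c y < c y + 1 := lt_add_one _
      _ ≤ _ := h6
      _ ≤ exp (2 * x) * exp a * exp r := by gcongr
      _ = exp (2 * x) * exp r * exp a := by ring
      _ ≤ exp a * exp a := by gcongr
      _ = exp (2 * a) := by rw [← exp_add, two_mul]
  obtain ⟨f', hf'⟩ := exists_code C (P := fun q => q = pair (fstM q) (c (fstM q))) (by fun_prop)
    (pair b (exp (2 * a)))
  refine ⟨f', lt_exp_iff.2 fun i hi => ((hf' i).1 hi).1,
    fun y hy hay => ⟨c y, hcl y hy hay, ?_, ?_⟩⟩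
  · rw [hf']; exact ⟨pair_lt_pair hy (hcl y hy hay).le, by simp⟩
  · have hyc : Mem y (cls f' (c y) a b) := by
      rw [mem_cls, hf']
      exact ⟨hy, hay, pair_lt_pair hy (hcl y hy hay).le, by simp⟩
    refine allowed_new C hcol ok hx hd hxa hbn (hW y hy hay) (hw y hy hay).1 (fun v hv => ?_) hyc
    rw [mem_cls, hf'] at hv
    obtain ⟨hvb, hav, -, e⟩ := hv
    have e1 : c v = c y := by simpa using e.symm
    rw [ec, ec] at e1
    obtain ⟨e2, e3⟩ := div_mod_unique (hw v hvb hav).1 (hw y hy hay).1 e1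
    obtain ⟨e4, e5⟩ := div_mod_unique (view_lt C hcol v a) (view_lt C hcol y a) e2
    rw [mem_part C hcol, ← e3, ← e4, ← e5]
    exact ⟨hvb, hav, (hpf v (lt_of_lt_of_le hvb hbn) (le_trans hxa.le hav)).2, rfl,
      (hw v hvb hav).2⟩

end Fn

end Pool.Agent.MP75f14d

end

section

/-! The step lemma, part two: many blocks with rich points are impossible. -/

namespace Pool.Agent.MP75f14d

variable {M : Type} [Ar M] [Good M] (col : M → M → Prop) (hit : M → M → M → Prop)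

/-- The events below `x + 1` that have happened to `F` by stage `s`. -/
noncomputable def evs (x F s : M) : M :=
  sep (x + 1) fun e => (e < x ∧ hit e s F) ∨ (e = x ∧ ExIn F fun v => x ≤ v)

/-- Invariant for one side of the process. -/
def SI (x f t : M) (yf : M → M) (j : Prop) (G Q s : M) : Prop :=
  Hom col j G ∧ (AllIn G fun u => x ≤ u ∧ u < s ∧ Mem (pair u t) f) ∧
    AllIn Q fun q => AllIn G fun u => (col u (yf q) ↔ j)

variable {col hit}

theorem si_iff {x f t G Q s : M} {yf : M → M} {j : Prop} : SI col x f t yf j G Q s ↔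
    Hom col j G ∧ (∀ u, Mem u G → x ≤ u ∧ u < s ∧ Mem (pair u t) f) ∧
      ∀ q, Mem q Q → ∀ u, Mem u G → (col u (yf q) ↔ j) := by
  simp only [SI, allIn_iff]

variable (C : Cls M) [SInd C] [XpIn C]
  (hcol : Fn C fun p : M × M => col p.1 p.2)
  (hhit : Fn C fun p : M × M × M => hit p.1 p.2.1 p.2.2)

include hhit in
theorem mem_evs {x F s e : M} : Mem e (evs hit x F s) ↔
    (e < x ∧ hit e s F) ∨ (e = x ∧ ∃ v, Mem v F ∧ x ≤ v) := by
  rw [evs, mem_sep C (by fun_prop), exIn_iff]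
  refine ⟨fun h => h.2, fun h => ⟨?_, h⟩⟩
  rcases h with h | h
  · exact lt_trans h.1 (lt_add_one x)
  · rw [h.1]; exact lt_add_one x

include hhit in
theorem evs_mono (ok : HitOK hit) {x F F' s s' e : M} (hs : s ≤ s')
    (h1 : ∀ i < s, Mem i F ↔ Mem i F') (h2 : ∀ i, Mem i F → Mem i F')
    (h : Mem e (evs hit x F s)) : Mem e (evs hit x F' s') := by
  rw [mem_evs C hhit] at h ⊢
  rcases h with h | ⟨h, v, hv, hxv⟩
  · exact Or.inl ⟨h.1, ok.mono hs (ok.loc h1 h.2)⟩
  · exact Or.inr ⟨h, v, h2 v hv, hxv⟩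

theorem si_keep {x f t G Q Q' s s' : M} {yf : M → M} {j : Prop} (h : SI col x f t yf j G Q s)
    (hQ : ∀ q, Mem q Q' → Mem q Q) (hs : s ≤ s') : SI col x f t yf j G Q' s' := by
  rw [si_iff] at h ⊢
  exact ⟨h.1, fun u hu => ⟨(h.2.1 u hu).1, lt_of_lt_of_le (h.2.1 u hu).2.1 hs, (h.2.1 u hu).2.2⟩,
    fun q hq => h.2.2 q (hQ q hq)⟩

include hcol in
theorem si_goodG {x f t G Q s a l : M} {yf : M → M} {j : Prop} (h : SI col x f t yf j G Q s)
    (hl : Mem l Q) (hs : s ≤ a) : GoodG col x f t (view col (yf l) a) a j G := by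
  rw [si_iff] at h
  rw [goodG_iff]
  refine ⟨h.1, fun u hu => ?_⟩
  obtain ⟨h1, h2, h3⟩ := h.2.1 u hu
  have hua := lt_of_lt_of_le h2 hs
  refine ⟨h1, hua, h3, ?_⟩
  rw [mem_view C hcol, ← h.2.2 l hl u hu]
  exact ⟨fun h => h.2, fun h => ⟨hua, h⟩⟩

include hcol hhit in
/-- Growing one side by a non-neutral part. -/
theorem si_grow (ok : HitOK hit) {cnt : M → M → M} (hc : IsCnt C cnt)
    {x f t F G Q Q' s a b l g w : M} {yf : M → M} {j : Prop} (h : SI col x f t yf j G Q s)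
    (hl : Mem l Q) (hs : s ≤ a) (hxa : x ≤ a) (hab : a ≤ b) (hQ : ∀ q, Mem q Q' → Mem q Q)
    (hw : ∀ q, Mem q Q' → ∀ u, Mem (pair u w) g → (col u (yf q) ↔ j))
    (hN : ¬ Neutral col hit x j (cup F G) a b (part col f t (view col (yf l) a) g w a b)) :
    ∃ G', SI col x f t yf j G' Q' b ∧
      cnt (evs hit x (cup F G) s) (x + 1) < cnt (evs hit x (cup F G') b) (x + 1) := by
  rw [neutral_iff fun v hv => ((mem_part C hcol).1 hv).1] at hN
  simp only [not_forall] at hN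
  obtain ⟨G', hG'Z, hG', hN⟩ := hN
  have hZ := fun v hv => (mem_part C hcol).1 (hG'Z v hv)
  have hg := si_goodG C hcol h hl hs
  rw [si_iff] at h
  have hloc : ∀ i < a, Mem i (cup F G) ↔ Mem i (cup F (cup G G')) := by
    intro i hi
    simp only [mem_cup]
    exact ⟨fun h => h.imp_right Or.inl, fun h => h.imp_right fun h' => h'.resolve_right
      fun h'' => absurd hi (not_lt.2 (hZ i h'').2.1)⟩
  have hsub : ∀ i, Mem i (cup F G) → Mem i (cup F (cup G G')) := by
    intro i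
    simp only [mem_cup]
    exact fun h => h.imp_right Or.inl
  refine ⟨cup G G', si_iff.2 ⟨hom_cup C hcol hg hG' fun v hv => ⟨(hZ v hv).2.1, (hZ v hv).2.2.2.1⟩,
    fun u hu => ?_, fun q hq u hu => ?_⟩, ?_⟩
  · rcases mem_cup.1 hu with hu | hu
    · obtain ⟨h1, h2, h3⟩ := h.2.1 u hu
      exact ⟨h1, lt_of_lt_of_le h2 (le_trans hs hab), h3⟩
    · obtain ⟨h1, h2, h3, -⟩ := hZ u hu
      exact ⟨le_trans hxa h2, h1, h3⟩
  · rcases mem_cup.1 hu with hu | hu
    · exact h.2.2 q (hQ q hq) u hu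
    · exact hw q hq u (hZ u hu).2.2.2.2
  · have hmono : ∀ i < x + 1, Mem i (evs hit x (cup F G) s) →
        Mem i (evs hit x (cup F (cup G G')) b) := fun i _ hi =>
      evs_mono C hhit ok (le_trans hs hab) (fun i hi => hloc i (lt_of_lt_of_le hi hs)) hsub hi
    rw [← cup_assoc'] at hmono ⊢
    rcases not_and_or.1 hN with hN | hN
    · rw [Classical.not_imp] at hN
      refine hc.lt hmono (lt_add_one x) ((mem_evs C hhit).2 (Or.inr ⟨rfl, hN.1⟩)) fun h' => ?_
      rcases (mem_evs C hhit).1 h' with h' | h'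
      · exact lt_irrefl _ h'.1
      · exact hN.2 h'.2
    · simp only [not_forall] at hN
      obtain ⟨e, he, h1, h2⟩ := hN
      refine hc.lt hmono (lt_trans he (lt_add_one x)) ((mem_evs C hhit).2 (Or.inl ⟨he, h1⟩))
        fun h' => ?_
      rcases (mem_evs C hhit).1 h' with h' | h'
      · exact h2 (ok.mono hs h'.2)
      · exact he.ne h'.1

include hcol hhit in
theorem no_rich (ok : HitOK hit) {cnt : M → M → M} (hc : IsCnt C cnt)
    {d x n f r t Q0 F0 F1 L : M} {X yf : M → M} (hX : Fn C X) (hyf : Fn C yf)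
    (hx0 : x ≤ X 0) (hXm : ∀ l m, l ≤ m → X l ≤ X m)
    (hF0 : F0 < exp x) (hF1 : F1 < exp x) (hL : L < exp x)
    (s0 : SideOK col hit False F0 L d n (cls f t x n))
    (s1 : SideOK col hit True F1 L d n (cls f t x n))
    (hQ0 : exp (2 * x + 3) ≤ cnt Q0 r)
    (rich : ∀ l, Mem l Q0 → ∀ g < exp (pair (X (l + 1)) (exp r)),
      ¬ Wit col hit d x n f r (X l) (X (l + 1)) t (view col (yf l) (X l)) g) : False := by
  have hcf := hc.fn
  obtain ⟨gv, hgv, egv⟩ : ∃ gv : M → M, Fn C gv ∧ ∀ v, gv v = sep r fun q => col v (yf q) :=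
    ⟨fun v => sep r fun q => col v (yf q), by fun_prop, fun _ => rfl⟩
  have mgv : ∀ v q, Mem q (gv v) ↔ q < r ∧ col v (yf q) := fun v q => by
    rw [egv]; exact mem_sep C (by fun_prop)
  have key : ∀ k ≤ 2 * x + 3, ∃ z : M × M × M × M × M, k + z.2.2.2.2 = 2 * x + 3 ∧
      exp z.2.2.2.2 ≤ cnt z.1 r + 1 ∧ (AllIn z.1 fun q => Mem q Q0 ∧ z.2.2.2.1 ≤ X q) ∧
      SI col x f t yf False z.2.1 z.1 z.2.2.2.1 ∧ SI col x f t yf True z.2.2.1 z.1 z.2.2.2.1 ∧
      k ≤ cnt (evs hit x (cup F0 z.2.1) z.2.2.2.1) (x + 1) +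
        cnt (evs hit x (cup F1 z.2.2.1) z.2.2.2.1) (x + 1) := by
    refine Sig.ind_le (C := C) (Sig.ex (Fn.sig ?_)) _ ?_ ?_
    · unfold SI Hom evs; fun_prop
    · refine ⟨(Q0, 0, 0, 0, 2 * x + 3), by simp, le_trans hQ0 le_self_add, ?_, ?_, ?_, zero_le⟩
      · simp
      · simp [si_iff, hom_iff]
      · simp [si_iff, hom_iff]
    · rintro k hk ⟨⟨Q, G0, G1, s, m⟩, hm, hcard, hQ, i0, i1, hpot⟩
      dsimp only at hm hcard hQ i0 i1 hpot
      rw [allIn_iff] at hQ
      obtain ⟨m', rfl⟩ : ∃ m', m = m' + 1 := by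
        rcases eq_zero_or_succ m with rfl | h
        · rw [add_zero] at hm; exact absurd hm hk.ne
        · exact h
      rw [exp_succ] at hcard
      have hpos := exp_pos m'
      obtain ⟨q0, -, hq0⟩ := hc.exists_mem (d := Q) (m := r) (by zify at *; linarith)
      obtain ⟨l, hl, hmin⟩ := Fn.lnp (C := C) (P := fun q => Mem q Q) (by fun_prop) hq0
      have hab : X l ≤ X (l + 1) := hXm _ _ le_self_add
      have hxa : x ≤ X l := le_trans hx0 (hXm _ _ zero_le)
      obtain ⟨g, hg⟩ := exists_code C (P := fun q => q = pair (fstM q) (gv (fstM q)))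
        (by fun_prop) (pair (X (l + 1)) (exp r))
      have hgvlt : ∀ v, gv v < exp r := fun v => lt_exp_iff.2 fun i hi => ((mgv v i).1 hi).1
      have hR := rich l (hQ l hl).1 g (lt_exp_iff.2 fun i hi => ((hg i).1 hi).1)
      have g0 := si_goodG C hcol i0 hl (hQ l hl).2
      have g1 := si_goodG C hcol i1 hl (hQ l hl).2
      have hlt : ∀ {j : Prop} {G : M}, GoodG col x f t (view col (yf l) (X l)) (X l) j G →
          G < exp (X l) := fun h => lt_exp_iff.2 fun i hi => ((goodG_iff.1 h).2 i hi).2.1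
      obtain ⟨w, n0, n1⟩ : ∃ w,
          ¬ Neutral col hit x False (cup F0 G0) (X l) (X (l + 1))
            (part col f t (view col (yf l) (X l)) g w (X l) (X (l + 1))) ∧
          ¬ Neutral col hit x True (cup F1 G1) (X l) (X (l + 1))
            (part col f t (view col (yf l) (X l)) g w (X l) (X (l + 1))) := by
        by_contra hcon
        refine hR ⟨fun v hv _ => ⟨gv v, hgvlt v, (hg _).2 ⟨pair_lt_pair hv (hgvlt v).le, by simp⟩⟩,
          F0, hF0, F1, hF1, L, hL, s0, s1, G0, hlt g0, G1, hlt g1, g0, g1, fun w _ => ?_⟩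
        by_contra h'
        exact hcon ⟨w, fun h => h' (Or.inl h), fun h => h' (Or.inr h)⟩
      have hwg : ∀ u, Mem (pair u w) g → w = gv u := fun u hu => by
        simpa using ((hg _).1 hu).2
      obtain ⟨Q1, hQ1⟩ := exists_code C (P := fun q => Mem q Q ∧ q ≠ l ∧ Mem q w) (by fun_prop) r
      obtain ⟨Q2, hQ2⟩ := exists_code C (P := fun q => Mem q Q ∧ q ≠ l ∧ ¬ Mem q w) (by fun_prop) r
      have c1 : cnt Q r ≤ cnt (exp l) r + cnt (cup Q1 Q2) r := hc.le_add fun i hi h => by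
        rw [mem_exp, mem_cup, hQ1, hQ2]; tauto
      have c2 : cnt (cup Q1 Q2) r ≤ cnt Q1 r + cnt Q2 r := hc.le_add fun i _ h => mem_cup.1 h
      have c3 := hc.exp_le l r
      have hnext : ∀ q, Mem q Q → q ≠ l → Mem q Q0 ∧ X (l + 1) ≤ X q := fun q hq hql =>
        ⟨(hQ q hq).1, hXm _ _ (lt_iff_succ_le.1 (lt_of_le_of_ne
          (not_lt.1 fun h => hmin q h hq) hql.symm))⟩
      have hsb : s ≤ X (l + 1) := le_trans (hQ l hl).2 hab
      have hkm : k + 1 + m' = 2 * x + 3 := by rw [← hm]; ring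
      have keep : ∀ F : M, cnt (evs hit x F s) (x + 1) ≤ cnt (evs hit x F (X (l + 1))) (x + 1) :=
        fun F => hc.mono fun i _ hi => evs_mono C hhit ok hsb (fun _ _ => Iff.rfl) (fun _ h => h) hi
      by_cases hbig : exp m' ≤ cnt Q1 r + 1
      · have hsub : ∀ q, Mem q Q1 → Mem q Q := fun q hq => ((hQ1 q).1 hq).2.1
        obtain ⟨G', i1', hlt'⟩ := si_grow C hcol hhit ok hc (Q' := Q1) i1 hl (hQ l hl).2 hxa hab hsub
          (fun q hq u hu => by
            have := ((hQ1 q).1 hq).2.2.2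
            rw [hwg u hu, mgv] at this
            exact iff_true_intro this.2) n1
        refine ⟨(Q1, G0, G', X (l + 1), m'), hkm, hbig, allIn_iff.2 fun q hq =>
          hnext q (hsub q hq) ((hQ1 q).1 hq).2.2.1, si_keep i0 hsub hsb, i1', ?_⟩
        have := keep (cup F0 G0)
        dsimp only
        zify at hpot hlt' this ⊢; linarith
      · have hbig2 : exp m' ≤ cnt Q2 r + 1 := by
          push Not at hbig
          zify at hbig hcard c1 c2 c3 ⊢; linarith
        have hsub : ∀ q, Mem q Q2 → Mem q Q := fun q hq => ((hQ2 q).1 hq).2.1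
        obtain ⟨G', i0', hlt'⟩ := si_grow C hcol hhit ok hc (Q' := Q2) i0 hl (hQ l hl).2 hxa hab hsub
          (fun q hq u hu => by
            have := ((hQ2 q).1 hq).2.2.2
            rw [hwg u hu, mgv] at this
            exact iff_false_intro fun h => this ⟨((hQ2 q).1 hq).1, h⟩) n0
        refine ⟨(Q2, G', G1, X (l + 1), m'), hkm, hbig2, allIn_iff.2 fun q hq =>
          hnext q (hsub q hq) ((hQ2 q).1 hq).2.2.1, i0', si_keep i1 hsub hsb, ?_⟩
        have := keep (cup F1 G1)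
        dsimp only
        zify at hpot hlt' this ⊢; linarith
  obtain ⟨z, -, -, -, -, -, h⟩ := key _ le_rfl
  have a1 := hc.le (evs hit x (cup F0 z.2.1) z.2.2.2.1) (x + 1)
  have a2 := hc.le (evs hit x (cup F1 z.2.2.1) z.2.2.2.1) (x + 1)
  zify at h a1 a2
  linarith

end Pool.Agent.MP75f14d

end

section

/-! The step lemma. -/

namespace Pool.Agent.MP75f14d

variable {M : Type} [Ar M] [Good M] {col : M → M → Prop} {hit : M → M → M → Prop}

theorem cov_zero : Cov col hit (exp 0) 0 := by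
  obtain ⟨C, _, _⟩ := exists_base M
  intro n
  obtain ⟨f, hf⟩ := exists_code C (P := fun _ => True) (by fun_prop) (pair n (exp (2 * 0)))
  refine ⟨f, lt_exp_iff.2 fun i hi => ((hf i).1 hi).1, fun y hy _ => ⟨0, exp_pos _,
    (hf _).2 ⟨pair_lt_pair hy zero_le, trivial⟩, 0, exp_pos _, 0, exp_pos _, 0, exp_pos _, ?_⟩⟩
  have : ∀ j : Prop, SideOK col hit j 0 0 (exp 0) n (cls f 0 0 n) := by
    intro j
    rw [sideOK_iff fun v hv => (mem_cls.1 hv).1]
    intro G _ hG
    rw [tame_iff]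
    refine ⟨?_, fun z y hc _ => ?_⟩
    · rw [hom_iff] at hG ⊢
      simpa using hG
    · obtain ⟨h1, h2, h3, -⟩ := consec_iff.1 hc
      rw [mem_exp] at h1 h2
      rw [h1, h2] at h3
      exact absurd h3 (lt_irrefl _)
  exact ⟨this _, this _⟩

theorem cov_step (C : Cls M) [SInd C] [XpIn C] (hcol : Fn C fun p : M × M => col p.1 p.2)
    (hhit : Fn C fun p : M × M × M => hit p.1 p.2.1 p.2.2) (ok : HitOK hit) {d x : M}
    (hx : Mem x d) (hd : ∀ z, Mem z d → z ≤ x) (h : Cov col hit d x) :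
    ∃ y, x < y ∧ Cov col hit (cup d (exp y)) y := by
  by_contra hcon
  obtain ⟨cnt, hc⟩ := exists_cnt C
  obtain ⟨r, hr⟩ : ∃ r, r = exp (2 * x) * exp (2 * x + 3) := ⟨_, rfl⟩
  have hcov : Fn C fun q : M × M => CovAt col hit (cup d (exp q.1)) q.1 (exp (2 * q.1)) q.2 :=
    Fn.covAt hcol hhit (by fun_prop) (by fun_prop) (by fun_prop) (by fun_prop)
  obtain ⟨N, hN, hN'⟩ := exists_fn_least (C := C) (α := M) (P := fun y n => Imp (x < y)
      (¬ CovAt col hit (cup d (exp y)) y (exp (2 * y)) n))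
    (Fn.imp (by fun_prop) hcov.not) (fun y => by
      by_cases hy : x < y
      · by_contra h'
        exact hcon ⟨y, hy, fun n => by_contra fun hn => h' ⟨n, fun _ => hn⟩⟩
      · exact ⟨0, fun h => absurd h hy⟩)
  have hNlt : ∀ y, x < y → y < N y := by
    intro y hy
    by_contra hle
    exact (hN' y).1 hy ⟨0, exp_pos _, fun v hv hyv =>
      absurd (lt_of_lt_of_le hv (not_lt.1 hle)) (not_lt.2 hyv)⟩
  obtain ⟨X', hX', hX0, hXs⟩ := exists_prec C (α := M) (g := fun _ => 2 * x + r + 1)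
    (h := fun _ _ y => N y) (by fun_prop) (by fun_prop)
  obtain ⟨X, hX, h0, hs⟩ : ∃ X : M → M, Fn C X ∧ X 0 = 2 * x + r + 1 ∧ ∀ l, X (l + 1) = N (X l) :=
    ⟨X' 0, by fun_prop, hX0 0, hXs 0⟩
  have hbig : ∀ l, 2 * x + r + 1 ≤ X l := by
    refine Fn.ind (C := C) (by fun_prop) h0.ge fun l ih => ?_
    rw [hs]
    refine le_trans ih (hNlt _ ?_).le
    zify at ih ⊢; linarith [nn x, nn r]
  have hxX : ∀ l, x < X l := fun l => by
    have := hbig l
    zify at this ⊢; linarith [nn x, nn r]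
  have hlt : ∀ l, X l < X (l + 1) := fun l => by rw [hs]; exact hNlt _ (hxX l)
  have hXm : ∀ l m, l ≤ m → X l ≤ X m := by
    intro l
    refine Fn.ind (C := C) (P := fun m => Imp (l ≤ m) (X l ≤ X m)) (by fun_prop) ?_ ?_
    · intro hl; rw [le_antisymm hl zero_le]
    · intro m ih hl
      rcases hl.lt_or_eq with h' | h'
      · exact le_trans (ih (lt_succ_iff.1 h')) (hlt m).le
      · rw [h']
  obtain ⟨f, -, hf⟩ := h (X r)
  have hal : Fn C fun t => Allowed col hit d x (X r) (cls f t x (X r)) :=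
    Fn.allowed hcol hhit (d := fun _ => d) (x := fun _ => x) (n := fun _ => X r)
      (by fun_prop) (by fun_prop) (by fun_prop) (by fun_prop)
  obtain ⟨p, hp, hpf⟩ : ∃ p : M → M, Fn C p ∧ ∀ y < X r, x ≤ y → p y < exp (2 * x) ∧
      Mem (pair y (p y)) f ∧ Allowed col hit d x (X r) (cls f (p y) x (X r)) := by
    obtain ⟨A, hA, eA⟩ : ∃ A : M → Prop, Fn C A ∧
        ∀ t, A t ↔ Allowed col hit d x (X r) (cls f t x (X r)) := ⟨_, hal, fun _ => Iff.rfl⟩
    refine ⟨fun y => mu (exp (2 * x)) fun t => Mem (pair y t) f ∧ A t, by fun_prop,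
      fun y hy hxy => ?_⟩
    obtain ⟨t, ht, h1, h2⟩ := hf y hy hxy
    have := mu_spec C (P := fun t => Mem (pair y t) f ∧ A t) (by fun_prop) ht ⟨h1, (eA t).2 h2⟩
    exact ⟨lt_of_le_of_lt this.1 ht, this.2.1.1, (eA _).1 this.2.1.2⟩
  obtain ⟨W, hW, eW⟩ : ∃ W : M → M → M → Prop, Fn C (fun q : M × M × M => W q.1 q.2.1 q.2.2) ∧
      ∀ l y g, W l y g ↔
        Wit col hit d x (X r) f r (X l) (X (l + 1)) (p y) (view col y (X l)) g :=
    ⟨_, Fn.wit C hcol hhit d x (X r) f r (α := M × M × M) (a := fun q => X q.1)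
      (b := fun q => X (q.1 + 1)) (t := fun q => p q.2.1) (V := fun q => view col q.2.1 (X q.1))
      (g := fun q => q.2.2) (by fun_prop) (by fun_prop) (by fun_prop)
      (Fn.view C hcol (by fun_prop) (by fun_prop)) (by fun_prop), fun _ _ _ => Iff.rfl⟩
  obtain ⟨yf, hyf, hy⟩ : ∃ yf : M → M, Fn C yf ∧ ∀ l < r, yf l < X (l + 1) ∧ X l ≤ yf l ∧
      ¬ BEx (exp (pair (X (l + 1)) (exp r))) fun g => W l (yf l) g := by
    refine ⟨fun l => mu (X (l + 1)) fun y => X l ≤ y ∧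
      ¬ BEx (exp (pair (X (l + 1)) (exp r))) fun g => W l y g, by fun_prop, fun l hl => ?_⟩
    have : ∃ y < X (l + 1), X l ≤ y ∧
        ¬ BEx (exp (pair (X (l + 1)) (exp r))) fun g => W l y g := by
      by_contra h'
      refine (hN' (X l)).1 (hxX l) ?_
      rw [← hs]
      refine covAt_of_wit C hcol hhit ok (f := f) (r := r) (n := X r) hp hx hd (hxX l)
        (le_trans le_self_add (hbig l)) (hXm _ _ (lt_iff_succ_le.1 hl))
        (fun y h1 h2 => ⟨(hpf y h1 h2).1, (hpf y h1 h2).2.1⟩) fun y h1 h2 => ?_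
      by_contra h''
      exact h' ⟨y, h1, h2, fun ⟨g, hg, hw⟩ => h'' ⟨g, hg, (eW _ _ _).1 hw⟩⟩
    obtain ⟨y, h1, h2⟩ := this
    have := mu_spec C (P := fun y => X l ≤ y ∧
      ¬ BEx (exp (pair (X (l + 1)) (exp r))) fun g => W l y g) (by fun_prop) h1 h2
    exact ⟨lt_of_le_of_lt this.1 h1, this.2.1⟩
  have hyp : ∀ l < r, p (yf l) < exp (2 * x) ∧ Mem (pair (yf l) (p (yf l))) f ∧
      Allowed col hit d x (X r) (cls f (p (yf l)) x (X r)) := fun l hl =>
    hpf _ (lt_of_lt_of_le (hy l hl).1 (hXm _ _ (lt_iff_succ_le.1 hl)))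
      (le_trans (hxX l).le (hy l hl).2.1)
  obtain ⟨t, -, ht⟩ := hc.pigeon (p := fun l => p (yf l)) (by fun_prop) (K := exp (2 * x))
    (s := exp (2 * x + 3)) (fun l hl => (hyp l (hr ▸ hl)).1) (exp_pos _)
  rw [← hr] at ht
  have hQ : ∀ l, Mem l (sep r fun l => p (yf l) = t) ↔ l < r ∧ p (yf l) = t := fun l =>
    mem_sep C (by fun_prop)
  obtain ⟨l0, -, hl0⟩ := hc.exists_mem (lt_of_lt_of_le (exp_pos _) ht)
  obtain ⟨F0, hF0, F1, hF1, L, hL, s0, s1⟩ := (hyp l0 ((hQ l0).1 hl0).1).2.2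
  rw [((hQ l0).1 hl0).2] at s0 s1
  refine no_rich C hcol hhit ok hc hX hyf (hxX 0).le hXm hF0 hF1 hL s0 s1 ht fun l hl g hg hw => ?_
  obtain ⟨h1, h2⟩ := (hQ l).1 hl
  exact (hy l h1).2.2 ⟨g, hg, (eW _ _ _).2 (h2 ▸ hw)⟩

end Pool.Agent.MP75f14d

end

section

/-! A generic path through an infinite recursive tree preserves collection. -/

namespace Pool.Agent.MP75f14d

variable {M : Type} [Ar M]

namespace GenericX

/-- A forcing condition: an infinite recursive subtree. -/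
structure Cond (J : Cls M) (T : M → M → Prop) (rs : M → M → M) (S : M → M → Prop) : Prop where
  fn : Fn J fun p : M × M => S p.1 p.2
  sub : ∀ n t, S n t → T n t
  down : ∀ n t m, S n t → m ≤ n → S m (rs t m)
  inf : ∀ n, ∃ t, S n t

variable {J : Cls M} {T : M → M → Prop} {rs : M → M → M} {B : M → M}

/-- If finitely many subtrees together have nodes on all levels then one of them does. -/
theorem pigeon [Coll J] (hB : Fn J B) (bd : ∀ n t, T n t → t < B n) {F : M → M → M → Prop}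
    (hF : Fn J fun p : M × M × M => F p.1 p.2.1 p.2.2) (sub : ∀ x n t, F x n t → T n t)
    (down : ∀ x n t m, F x n t → m ≤ n → F x m (rs t m)) {a : M}
    (h : ∀ L, ∃ x < a, ∃ u, F x L u) : ∃ x < a, Cond J T rs (F x) := by
  by_contra hn
  have h1 : ∀ x < a, ∃ m, BAll (B m) fun u => ¬ F x m u := fun x hx => by
    by_contra h2
    refine hn ⟨x, hx, ?_, sub x, down x, fun n => ?_⟩
    · exact hF.comp (g := fun p : M × M => (x, p.1, p.2)) (by fun_prop)
    · by_contra h3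
      exact h2 ⟨n, fun u _ hu => h3 ⟨u, hu⟩⟩
  have h2 : Fn J fun p : M × M => BAll (B p.2) fun u => ¬ F p.1 p.2 u :=
    Fn.ball (by fun_prop) (Fn.not
      (hF.comp (g := fun p : (M × M) × M => (p.1.1, p.1.2, p.2)) (by fun_prop)))
  obtain ⟨b, hb⟩ := Sig.coll (C := J) (P := fun x m => BAll (B m) fun u => ¬ F x m u) h2.sig h1
  obtain ⟨x, hx, u, hu⟩ := h b
  obtain ⟨m, hm, hm'⟩ := hb x hx
  have := down x b u m hu hm.le
  exact hm' _ (bd _ _ (sub _ _ _ this)) this

/-- A level can be decided. -/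
theorem dense_level [Coll J] (hrs : Fn J fun p : M × M => rs p.1 p.2) (hB : Fn J B)
    (bd : ∀ n t, T n t → t < B n) (trans : ∀ t n m, m ≤ n → rs (rs t n) m = rs t m)
    {S : M → M → Prop} (hS : Cond J T rs S) (n : M) :
    ∃ S', Cond J T rs S' ∧ (∀ m u, S' m u → S m u) ∧ ∃ t, ∀ u, S' n u → u = t := by
  have hf := hS.fn
  obtain ⟨t, -, ht⟩ := pigeon (J := J) (T := T) (rs := rs) hB bd
    (F := fun t m u => S m u ∧ Imp (n ≤ m) (rs u n = t) ∧ Imp (m ≤ n) (u = rs t m))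
    (by fun_prop) (fun _ _ _ h => hS.sub _ _ h.1) (a := B n)
    (by
      rintro t m u k ⟨h1, h2, h3⟩ hk
      refine ⟨hS.down _ _ _ h1 hk, fun h => ?_, fun h => ?_⟩
      · rw [trans _ _ _ h]; exact h2 (h.trans hk)
      · rcases le_total n m with h' | h'
        · rw [← h2 h', trans _ _ _ h]
        · rw [h3 h', trans _ _ _ hk])
    (fun L => by
      obtain ⟨v, hv⟩ := hS.inf (n + L)
      exact ⟨rs v n, bd _ _ (hS.sub _ _ (hS.down _ _ _ hv le_self_add)), rs v L,
        hS.down _ _ _ hv le_add_self, fun h => trans _ _ _ h, fun h => (trans _ _ _ h).symm⟩)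
  exact ⟨_, ht, fun _ _ h => h.1, rs t n, fun u hu => hu.2.2 le_rfl⟩

/-- An instance of collection can be decided. -/
theorem dense_coll [Coll J] (hrs : Fn J fun p : M × M => rs p.1 p.2) (hB : Fn J B)
    (bd : ∀ n t, T n t → t < B n) (trans : ∀ t n m, m ≤ n → rs (rs t n) m = rs t m)
    {S : M → M → Prop} (hS : Cond J T rs S) {R : M → M → M → Prop}
    (hR : Fn J fun p : M × M × M => R p.1 p.2.1 p.2.2) (a : M) :
    ∃ S', Cond J T rs S' ∧ (∀ m u, S' m u → S m u) ∧
      ((∃ x < a, ∀ n t, S' n t → ∀ s < n + 1, ¬ R x s (rs t s)) ∨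
        ∃ b, ∀ t, S' b t → ∀ x < a, ∃ s < b + 1, R x s (rs t s)) := by
  have hf := hS.fn
  by_cases h : ∀ L, ∃ x < a, ∃ u, S L u ∧ BAll (L + 1) fun s => ¬ R x s (rs u s)
  · have h2 : Fn J fun p : M × M × M => BAll (p.2.1 + 1) fun s => ¬ R p.1 s (rs p.2.2 s) :=
      Fn.ball (by fun_prop) (Fn.not (hR.comp
        (g := fun p : (M × M × M) × M => (p.1.1, p.2, rs p.1.2.2 p.2)) (by fun_prop)))
    obtain ⟨x, hx, ht⟩ := pigeon (J := J) (T := T) (rs := rs) hB bd
      (F := fun x n t => S n t ∧ BAll (n + 1) fun s => ¬ R x s (rs t s))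
      (Fn.and (by fun_prop) h2) (fun _ _ _ h => hS.sub _ _ h.1)
      (by
        rintro x n t m ⟨h1, h2⟩ hm
        refine ⟨hS.down _ _ _ h1 hm, fun s hs => ?_⟩
        have hs' := lt_succ_iff.1 hs
        show ¬ R x s (rs (rs t m) s)
        rw [trans _ _ _ hs']
        exact h2 s (lt_succ_iff.2 (hs'.trans hm))) h
    exact ⟨_, ht, fun _ _ h => h.1, Or.inl ⟨x, hx, fun n t h => h.2⟩⟩
  · refine ⟨S, hS, fun _ _ h => h, Or.inr ?_⟩
    rw [not_forall] at h
    obtain ⟨L, hL⟩ := h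
    refine ⟨L, fun t ht x hx => ?_⟩
    by_contra hn
    exact hL ⟨x, hx, t, ht, fun s hs hr => hn ⟨s, hs, hr⟩⟩

/-- Countably many dense sets are met by a decreasing sequence. -/
theorem exists_seq {α ι : Type} [Countable ι] [Nonempty ι] (r : α → α → Prop)
    (rrefl : ∀ a, r a a) (rtrans : ∀ a b c, r a b → r b c → r a c) (a₀ : α) (D : ι → α → Prop)
    (h : ∀ i a, ∃ b, r b a ∧ D i b) :
    ∃ s : ℕ → α, (∀ k l, k ≤ l → r (s l) (s k)) ∧ ∀ i, ∃ k, D i (s k) := by
  obtain ⟨e, he⟩ := exists_surjective_nat ι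
  choose g hg using h
  refine ⟨fun k => Nat.rec a₀ (fun k a => g (e k) a) k, fun k l hkl => ?_, fun i => ?_⟩
  · induction l, hkl using Nat.le_induction with
    | base => exact rrefl _
    | succ l _ ih => exact rtrans _ _ _ (hg _ _).1 ih
  · obtain ⟨k, rfl⟩ := he i
    exact ⟨k + 1, (hg _ _).2⟩

theorem countable_rel (hJ : J.sets.Countable) :
    Countable {R : M → M → M → Prop // Fn J fun p : M × M × M => R p.1 p.2.1 p.2.2} := by
  have := hJ.to_subtype
  refine Function.Injective.countable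
    (f := fun R : {R : M → M → M → Prop // Fn J fun p : M × M × M => R p.1 p.2.1 p.2.2} =>
      (⟨_, R.2.sig⟩ : J.sets)) fun R R' e => ?_
  have e' := Set.ext_iff.1 (congrArg Subtype.val e)
  refine Subtype.ext (funext fun x => funext fun y => funext fun z => propext ?_)
  simpa [and_assoc] using e' (pair x (pair y z))

end GenericX

open GenericX in
/-- `T n t`: `t` is a node of level `n`; `rs t m` is its predecessor at level `m`; nodes of level
`n` are below `B n`. -/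
theorem exists_generic [Countable M] (J : Cls M) [Ind J] [Coll J] (hJ : J.sets.Countable)
    {T : M → M → Prop} {rs : M → M → M} {B : M → M}
    (hT : Fn J fun p : M × M => T p.1 p.2) (hrs : Fn J fun p : M × M => rs p.1 p.2) (hB : Fn J B)
    (bd : ∀ n t, T n t → t < B n) (down : ∀ n t m, T n t → m ≤ n → T m (rs t m))
    (self : ∀ n t, T n t → rs t n = t)
    (trans : ∀ t n m, m ≤ n → rs (rs t n) m = rs t m) (inf : ∀ n, ∃ t, T n t) :
    ∃ P : M → M, (∀ n, T n (P n)) ∧ (∀ m n, m ≤ n → rs (P n) m = P m) ∧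
      ∀ R : M → M → M → Prop, Fn J (fun p : M × M × M => R p.1 p.2.1 p.2.2) →
        ∀ a, (∀ x < a, ∃ s, R x s (P s)) → ∃ b, ∀ x < a, ∃ s < b, R x s (P s) := by
  have := countable_rel hJ
  obtain ⟨s, hs, hD⟩ := exists_seq (α := {S // Cond J T rs S})
    (ι := M ⊕ {R : M → M → M → Prop // Fn J fun p : M × M × M => R p.1 p.2.1 p.2.2} × M)
    (fun S' S => ∀ m u, S'.1 m u → S.1 m u) (fun _ _ _ h => h)
    (fun _ _ _ h1 h2 _ _ h => h2 _ _ (h1 _ _ h)) ⟨T, hT, fun _ _ h => h, down, inf⟩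
    (fun i S => Sum.elim (fun n => ∃ t, ∀ u, S.1 n u → u = t)
      (fun q => (∃ x < q.2, ∀ n t, S.1 n t → ∀ s < n + 1, ¬ q.1.1 x s (rs t s)) ∨
        ∃ b, ∀ t, S.1 b t → ∀ x < q.2, ∃ s < b + 1, q.1.1 x s (rs t s)) i)
    (by
      rintro (n | ⟨R, a⟩) S
      · obtain ⟨S', h1, h2, h3⟩ := dense_level hrs hB bd trans S.2 n
        exact ⟨⟨S', h1⟩, h2, h3⟩
      · obtain ⟨S', h1, h2, h3⟩ := dense_coll hrs hB bd trans S.2 R.2 a
        exact ⟨⟨S', h1⟩, h2, h3⟩)
  have h1 : ∀ n, ∃ k t, ∀ u, (s k).1 n u → u = t := fun n => hD (Sum.inl n)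
  choose k P hP using h1
  have key : ∀ l n, (s l).1 n (P n) := fun l n => by
    obtain ⟨u, hu⟩ := (s (max l (k n))).2.inf n
    rw [← hP n u (hs _ _ (le_max_right _ _) _ _ hu)]
    exact hs _ _ (le_max_left _ _) _ _ hu
  have hc : ∀ m n, m ≤ n → rs (P n) m = P m := fun m n h =>
    hP m _ ((s (k m)).2.down _ _ _ (key _ n) h)
  refine ⟨P, fun n => (s 0).2.sub _ _ (key 0 n), hc, fun R hR a ha => ?_⟩
  obtain ⟨l, ⟨x, hx, h⟩ | ⟨b, h⟩⟩ := hD (Sum.inr (⟨R, hR⟩, a))
  · obtain ⟨t, ht⟩ := ha x hx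
    refine absurd ?_ (h t _ (key l t) t (lt_add_one t))
    rwa [hc t t le_rfl]
  · refine ⟨b + 1, fun x hx => ?_⟩
    obtain ⟨t, ht, ht'⟩ := h _ (key l b) x hx
    rw [hc t b (lt_succ_iff.1 ht)] at ht'
    exact ⟨t, ht, ht'⟩

end Pool.Agent.MP75f14d

end

section

/-! An infinite homogeneous set with controlled jump. -/

namespace Pool.Agent.MP75f14d

variable {M : Type} [Ar M] [Good M] {col : M → M → Prop} {hit : M → M → M → Prop}

namespace PathX

omit [Good M] in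
/-- An r.e. predicate of `C` is decidable in a class containing the co-r.e. sets of `C`. -/
theorem fn_of_sig {C J : Cls M} (h1 : C.sets ⊆ J.sets) (h2 : ∀ W ∈ C.sets, Wᶜ ∈ J.sets)
    {α : Type} [Cd M α] {P : α → Prop} (h : Sig C P) : Fn J P := by
  refine Fn.of_sig (h.mono h1) ?_
  refine J.congr (J.inter (h2 _ h) (rng_mem J α)) fun x => ⟨?_, ?_⟩
  · rintro ⟨a, rfl, ha⟩
    refine ⟨?_, a, rfl⟩
    rintro ⟨b, e, hb⟩
    obtain rfl := enc_inj e
    exact ha hb
  · rintro ⟨hx, a, rfl⟩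
    exact ⟨a, rfl, fun ha => hx ⟨a, rfl, ha⟩⟩

/-- The set of scales. -/
theorem exists_scales (C J : Cls M) [SInd C] [XpIn C] [Ind J] (h1 : C.sets ⊆ J.sets)
    (h2 : ∀ W ∈ C.sets, Wᶜ ∈ J.sets) (hcol : Fn C fun p : M × M => col p.1 p.2)
    (hhit : Fn C fun p : M × M × M => hit p.1 p.2.1 p.2.2) (ok : HitOK hit) :
    ∃ (D : M → Prop) (cD : M → M), Fn J D ∧ Fn J cD ∧ (∀ s i, Mem i (cD s) ↔ i < s ∧ D i) ∧
      (∀ n, ∃ z, n ≤ z ∧ D z) ∧ ∀ z, D z → Cov col hit (cD (z + 1)) z := by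
  have : XpIn J := XpIn.of_subset h1
  have hcov : Fn J fun p : M × M => Cov col hit p.1 p.2 := by
    have h3 : Sig C fun p : M × M => ∃ n, ¬ CovAt col hit p.1 p.2 (exp (2 * p.2)) n :=
      Sig.ex (P := fun (p : M × M) n => ¬ CovAt col hit p.1 p.2 (exp (2 * p.2)) n)
        (Fn.covAt hcol hhit (by fun_prop) (by fun_prop) (by fun_prop) (by fun_prop)).sig_not
    exact (fn_of_sig h1 h2 h3).not.congr_iff fun p => by simp [Cov]
  obtain ⟨D, hD, hrec⟩ := exists_setrec J (R := fun v t => Cov col hit (cup t (exp v)) v)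
    (hcov.comp (g := fun p : M × M => (cup p.2 (exp p.1), p.1)) (by fun_prop))
  have hreg : Reg D := reg_of_fn J hD
  have hcut : Fn J fun s => cut D s :=
    Fn.sep (P := fun _ i => i ∈ D) Fn.id' (hD.comp Fn.snd0)
  have hstep : ∀ z, z ∈ D → Cov col hit (cut D (z + 1)) z := by
    intro z hz
    have e : cut D (z + 1) = cup (cut D z) (exp z) := code_ext fun i => by
      rw [mem_cup, hreg.mem_cut, hreg.mem_cut, mem_exp, lt_succ_iff_lt_or_eq]
      constructor
      · rintro ⟨h | h, h'⟩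
        · exact Or.inl ⟨h, h'⟩
        · exact Or.inr h
      · rintro (⟨h, h'⟩ | h)
        · exact ⟨Or.inl h, h'⟩
        · exact ⟨Or.inr h, h ▸ hz⟩
    rw [e]; exact (hrec z).1 hz
  refine ⟨fun x => x ∈ D, fun s => cut D s, hD, hcut, fun s i => hreg.mem_cut, fun n => ?_, hstep⟩
  by_contra hn
  push Not at hn
  have h0 : (0 : M) ∈ D := by
    have e : cup (cut D 0) (exp 0) = exp (0 : M) := code_ext fun i => by
      rw [mem_cup, hreg.mem_cut]
      exact ⟨fun h => h.elim (fun h => absurd h.1 (not_lt_zero i)) id, Or.inr⟩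
    rw [hrec, e]; exact cov_zero
  obtain ⟨z, hz, hmax⟩ := Fn.exists_max (C := J) hD (a := 0) (b := n) h0
    fun x hx => not_le.1 fun h => hn x h hx
  obtain ⟨y, hy, hc⟩ := cov_step C hcol hhit ok (d := cut D (z + 1)) (x := z)
    (hreg.mem_cut.2 ⟨lt_add_one z, hz⟩) (fun w hw => hmax w (hreg.mem_cut.1 hw).2) (hstep z hz)
  have e : cut D y = cut D (z + 1) := code_ext fun i => by
    rw [hreg.mem_cut, hreg.mem_cut]
    exact ⟨fun h => ⟨lt_succ_iff.2 (hmax i h.2), h.2⟩,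
      fun h => ⟨lt_of_le_of_lt (hmax i h.2) hy, h.2⟩⟩
  have hyD : y ∈ D := by rw [hrec, e]; exact hc
  exact absurd (hmax y hyD) (not_le.2 hy)

theorem tame_down (ok : HitOK hit) {j : Prop} {F L d n m d' : M} (h : Tame col hit j F L d n)
    (hm : m ≤ n) (hd : ∀ w, Mem w d' ↔ w < m + 1 ∧ Mem w d) :
    Tame col hit j (res F m) (res L m) d' m := by
  rw [tame_iff] at h ⊢
  refine ⟨hom_iff.2 fun u v hu hv => hom_iff.1 h.1 u v (mem_res.1 hu).2 (mem_res.1 hv).2, ?_⟩
  intro z y hc hl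
  obtain ⟨hz, hy, hzy, hw⟩ := consec_iff.1 hc
  have hym : y ≤ m := lt_succ_iff.1 ((hd y).1 hy).1
  have hc' : Consec d z y := consec_iff.2 ⟨((hd z).1 hz).2, ((hd y).1 hy).2, hzy,
    fun w h1 h2 h3 => hw w h1 h2 ((hd w).2 ⟨lt_succ_iff.2 (h2.le.trans hym), h3⟩)⟩
  have hl' : Mem z L ↔ j := by
    rw [← hl, mem_res]; exact ⟨fun h => ⟨lt_of_lt_of_le hzy hym, h⟩, fun h => h.2⟩
  obtain ⟨⟨v, hv, hzv, hvy⟩, hh⟩ := h.2 z y hc' hl'
  refine ⟨⟨v, mem_res.2 ⟨lt_of_lt_of_le hvy hym, hv⟩, hzv, hvy⟩, fun e he h1 => ?_⟩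
  have h2 : hit e m F := ok.loc (fun i hi => by rw [mem_res]; exact ⟨fun h => h.2, fun h => ⟨hi, h⟩⟩) h1
  refine ok.loc (fun i hi => ?_) (hh e he (ok.mono hm h2))
  rw [mem_res]; exact ⟨fun h => ⟨lt_of_lt_of_le hi hym, h⟩, fun h => h.2⟩

/-- The three components of a node. -/
noncomputable def c0 (t : M) : M := fstM t
noncomputable def c1 (t : M) : M := fstM (sndM t)
noncomputable def c2 (t : M) : M := sndM (sndM t)
def nd (a b c : M) : M := pair a (pair b c)

omit [Good M] in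
@[simp] theorem c0_nd (a b c : M) : c0 (nd a b c) = a := by simp [c0, nd]
omit [Good M] in
@[simp] theorem c1_nd (a b c : M) : c1 (nd a b c) = b := by simp [c1, nd]
omit [Good M] in
@[simp] theorem c2_nd (a b c : M) : c2 (nd a b c) = c := by simp [c2, nd]

/-- Restriction of a node. -/
noncomputable def rs (t m : M) : M := nd (res (c0 t) m) (res (c1 t) m) (res (c2 t) m)

/-- Nodes of level `n`. -/
def Node (col : M → M → Prop) (hit : M → M → M → Prop) (cD : M → M) (n t : M) : Prop :=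
  t = nd (c0 t) (c1 t) (c2 t) ∧ c0 t < exp n ∧ c1 t < exp n ∧ c2 t < exp n ∧
    Tame col hit False (c0 t) (c2 t) (cD (n + 1)) n ∧
    Tame col hit True (c1 t) (c2 t) (cD (n + 1)) n

theorem exists_node (ok : HitOK hit) {D : M → Prop} {cD : M → M}
    (hcD : ∀ s i, Mem i (cD s) ↔ i < s ∧ D i) (hunb : ∀ n, ∃ z, n ≤ z ∧ D z)
    (hcov : ∀ z, D z → Cov col hit (cD (z + 1)) z) (n : M) : ∃ t, Node col hit cD n t := by
  obtain ⟨z, hnz, hz⟩ := hunb n
  obtain ⟨f, -, hf⟩ := hcov z hz (z + 1)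
  obtain ⟨t, -, -, F0, -, F1, -, L, -, h0, h1⟩ := hf z (lt_add_one z) le_rfl
  have key : ∀ {j : Prop} {F : M}, SideOK col hit j F L (cD (z + 1)) (z + 1) (cls f t z (z + 1)) →
      Tame col hit j (res F n) (res L n) (cD (n + 1)) n := by
    intro j F h
    have h2 := (sideOK_iff fun v hv => (mem_cls.1 hv).1).1 h 0
      (fun v hv => absurd hv (not_mem_zero v)) (hom_iff.2 fun u v hu => absurd hu (not_mem_zero u))
    have e : cup F 0 = F := code_ext fun i => by simp
    rw [e] at h2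
    refine tame_down ok h2 (hnz.trans le_self_add) fun w => ?_
    rw [hcD, hcD]
    exact ⟨fun h => ⟨h.1, lt_succ_iff.2 ((lt_succ_iff.1 h.1).trans hnz), h.2⟩,
      fun h => ⟨h.1, h.2.2⟩⟩
  refine ⟨nd (res F0 n) (res F1 n) (res L n), ?_⟩
  simp only [Node, c0_nd, c1_nd, c2_nd, res_lt, true_and]
  exact ⟨key h0, key h1⟩

/-- A coherent sequence of codes defines a regular set. -/
theorem exists_set {q : M → M} (h1 : ∀ s, q s < exp s) (h2 : ∀ m n, m ≤ n → res (q n) m = q m) :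
    ∃ H : Set M, ∀ s i, Mem i (q s) ↔ i < s ∧ i ∈ H := by
  refine ⟨{i | Mem i (q (i + 1))}, fun s i => ?_⟩
  have key : i < s → (Mem i (q (i + 1)) ↔ Mem i (q s)) := fun hi => by
    rw [← h2 (i + 1) s (lt_iff_succ_le.1 hi), mem_res]
    exact ⟨fun h => h.2, fun h => ⟨lt_add_one i, h⟩⟩
  constructor
  · intro h
    have hi := lt_exp_iff.1 (h1 s) i h
    exact ⟨hi, (key hi).2 h⟩
  · rintro ⟨hi, h⟩
    exact (key hi).1 h

/-- The final argument, for the side `j` read off by `c` from the generic path `P`. -/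
theorem final (J : Cls M) [Ind J] [XpIn J] (ok : HitOK hit)
    (hhit : Fn J fun p : M × M × M => hit p.1 p.2.1 p.2.2) {D : M → Prop} {cD c l P : M → M}
    (hD : Fn J D) (hcD' : Fn J cD) (hcD : ∀ s i, Mem i (cD s) ↔ i < s ∧ D i)
    (hc : Fn J c) (hl : Fn J l) {H L : Set M} {j : Prop}
    (hH : ∀ s i, Mem i (c (P s)) ↔ i < s ∧ i ∈ H) (hL : ∀ s i, Mem i (l (P s)) ↔ i < s ∧ i ∈ L)
    (hunb : ∀ n, ∃ z, n ≤ z ∧ D z ∧ (z ∈ L ↔ j))
    (ht : ∀ s, Tame col hit j (c (P s)) (l (P s)) (cD (s + 1)) s)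
    (hP : ∀ R : M → M → M → Prop, Fn J (fun p : M × M × M => R p.1 p.2.1 p.2.2) →
        ∀ a, (∀ x < a, ∃ s, R x s (P s)) → ∃ b, ∀ x < a, ∃ s < b, R x s (P s)) :
    Reg H ∧ (∀ x, ∃ y, x < y ∧ y ∈ H) ∧
      (∃ j : Prop, ∀ x ∈ H, ∀ y ∈ H, x < y → (col x y ↔ j)) ∧
      (∀ a, ∃ b, ∀ e < a, (∃ s, hit e s (cut H s)) → hit e b (cut H b)) ∧
      ∀ g : M → M → M, Fn J (fun p : M × M => g p.1 p.2) →
        ∀ a, (∀ x < a, ∃ y, ¬ ∃ s, hit (g x y) s (cut H s)) →
          ∃ b, ∀ x < a, ∃ y < b, ¬ ∃ s, hit (g x y) s (cut H s) := by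
  have hreg : Reg H := fun s => ⟨c (P s), hH s⟩
  have hcut : ∀ s, cut H s = c (P s) := fun s => code_ext fun i => by rw [hreg.mem_cut, hH]
  -- transfer of consecutiveness between levels
  have hcons : ∀ {z y s s'}, Consec (cD (s + 1)) z y → y ≤ s' → Consec (cD (s' + 1)) z y := by
    intro z y s s' h hy
    obtain ⟨h1, h2, h3, h4⟩ := consec_iff.1 h
    refine consec_iff.2 ⟨(hcD _ _).2 ⟨lt_succ_iff.2 (h3.le.trans hy), ((hcD _ _).1 h1).2⟩,
      (hcD _ _).2 ⟨lt_succ_iff.2 hy, ((hcD _ _).1 h2).2⟩, h3, fun w h5 h6 h7 => h4 w h5 h6 ?_⟩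
    exact (hcD _ _).2 ⟨h6.trans ((hcD _ _).1 h2).1, ((hcD _ _).1 h7).2⟩
  have hloc : ∀ {e y s s'}, y ≤ s → y ≤ s' → hit e y (c (P s)) → hit e y (c (P s')) := by
    intro e y s s' h1 h2 h
    refine ok.loc (fun i hi => ?_) h
    rw [hH, hH]
    exact ⟨fun h => ⟨lt_of_lt_of_le hi h2, h.2⟩, fun h => ⟨lt_of_lt_of_le hi h1, h.2⟩⟩
  have hkey : ∀ {z y s}, Consec (cD (s + 1)) z y → (z ∈ L ↔ j) →
      (∃ v, v ∈ H ∧ z ≤ v) ∧ ∀ e < z, (∃ s, hit e s (cut H s)) → hit e y (c (P y)) := by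
    intro z y s h hz
    have hzy : z < y := (consec_iff.1 h).2.2.1
    have h1 : ∀ s', y ≤ s' → (∃ v, Mem v (c (P s')) ∧ z ≤ v ∧ v < y) ∧
        ∀ e < z, hit e s' (c (P s')) → hit e y (c (P s')) := fun s' hs' =>
      (tame_iff.1 (ht s')).2 z y (hcons h hs') (by
        rw [hL, ← hz]; exact ⟨fun h => h.2, fun h => ⟨lt_of_lt_of_le hzy hs', h⟩⟩)
    refine ⟨?_, ?_⟩
    · obtain ⟨v, hv, hzv, -⟩ := (h1 y le_rfl).1
      exact ⟨v, ((hH _ _).1 hv).2, hzv⟩
    · rintro e he ⟨s', hs'⟩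
      rw [hcut] at hs'
      rcases le_total y s' with h2 | h2
      · exact hloc h2 le_rfl ((h1 s' h2).2 e he hs')
      · exact ok.mono h2 (hloc le_rfl h2 hs')
  have hnext : ∀ n, ∃ z y, n ≤ z ∧ Consec (cD (y + 1)) z y ∧ (z ∈ L ↔ j) := by
    intro n
    obtain ⟨z, hnz, hz, hzL⟩ := hunb n
    obtain ⟨y0, hy0, hy0D, -⟩ := hunb (z + 1)
    obtain ⟨y, ⟨hzy, hy⟩, hmin⟩ := Fn.lnp (C := J) (P := fun y => z < y ∧ D y) (by fun_prop)
      (a := y0) ⟨lt_iff_succ_le.2 hy0, hy0D⟩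
    refine ⟨z, y, hnz, consec_iff.2 ⟨(hcD _ _).2 ⟨hzy.trans (lt_add_one y), hz⟩,
      (hcD _ _).2 ⟨lt_add_one y, hy⟩, hzy, fun w h1 h2 h3 => ?_⟩, hzL⟩
    exact hmin w h2 ⟨h1, ((hcD _ _).1 h3).2⟩
  refine ⟨hreg, fun x => ?_, ⟨j, fun x hx y hy hxy => ?_⟩, fun a => ?_, fun g hg a ha => ?_⟩
  · obtain ⟨z, y, h1, h2, h3⟩ := hnext (x + 1)
    obtain ⟨v, hv, hzv⟩ := (hkey h2 h3).1
    exact ⟨v, lt_iff_succ_le.2 (h1.trans hzv), hv⟩
  · exact hom_iff.1 (tame_iff.1 (ht (y + 1))).1 x y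
      ((hH _ _).2 ⟨hxy.trans (lt_add_one y), hx⟩) ((hH _ _).2 ⟨lt_add_one y, hy⟩) hxy
  · obtain ⟨z, y, h1, h2, h3⟩ := hnext a
    refine ⟨y, fun e he hs => ?_⟩
    rw [hcut]
    exact (hkey h2 h3).2 e (lt_of_lt_of_le he h1) hs
  · obtain ⟨b, hb⟩ := hP (fun x s t => BEx s fun y => BEx s fun z => BEx s fun z' =>
      Consec (cD (s + 1)) z z' ∧ (Mem z (l t) ↔ j) ∧ g x y < z ∧ ¬ hit (g x y) z' (c t))
      (by fun_prop) a (by
        intro x hx
        obtain ⟨y, hy⟩ := ha x hx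
        obtain ⟨z, z', h1, h2, h3⟩ := hnext (g x y + 1)
        have hzz : z < z' := (consec_iff.1 h2).2.2.1
        have hz' : z' < y + z' + 1 := lt_succ_iff.2 le_add_self
        refine ⟨y + z' + 1, y, lt_succ_iff.2 le_self_add, z, hzz.trans hz', z', hz',
          hcons h2 hz'.le, ?_, lt_iff_succ_le.2 h1, fun h => hy ⟨y + z' + 1, ?_⟩⟩
        · rw [hL, ← h3]; exact ⟨fun h => h.2, fun h => ⟨hzz.trans hz', h⟩⟩
        · rw [hcut]; exact ok.mono hz'.le h)
    refine ⟨b, fun x hx => ?_⟩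
    obtain ⟨s, hs, y, hy, z, hz, z', hz', h1, h2, h3, h4⟩ := hb x hx
    refine ⟨y, hy.trans hs, fun h => h4 (hloc le_rfl hz'.le ((hkey h1 ?_).2 _ h3 h))⟩
    rw [← h2, hL]; exact ⟨fun h => ⟨hz, h⟩, fun h => h.2⟩

end PathX

open PathX in
theorem exists_path [Countable M] (C : Cls M) [SInd C] [Coll2 C] [XpIn C] (hnf : NF C)
    (hC : C.sets.Countable) (hcol : Fn C fun p : M × M => col p.1 p.2)
    (hhit : Fn C fun p : M × M × M => hit p.1 p.2.1 p.2.2) (ok : HitOK hit) :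
    ∃ H : Set M, Reg H ∧ (∀ x, ∃ y, x < y ∧ y ∈ H) ∧
      (∃ j : Prop, ∀ x ∈ H, ∀ y ∈ H, x < y → (col x y ↔ j)) ∧
      (∀ a, ∃ b, ∀ e < a, (∃ s, hit e s (cut H s)) → hit e b (cut H b)) ∧
      ∀ g : M → M → M, Fn C (fun p : M × M => g p.1 p.2) →
        ∀ a, (∀ x < a, ∃ y, ¬ ∃ s, hit (g x y) s (cut H s)) →
          ∃ b, ∀ x < a, ∃ y < b, ¬ ∃ s, hit (g x y) s (cut H s) := by
  obtain ⟨J, hI, hCo, h1, h2, h3⟩ := exists_jump C hnf
  have : XpIn J := XpIn.of_subset h1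
  obtain ⟨D, cD, hD, hcD', hcD, hunb, hcov⟩ := exists_scales C J h1 h2 hcol hhit ok
  have hcolJ := hcol.mono h1
  have hhitJ := hhit.mono h1
  have f0 : Fn J (c0 : M → M) := by unfold c0; fun_prop
  have f1 : Fn J (c1 : M → M) := by unfold c1; fun_prop
  have f2 : Fn J (c2 : M → M) := by unfold c2; fun_prop
  have hT : Fn J fun p : M × M => Node col hit cD p.1 p.2 := by
    unfold Node nd
    refine Fn.and (by fun_prop) (Fn.and (by fun_prop) (Fn.and (by fun_prop) (Fn.and (by fun_prop)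
      (Fn.and ?_ ?_))))
    · exact Fn.tame hcolJ hhitJ False (by fun_prop) (by fun_prop) (by fun_prop) (by fun_prop)
    · exact Fn.tame hcolJ hhitJ True (by fun_prop) (by fun_prop) (by fun_prop) (by fun_prop)
  have hrs : Fn J fun p : M × M => rs p.1 p.2 := by unfold rs nd; fun_prop
  have hB : Fn J fun n : M => nd (exp n) (exp n) (exp n) := by unfold nd; fun_prop
  have hdown : ∀ {n m : M}, m ≤ n → ∀ w, Mem w (cD (m + 1)) ↔ w < m + 1 ∧ Mem w (cD (n + 1)) := by
    intro n m hm w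
    rw [hcD, hcD]
    exact ⟨fun h => ⟨h.1, lt_succ_iff.2 ((lt_succ_iff.1 h.1).trans hm), h.2⟩,
      fun h => ⟨h.1, h.2.2⟩⟩
  obtain ⟨P, hP1, hP2, hP3⟩ := exists_generic J (h3 hC) hT hrs hB
    (fun n t h => by
      rw [h.1]; exact pair_lt_pair h.2.1 (pair_mono h.2.2.1.le h.2.2.2.1.le))
    (fun n t m h hm => by
      simp only [Node, rs, c0_nd, c1_nd, c2_nd, res_lt, true_and]
      exact ⟨tame_down ok h.2.2.2.2.1 hm (hdown hm), tame_down ok h.2.2.2.2.2 hm (hdown hm)⟩)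
    (fun n t h => by
      rw [rs, res_of_lt h.2.1, res_of_lt h.2.2.1, res_of_lt h.2.2.2.1]; exact h.1.symm)
    (fun t n m hm => by simp only [rs, c0_nd, c1_nd, c2_nd, res_res hm])
    (exists_node ok hcD hunb hcov)
  obtain ⟨H0, hH0⟩ := exists_set (q := fun s => c0 (P s)) (fun s => (hP1 s).2.1)
    fun m n h => by rw [← hP2 m n h, rs, c0_nd]
  obtain ⟨H1, hH1⟩ := exists_set (q := fun s => c1 (P s)) (fun s => (hP1 s).2.2.1)
    fun m n h => by rw [← hP2 m n h, rs, c1_nd]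
  obtain ⟨L, hL⟩ := exists_set (q := fun s => c2 (P s)) (fun s => (hP1 s).2.2.2.1)
    fun m n h => by rw [← hP2 m n h, rs, c2_nd]
  by_cases hj : ∀ n, ∃ z, n ≤ z ∧ D z ∧ (z ∈ L ↔ True)
  · obtain ⟨a1, a2, a3, a4, a5⟩ := final J ok hhitJ hD hcD' hcD f1 f2 hH1 hL hj
      (fun s => (hP1 s).2.2.2.2.2) hP3
    exact ⟨H1, a1, a2, a3, a4, fun g hg => a5 g (hg.mono h1)⟩
  · have hj' : ∀ n, ∃ z, n ≤ z ∧ D z ∧ (z ∈ L ↔ False) := by
      push Not at hj
      obtain ⟨n0, hn0⟩ := hj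
      intro n
      obtain ⟨z, hz, hzD⟩ := hunb (n + n0)
      refine ⟨z, le_trans le_self_add hz, hzD, ?_⟩
      have := hn0 z (le_trans le_add_self hz) hzD
      tauto
    obtain ⟨a1, a2, a3, a4, a5⟩ := final J ok hhitJ hD hcD' hcD f0 f2 hH0 hL hj'
      (fun s => (hP1 s).2.2.2.2.1) hP3
    exact ⟨H0, a1, a2, a3, a4, fun g hg => a5 g (hg.mono h1)⟩

end Pool.Agent.MP75f14d

end

section

/-! Assembly of the conservation theorem. -/

namespace Pool.Agent.MP75f14d

variable {M : Type} [Ar M]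

/-- The property kept along the iteration. -/
def Nice [Good M] (C : Cls M) : Prop := Univ C ∧ SInd C ∧ Coll2 C ∧ XpIn C

theorem one_step [Good M] [Countable M] (C : Cls M) (hC : Nice C) (Y : Set M)
    (hY : Fn C fun x : M => x ∈ Y) :
    ∃ E : Cls M, Nice E ∧ C.sets ⊆ E.sets ∧ ∃ H : Set M, Fn E (fun x : M => x ∈ H) ∧
      (∀ x, ∃ y, x < y ∧ y ∈ H) ∧ ∃ j : Prop, ∀ x ∈ H, ∀ y ∈ H, x < y → (pair x y ∈ Y ↔ j) := by
  obtain ⟨hU, _, _, _⟩ := hC
  obtain ⟨U, hUf, hU'⟩ := id hU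
  obtain ⟨hit, hhit, eh⟩ : ∃ hit : M → M → M → Prop,
      Fn C (fun p : M × M × M => hit p.1 p.2.1 p.2.2) ∧ ∀ e s F, hit e s F ↔
        ∃ t < s, ∃ y < s, U (fstM e) (pair (sndM e) (pair t (res F t))) y :=
    ⟨fun e s F => BEx s fun t => BEx s fun y => U (fstM e) (pair (sndM e) (pair t (res F t))) y,
      by fun_prop, fun _ _ _ => Iff.rfl⟩
  have ok : HitOK hit := by
    constructor
    · intro e s t F hst h
      obtain ⟨a, ha, y, hy, h⟩ := (eh _ _ _).1 h
      exact (eh _ _ _).2 ⟨a, lt_of_lt_of_le ha hst, y, lt_of_lt_of_le hy hst, h⟩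
    · intro e s F G hFG h
      obtain ⟨a, ha, y, hy, h⟩ := (eh _ _ _).1 h
      refine (eh _ _ _).2 ⟨a, ha, y, hy, ?_⟩
      rwa [show res G a = res F a from code_ext fun i => by
        simp only [mem_res]
        exact and_congr_right fun hi => (hFG i (lt_trans hi ha)).symm]
  have hcol : Fn C fun p : M × M => pair p.1 p.2 ∈ Y := hY.comp (by fun_prop)
  obtain ⟨H, hH, hinf, hhom, h1, h2⟩ := exists_path (col := fun u v => pair u v ∈ Y) C hU.nf
    hU.countable hcol hhit ok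
  have idx : ∀ R : M → M → M → Prop, Fn C (fun p : M × M × M => R p.1 p.2.1 p.2.2) →
      ∃ e, ∀ u, (∀ b, hit (pair e u) b (cut H b) → ∃ s < b, R u s (cut H s)) ∧
        ((∃ s, R u s (cut H s)) → ∃ s, hit (pair e u) s (cut H s)) := by
    intro R hR
    obtain ⟨e, he⟩ := hU' _ hR.sig
    have he' : ∀ u s F, R u s F ↔ ∃ y, U e (pair u (pair s F)) y := fun u s F => by
      rw [← he]
      constructor
      · intro h; exact ⟨(u, s, F), rfl, h⟩
      · rintro ⟨⟨u', s', F'⟩, e', h⟩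
        simp only [enc_prod, enc_M, pair_eq_iff] at e'
        obtain ⟨rfl, rfl, rfl⟩ := e'
        exact h
    refine ⟨e, fun u => ⟨fun b h => ?_, ?_⟩⟩
    · obtain ⟨t, ht, y, -, h⟩ := (eh _ _ _).1 h
      rw [fstM_pair, sndM_pair, hH.res_cut ht.le] at h
      exact ⟨t, ht, (he' _ _ _).2 ⟨y, h⟩⟩
    · rintro ⟨s, h⟩
      obtain ⟨y, hy⟩ := (he' _ _ _).1 h
      have hs : s < s + y + 1 := by zify; linarith [nn y]
      refine ⟨s + y + 1, (eh _ _ _).2 ⟨s, hs, y, by zify; linarith [nn s], ?_⟩⟩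
      rwa [fstM_pair, sndM_pair, hH.res_cut hs.le]
  have sc : SC C H := by
    intro R hR a
    obtain ⟨e, he⟩ := idx R hR
    obtain ⟨b, hb⟩ := h1 (pair e a)
    exact ⟨b, fun u hu h => (he u).1 b (hb _ (pair_lt_pair' le_rfl hu) ((he u).2 h))⟩
  have pc : PC C H := by
    intro R hR a ha
    obtain ⟨e, he⟩ := idx R hR
    obtain ⟨b, hb⟩ := h2 (fun x y => pair e (pair x y)) (by fun_prop) a fun x hx => by
      obtain ⟨y, hy⟩ := ha x hx
      exact ⟨y, fun ⟨s, hs⟩ => let ⟨t, _, ht⟩ := (he _).1 s hs; hy ⟨t, ht⟩⟩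
    refine ⟨b, fun x hx => ?_⟩
    obtain ⟨y, hy, h⟩ := hb x hx
    exact ⟨y, hy, fun h' => h ((he _).2 h')⟩
  obtain ⟨E, hCE, i1, i2, hUE, hHE⟩ := exists_ext C hU hH sc pc
  exact ⟨E, ⟨hUE, i1, i2, XpIn.of_subset hCE⟩, hCE, H, hHE, hinf, hhom⟩

/-- A bound for the free set variables of an arithmetical formula. -/
def Fm.bs : Fm → ℕ
  | .eq _ _ => 0
  | .lt _ _ => 0
  | .mem _ k => k + 1
  | .bot => 0
  | .imp f g => max f.bs g.bs
  | .allN f => f.bs
  | .allS f => f.bs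

theorem val_mkStr {S S' : Type} (mem : M → S → Prop) (mem' : M → S' → Prop) (v : ℕ → M) (t : Tm) :
    (mkStr M S mem).val v t = (mkStr M S' mem').val v t := by
  induction t with
  | var n => rfl
  | zero => rfl
  | one => rfl
  | add t u iht ihu => simp only [Str.val, iht, ihu]
  | mul t u iht ihu => simp only [Str.val, iht, ihu]

theorem sat_transfer {S S' : Type} (mem : M → S → Prop) (mem' : M → S' → Prop) {f : Fm}
    (hf : Arith f) (w : ℕ → S) (w' : ℕ → S')
    (h : ∀ k < f.bs, ∀ x, mem x (w k) ↔ mem' x (w' k)) (v : ℕ → M) :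
    (mkStr M S mem).Sat f v w ↔ (mkStr M S' mem').Sat f v w' := by
  induction hf generalizing v with
  | eq t u => simp only [Str.Sat, val_mkStr mem mem']
  | lt t u => simp only [Str.Sat, val_mkStr mem mem']
  | mem t k => simp only [Str.Sat, val_mkStr mem mem']; exact h k (Nat.lt_succ_self k) _
  | bot => rfl
  | imp _ _ ih1 ih2 =>
    exact imp_congr (ih1 (fun k hk => h k (lt_of_lt_of_le hk (le_max_left _ _))) v)
      (ih2 (fun k hk => h k (lt_of_lt_of_le hk (le_max_right _ _))) v)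
  | allN _ ih => exact forall_congr' fun a => ih h _

theorem conservative :
    Pi11Conservative (RCA0 ∪ BSigma02 ∪ {RT22, SRT22}) (RCA0 ∪ BSigma02) := by
  intro f hf h
  by_contra hn
  obtain ⟨A, hc, hA, v, w, hw⟩ := complete hn
  obtain ⟨X, hX⟩ : ∃ X, ¬ A.Sat f v (cons X w) := not_forall.1 hw
  obtain ⟨inst, e⟩ := exists_ar A (fun g hg => hA g (Or.inl hg)) w
  obtain ⟨N, S, a0, a1, a2, a3, a4, mem⟩ := A
  dsimp only at inst hc v w X e
  have hA' : (mkStr N S mem).Models (RCA0 ∪ BSigma02) := e ▸ hA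
  have hX' : ¬ (mkStr N S mem).Sat f v (cons X w) := by
    cases e; exact hX
  obtain ⟨C, i1, i2, hS⟩ := exists_cls hA' w
  obtain ⟨_, i3⟩ := exists_good C
  obtain ⟨C0, h0, hU, i4, hX0⟩ := exists_univ C (fun i => {x | mem x (cons X w i)}) f.bs
    fun i _ => hS _
  obtain ⟨L, hL, j1, j2, hRT⟩ := exists_limit (M := N) Nice
    (fun C hC => ⟨hC.1.countable, hC.2.1, hC.2.2.1⟩) one_step C0
    ⟨hU, SInd.of_subset h0, Coll2.of_subset h0, i4⟩
  have hM : (strOf L).Models (RCA0 ∪ BSigma02 ∪ {RT22, SRT22}) := by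
    rintro g (hg | rfl | rfl) v' w'
    · exact strOf_models L g hg v' w'
    · exact fun Y => strOf_homFm L hRT v' _
    · exact fun Y _ => strOf_homFm L hRT v' _
  classical
  let w' : ℕ → DSet L := fun i => if hi : i < f.bs then
    ⟨{x | mem x (cons X w i)}, Fn.mono hL (hX0 i hi)⟩ else ⟨Set.univ, Fn.const True⟩
  have := (strOf L).sound hM h v (fun i => w' (i + 1)) (w' 0)
  refine hX' ((sat_transfer mem _ hf _ _ (fun k hk x => ?_) v).2 this)
  have : cons (w' 0) (fun i => w' (i + 1)) k = w' k := by cases k <;> rfl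
  rw [this]
  simp only [w', dif_pos hk, Set.mem_setOf_eq]

theorem Prov.mono {T T' : Set Fm} (h : T ⊆ T') {f : Fm} (hf : Prov T f) : Prov T' f := by
  induction hf with
  | ax hf => exact .ax (h hf)
  | k f g => exact .k f g
  | s f g h => exact .s f g h
  | dne f => exact .dne f
  | mp _ _ ih1 ih2 => exact .mp ih1 ih2
  | elimN f t => exact .elimN f t
  | elimS f k => exact .elimS f k
  | genN _ ih => exact .genN ih
  | genS _ ih => exact .genS ih
  | refl t => exact .refl t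
  | repl f t u => exact .repl f t u
  | subst r p _ ih => exact .subst r p ih

end Pool.Agent.MP75f14d

end
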